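import Pool.Agent.U578.SAv

set_option autoImplicit false

namespace Pool.Agent.U578.SAv

theorem rot_A3 {n j : ℕ} (hj : j < n) : A3 (rot n j) := by
  intro a b c hab hbc h
  unfold rot at h
  split_ifs at h <;> omega

theorem rot_A4 {n j : ℕ} (hj : j < n) : A4 (rot n j) := by
  intro a b c d hab hbc hcd h
  unfold rot at h
  split_ifs at h <;> omega

theorem rot_rot {n j : ℕ} (hj : j < n) (i : ℕ) :
    rot n j (rot n j i) = rot n (if 2 * j < n then 2 * j else 2 * j - n) i := by
  unfold rot
  split_ifs <;> omega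

theorem rot_inv {n j : ℕ} (hj : j < n) (h0 : 0 < j) (i : ℕ) :
    rot n (n - j) (rot n j i) = i := by
  unfold rot
  split_ifs <;> omega

/-- rotation as a permutation -/
def rotP (n j : ℕ) : Equiv.Perm ℕ :=
  if h : 0 < j ∧ j < n then
    { toFun := rot n j
      invFun := rot n (n - j)
      left_inv := fun i => rot_inv h.2 h.1 i
      right_inv := fun i => by
        have := rot_inv (n := n) (j := n - j) (by omega) (by omega) i
        rwa [show n - (n - j) = j by omega] at this }
  else 1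

theorem rotP_apply {n j : ℕ} (h0 : 0 < j) (hj : j < n) (i : ℕ) : rotP n j i = rot n j i := by
  unfold rotP
  rw [dif_pos ⟨h0, hj⟩]
  rfl

theorem rotP_mem {n j : ℕ} (h0 : 0 < j) (hj : j < n) : rotP n j ∈ W n := by
  have hco : ((rotP n j : Equiv.Perm ℕ) : ℕ → ℕ) = rot n j := funext (rotP_apply h0 hj)
  refine ⟨?_, ?_, ?_⟩
  · intro i hi
    rw [hco]
    unfold rot
    split_ifs <;> omega
  · rw [hco]
    exact ⟨rot_A3 hj, rot_A4 hj⟩
  · rw [hco]
    have h2 : (fun i => rot n j (rot n j i)) = rot n (if 2 * j < n then 2 * j else 2 * j - n) :=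
      funext (rot_rot hj)
    rw [h2]
    have h3 : (if 2 * j < n then 2 * j else 2 * j - n) < n := by
      split_ifs <;> omega
    exact ⟨rot_A3 h3, rot_A4 h3⟩

theorem rotP_inj {n j k : ℕ} (h0 : 0 < j) (hj : j < n) (k0 : 0 < k) (hk : k < n)
    (h : rotP n j = rotP n k) : j = k := by
  have h1 : rotP n j 0 = rotP n k 0 := by rw [h]
  rw [rotP_apply h0 hj, rotP_apply k0 hk] at h1
  unfold rot at h1
  split_ifs at h1 <;> omega

/-- the swap at the end -/
def sw (N : ℕ) : Equiv.Perm ℕ := Equiv.swap (N - 1) N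

theorem sw_lt {N i : ℕ} (h : i < N - 1) : sw N i = i := by
  unfold sw
  exact Equiv.swap_apply_of_ne_of_ne (by omega) (by omega)

theorem sw_gt {N i : ℕ} (h : N < i) : sw N i = i := by
  unfold sw
  exact Equiv.swap_apply_of_ne_of_ne (by omega) (by omega)

theorem sw_l (N : ℕ) : sw N (N - 1) = N := by
  unfold sw
  exact Equiv.swap_apply_left _ _

theorem sw_r (N : ℕ) : sw N N = N - 1 := by
  unfold sw
  exact Equiv.swap_apply_right _ _

theorem sw_sw (N : ℕ) : sw N * sw N = 1 := by
  unfold sw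
  exact Equiv.swap_mul_self _ _

theorem fix_lt {π : Equiv.Perm ℕ} {n : ℕ} (hfix : ∀ i, n ≤ i → π i = i) {i : ℕ} (hi : i < n) :
    π i < n := by
  by_contra hc
  have h5 : π (π i) = π i := hfix _ (by omega)
  have h6 := π.injective h5
  omega

theorem dec4 {N : ℕ} (hN : 1 ≤ N) {π : Equiv.Perm ℕ} (hfix : ∀ i, N - 1 ≤ i → π i = i) (i : ℕ) :
    (i < N - 1 ∧ (π * sw N) i = π i ∧ π i < N - 1) ∨ (i = N - 1 ∧ (π * sw N) i = N) ∨
    (i = N ∧ (π * sw N) i = N - 1) ∨ (N < i ∧ (π * sw N) i = i) := by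
  rcases lt_trichotomy i (N - 1) with h | h | h
  · left
    refine ⟨h, ?_, fix_lt hfix h⟩
    rw [Equiv.Perm.mul_apply, sw_lt h]
  · right; left
    refine ⟨h, ?_⟩
    rw [Equiv.Perm.mul_apply, h, sw_l, hfix N (by omega)]
  · rcases Nat.lt_or_ge N i with h' | h'
    · right; right; right
      refine ⟨h', ?_⟩
      rw [Equiv.Perm.mul_apply, sw_gt h', hfix i (by omega)]
    · right; right; left
      have : i = N := by omega
      refine ⟨this, ?_⟩
      rw [Equiv.Perm.mul_apply, this, sw_r, hfix (N - 1) (by omega)]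

theorem sq_eq {N : ℕ} (hN : 1 ≤ N) {π : Equiv.Perm ℕ} (hfix : ∀ i, N - 1 ≤ i → π i = i) :
    (fun i => (π * sw N) ((π * sw N) i)) = fun i => π (π i) := by
  funext i
  rcases dec4 hN hfix i with ⟨h1, h2, h3⟩ | ⟨h1, h2⟩ | ⟨h1, h2⟩ | ⟨h1, h2⟩
  · rcases dec4 hN hfix ((π * sw N) i) with ⟨g1, g2, g3⟩ | ⟨g1, g2⟩ | ⟨g1, g2⟩ | ⟨g1, g2⟩
    · show (π * sw N) ((π * sw N) i) = π (π i)
      rw [g2, h2]
    · omega
    · omega
    · omega
  · show (π * sw N) ((π * sw N) i) = π (π i)
    rw [h2, Equiv.Perm.mul_apply, sw_r, h1, hfix (N - 1) (by omega), hfix (N - 1) (by omega)]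
  · show (π * sw N) ((π * sw N) i) = π (π i)
    rw [h2, Equiv.Perm.mul_apply, sw_l, h1, hfix N (by omega), hfix N (by omega)]
  · show (π * sw N) ((π * sw N) i) = π (π i)
    rw [h2, h2, hfix i (by omega), hfix i (by omega)]

theorem A3_mul {N : ℕ} (hN : 1 ≤ N) {π : Equiv.Perm ℕ} (hfix : ∀ i, N - 1 ≤ i → π i = i)
    (h : A3 π) : A3 ⇑(π * sw N) := by
  intro a b c hab hbc hh
  have h1 := h a b c hab hbc
  have ha := dec4 hN hfix a
  have hb := dec4 hN hfix b
  have hc := dec4 hN hfix c
  omega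

theorem A4_mul {N : ℕ} (hN : 1 ≤ N) {π : Equiv.Perm ℕ} (hfix : ∀ i, N - 1 ≤ i → π i = i)
    (h : A4 π) : A4 ⇑(π * sw N) := by
  intro a b c d hab hbc hcd hh
  have h1 := h a b c d hab hbc hcd
  have ha := dec4 hN hfix a
  have hb := dec4 hN hfix b
  have hc := dec4 hN hfix c
  have hd := dec4 hN hfix d
  omega

theorem A3_of_mul {N : ℕ} (hN : 1 ≤ N) {π : Equiv.Perm ℕ} (hfix : ∀ i, N - 1 ≤ i → π i = i)
    (h : A3 ⇑(π * sw N)) : A3 π := by
  intro a b c hab hbc hh
  by_cases hc : c < N - 1
  · have h1 := h a b c hab hbc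
    have ha := dec4 hN hfix a
    have hb := dec4 hN hfix b
    have hc := dec4 hN hfix c
    omega
  · have h1 := hfix c (by omega)
    by_cases hb : b < N - 1
    · have := fix_lt hfix hb
      omega
    · have := hfix b (by omega)
      omega

theorem A4_of_mul {N : ℕ} (hN : 1 ≤ N) {π : Equiv.Perm ℕ} (hfix : ∀ i, N - 1 ≤ i → π i = i)
    (h : A4 ⇑(π * sw N)) : A4 π := by
  intro a b c d hab hbc hcd hh
  by_cases hd : d < N - 1
  · have h1 := h a b c d hab hbc hcd
    have ha := dec4 hN hfix a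
    have hb := dec4 hN hfix b
    have hc := dec4 hN hfix c
    have hd := dec4 hN hfix d
    omega
  · have h1 := hfix d (by omega)
    by_cases hb : b < N - 1
    · have := fix_lt hfix hb
      omega
    · have := hfix b (by omega)
      omega

/-- the members of `W (N+1)` ending in `N, N-1` -/
theorem mul_mem_iff {N : ℕ} (hN : 1 ≤ N) {π : Equiv.Perm ℕ} (hfix : ∀ i, N - 1 ≤ i → π i = i) :
    π * sw N ∈ W (N + 1) ↔ π ∈ W (N - 1) := by
  constructor
  · rintro ⟨h1, ⟨h2, h3⟩, h4⟩
    refine ⟨hfix, ⟨A3_of_mul hN hfix h2, A4_of_mul hN hfix h3⟩, ?_⟩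
    rw [sq_eq hN hfix] at h4
    exact h4
  · rintro ⟨h1, ⟨h2, h3⟩, h4⟩
    refine ⟨?_, ⟨A3_mul hN hfix h2, A4_mul hN hfix h3⟩, ?_⟩
    · intro i hi
      have := dec4 hN hfix i
      omega
    · rw [sq_eq hN hfix]
      exact h4

theorem W_succ {N : ℕ} (hN : 1 ≤ N) :
    W (N + 1) = (W N ∪ (fun π => π * sw N) '' W (N - 1)) ∪
      (if 2 ≤ N then rotP (N + 1) '' Set.Icc 1 N else ∅) := by
  ext π
  constructor
  · intro hπ
    have hπ' := hπ
    obtain ⟨h1, ⟨h2, h3⟩, h4, h5⟩ := hπ
    by_cases hA : π N = N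
    · left; left
      refine ⟨?_, ⟨h2, h3⟩, h4, h5⟩
      intro i hi
      rcases Nat.eq_or_lt_of_le hi with h | h
      · rw [← h]; exact hA
      · exact h1 i h
    · by_cases hB : π N = N - 1 ∧ π (N - 1) = N
      · left; right
        have hf : ∀ i, N - 1 ≤ i → (π * sw N) i = i := by
          intro i hi
          rw [Equiv.Perm.mul_apply]
          rcases Nat.lt_trichotomy i N with h | h | h
          · have : i = N - 1 := by omega
            rw [this, sw_l, hB.1]
          · rw [h, sw_r, hB.2]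
          · rw [sw_gt h, h1 i (by omega)]
        refine ⟨π * sw N, ?_, ?_⟩
        · rw [← mul_mem_iff hN hf, mul_assoc, sw_sw, mul_one]
          exact hπ'
        · show π * sw N * sw N = π
          rw [mul_assoc, sw_sw, mul_one]
      · right
        by_cases h2N : 2 ≤ N
        · rw [if_pos h2N]
          obtain ⟨v, hv, hv'⟩ := key h2N π h1 h2 h3 h4 h5 hA hB
          refine ⟨v + 1, ⟨by omega, by omega⟩, ?_⟩
          ext i
          rw [rotP_apply (by omega) (by omega), hv' i]
        · exfalso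
          have hN1 : N = 1 := by omega
          subst hN1
          have h6 : π 1 ≤ 1 := by
            have := fix_lt (π := π) (n := 2) h1 (i := 1) (by omega)
            omega
          have h7 : π 0 ≤ 1 := by
            have := fix_lt (π := π) (n := 2) h1 (i := 0) (by omega)
            omega
          have h8 : π 0 ≠ π 1 := fun h => by
            have := π.injective h
            omega
          exact hB ⟨by omega, by
            show π 0 = 1
            omega⟩
  · rintro ((h | ⟨σ, hσ, rfl⟩) | h)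
    · obtain ⟨h1, h2, h3⟩ := h
      exact ⟨fun i hi => h1 i (by omega), h2, h3⟩
    · exact (mul_mem_iff hN hσ.1).2 hσ
    · by_cases h2N : 2 ≤ N
      · rw [if_pos h2N] at h
        obtain ⟨j, ⟨hj1, hj2⟩, rfl⟩ := h
        exact rotP_mem (by omega) (by omega)
      · rw [if_neg h2N] at h
        exact absurd h (Set.notMem_empty _)

theorem W_zero : W 0 = {1} := by
  ext π
  constructor
  · rintro ⟨h1, -⟩
    rw [Set.mem_singleton_iff]
    ext i
    rw [h1 i (by omega)]
    rfl
  · rintro rfl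
    refine ⟨fun i _ => rfl, ⟨?_, ?_⟩, ?_, ?_⟩
    · intro a b c hab hbc h
      simp only [Equiv.Perm.coe_one, id] at h
      omega
    · intro a b c d hab hbc hcd h
      simp only [Equiv.Perm.coe_one, id] at h
      omega
    · intro a b c hab hbc h
      simp only [Equiv.Perm.coe_one, id] at h
      omega
    · intro a b c d hab hbc hcd h
      simp only [Equiv.Perm.coe_one, id] at h
      omega

theorem W_one : W 1 = {1} := by
  rw [← W_zero]
  ext π
  constructor
  · rintro ⟨h1, h2, h3⟩
    refine ⟨?_, h2, h3⟩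
    intro i _
    rcases Nat.eq_zero_or_pos i with h | h
    · rw [h]
      have := fix_lt (π := π) (n := 1) h1 (i := 0) (by omega)
      omega
    · exact h1 i h
  · rintro ⟨h1, h2, h3⟩
    exact ⟨fun i hi => h1 i (by omega), h2, h3⟩

theorem W_finite (n : ℕ) : (W n).Finite := by
  induction n using Nat.strong_induction_on with
  | _ n ih =>
    rcases n with _ | n
    · rw [W_zero]
      exact Set.finite_singleton _
    · rcases Nat.eq_zero_or_pos n with h | h
      · rw [h, W_one]
        exact Set.finite_singleton _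
      · rw [W_succ h]
        refine ((ih n (by omega)).union ((ih (n - 1) (by omega)).image _)).union ?_
        split_ifs
        · exact (Set.finite_Icc 1 n).image _
        · exact Set.finite_empty

theorem disj1 {N : ℕ} (hN : 1 ≤ N) : Disjoint (W N) ((fun π => π * sw N) '' W (N - 1)) := by
  rw [Set.disjoint_left]
  rintro π hπ ⟨σ, hσ, rfl⟩
  have h1 := hπ.1 N le_rfl
  have h2 : (σ * sw N) N = N - 1 := by
    rw [Equiv.Perm.mul_apply, sw_r, hσ.1 (N - 1) (by omega)]
  have h3 : (fun π => π * sw N) σ = σ * sw N := rfl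
  rw [h3] at h1
  omega

theorem disj2 {N : ℕ} (hN : 2 ≤ N) :
    Disjoint (W N ∪ (fun π => π * sw N) '' W (N - 1)) (rotP (N + 1) '' Set.Icc 1 N) := by
  rw [Set.disjoint_left]
  rintro π hπ ⟨j, ⟨hj1, hj2⟩, rfl⟩
  have h1 : rotP (N + 1) j N = j - 1 := by
    rw [rotP_apply (by omega) (by omega)]
    unfold rot
    split_ifs <;> omega
  rcases hπ with hπ | ⟨σ, hσ, hσ'⟩
  · have := hπ.1 N le_rfl
    omega
  · have h3 : σ * sw N = rotP (N + 1) j := hσ'
    have h4 : (σ * sw N) N = N - 1 := by
      rw [Equiv.Perm.mul_apply, sw_r, hσ.1 (N - 1) (by omega)]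
    have h5 : (σ * sw N) (N - 1) = N := by
      rw [Equiv.Perm.mul_apply, sw_l, hσ.1 N (by omega)]
    rw [h3] at h4 h5
    have h6 : rotP (N + 1) j (N - 1) = j - 2 := by
      rw [rotP_apply (by omega) (by omega)]
      unfold rot
      split_ifs <;> omega
    omega

theorem ncard_succ {N : ℕ} (hN : 2 ≤ N) :
    (W (N + 1)).ncard = (W N).ncard + (W (N - 1)).ncard + N := by
  rw [W_succ (by omega), if_pos hN,
    Set.ncard_union_eq (disj2 hN) ((W_finite N).union ((W_finite (N - 1)).image _))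
      ((Set.finite_Icc 1 N).image _),
    Set.ncard_union_eq (disj1 (by omega)) (W_finite N) ((W_finite (N - 1)).image _),
    Set.ncard_image_of_injective _ (mul_left_injective (sw N)),
    Set.InjOn.ncard_image]
  · rw [← Finset.coe_Icc, Set.ncard_coe_finset, Nat.card_Icc]
    omega
  · rintro a ⟨ha1, ha2⟩ b ⟨hb1, hb2⟩ h
    exact rotP_inj (by omega) (by omega) (by omega) (by omega) h

theorem ncard_two : (W 2).ncard = 2 := by
  have h := W_succ (N := 1) le_rfl
  rw [if_neg (by omega), Set.union_empty] at h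
  rw [h, Set.ncard_union_eq (disj1 le_rfl) (W_finite 1) ((W_finite 0).image _),
    Set.ncard_image_of_injective _ (mul_left_injective (sw 1)), W_one, W_zero]
  simp

theorem count (n : ℕ) (hn : 1 ≤ n) : (W n).ncard + n + 2 = 2 * Nat.fib (n + 2) := by
  induction n using Nat.strong_induction_on with
  | _ n ih =>
    rcases Nat.lt_or_ge n 3 with h | h
    · have : n = 1 ∨ n = 2 := by omega
      rcases this with rfl | rfl
      · rw [W_one]
        simp [Nat.fib]
      · rw [ncard_two]
        decide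
    · obtain ⟨m, rfl⟩ : ∃ m, n = m + 1 := ⟨n - 1, by omega⟩
      rw [ncard_succ (by omega)]
      have h1 := ih m (by omega) (by omega)
      have h2 := ih (m - 1) (by omega) (by omega)
      have h3 : m - 1 + 2 = m + 1 := by omega
      rw [h3] at h2
      have h4 : Nat.fib (m + 1 + 2) = Nat.fib (m + 1) + Nat.fib (m + 2) := Nat.fib_add_two
      omega

end Pool.Agent.U578.SAv
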