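import Mathlib

set_option autoImplicit false

namespace Pool.Agent.U578.Smyth

noncomputable section

open Finset

/-- Finite LP duality for equal marginals. -/
theorem duality {n : ℕ} (hn : 0 < n) {T : Type*} [DecidableEq T] (X : Finset (Fin n → T)) :
    (∃ w : (Fin n → T) → ℝ, (∀ x ∈ X, 0 ≤ w x) ∧ (∃ x ∈ X, 0 < w x) ∧
      ∀ i j t, ∑ x ∈ X with x i = t, w x = ∑ x ∈ X with x j = t, w x) ∨
    (∃ f : Fin n → T → ℝ, (∀ t, ∑ i, f i t = 0) ∧ ∀ x ∈ X, 0 < ∑ i, f i (x i)) := by
  classical
  let D : Finset T := X.biUnion (fun x => Finset.univ.image x)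
  have hD : ∀ x ∈ X, ∀ i, x i ∈ D := by
    intro x hx i
    simp only [D, Finset.mem_biUnion, Finset.mem_image, Finset.mem_univ, true_and]
    exact ⟨x, hx, i, rfl⟩
  let φ : (Fin n → T) → (Fin n → D → ℝ) := fun x i t =>
    (if x i = (t : T) then 1 else 0) - (1 / (n : ℝ)) * ∑ j, (if x j = (t : T) then 1 else 0)
  let L : (X → ℝ) →ₗ[ℝ] (Fin n → D → ℝ) := ∑ x : X, (LinearMap.proj x).smulRight (φ x)
  have hL : ∀ w, L w = ∑ x : X, w x • φ x := by
    intro w
    simp [L, LinearMap.sum_apply]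
  have hnR : (0 : ℝ) < n := by exact_mod_cast hn
  by_cases h0 : (0 : Fin n → D → ℝ) ∈ L '' (stdSimplex ℝ X)
  · left
    obtain ⟨w, hw, hw0⟩ := h0
    refine ⟨fun x => if hx : x ∈ X then w ⟨x, hx⟩ else 0, ?_, ?_, ?_⟩
    · intro x hx
      simp only [hx, dif_pos]
      exact hw.1 _
    · by_contra hcon
      push Not at hcon
      have h1 : ∑ x : X, w x = 1 := hw.2
      have h2 : ∑ x : X, w x ≤ 0 := by
        apply Finset.sum_nonpos
        rintro ⟨x, hx⟩ _
        have := hcon x hx
        simpa [hx] using this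
      linarith
    · -- equal marginals
      have key : ∀ i t, ∑ x ∈ X with x i = t, (if hx : x ∈ X then w ⟨x, hx⟩ else 0) =
          (1 / (n : ℝ)) * ∑ x : X, w x * ∑ j, (if (x : Fin n → T) j = t then 1 else 0) := by
        intro i t
        have e1 : ∑ x ∈ X with x i = t, (if hx : x ∈ X then w ⟨x, hx⟩ else 0) =
            ∑ x : X, w x * (if (x : Fin n → T) i = t then 1 else 0) := by
          rw [Finset.sum_filter, ← Finset.sum_coe_sort X]
          apply Finset.sum_congr rfl
          rintro ⟨x, hx⟩ _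
          simp [hx]
        rw [e1]
        by_cases ht : t ∈ D
        · have h2 := congrFun (congrFun (hL w) i) ⟨t, ht⟩
          rw [hw0] at h2
          simp only [Pi.zero_apply, Finset.sum_apply, Pi.smul_apply, smul_eq_mul, φ] at h2
          have h3 : ∑ x : X, w x * ((if (x : Fin n → T) i = t then 1 else 0) -
              1 / (n : ℝ) * ∑ j, (if (x : Fin n → T) j = t then 1 else 0)) = 0 := h2.symm
          have h4 : ∑ x : X, w x * ((if (x : Fin n → T) i = t then 1 else 0) -
              1 / (n : ℝ) * ∑ j, (if (x : Fin n → T) j = t then 1 else 0)) =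
              ∑ x : X, w x * (if (x : Fin n → T) i = t then 1 else 0) -
              (1 / (n : ℝ)) * ∑ x : X, w x * ∑ j, (if (x : Fin n → T) j = t then 1 else 0) := by
            rw [Finset.mul_sum, ← Finset.sum_sub_distrib]
            apply Finset.sum_congr rfl
            intro x _
            ring
          linarith
        · have hne : ∀ x : X, ∀ j, (x : Fin n → T) j ≠ t := by
            rintro ⟨x, hx⟩ j rfl
            exact ht (hD x hx j)
          simp [hne]
      intro i j t
      rw [key i t, key j t]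
  · right
    have hconv : Convex ℝ (L '' (stdSimplex ℝ X)) := (convex_stdSimplex ℝ X).linear_image L
    have hcomp : IsCompact (L '' (stdSimplex ℝ X)) :=
      (isCompact_stdSimplex ℝ X).image (LinearMap.continuous_of_finiteDimensional L)
    obtain ⟨f, u, hf0, hfu⟩ := geometric_hahn_banach_point_closed hconv hcomp.isClosed h0
    have hfpos : ∀ x ∈ X, 0 < f (φ x) := by
      intro x hx
      have h1 : φ x ∈ L '' (stdSimplex ℝ X) := by
        refine ⟨Pi.single ⟨x, hx⟩ 1, single_mem_stdSimplex ℝ _, ?_⟩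
        rw [hL]
        rw [Finset.sum_eq_single ⟨x, hx⟩]
        · simp
        · intro y _ hy
          simp [Pi.single_eq_of_ne hy]
        · simp
      have h2 := hfu _ h1
      rw [map_zero] at hf0
      linarith
    let c : Fin n → D → ℝ := fun i t => f (Pi.single i (Pi.single t 1))
    have hfc : ∀ g : Fin n → D → ℝ, f g = ∑ i, ∑ t, g i t * c i t := by
      intro g
      have h1 : g = ∑ i, ∑ t, g i t • (Pi.single i (Pi.single t 1) : Fin n → D → ℝ) := by
        ext i t
        simp only [Finset.sum_apply, Pi.smul_apply, smul_eq_mul]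
        rw [Finset.sum_eq_single i]
        · rw [Finset.sum_eq_single t]
          · simp
          · intro s _ hs
            simp [Pi.single_eq_same, Pi.single_eq_of_ne hs.symm]
          · simp
        · intro j _ hj
          simp [Pi.single_eq_of_ne hj.symm]
        · simp
      conv_lhs => rw [h1]
      simp only [map_sum, map_smul, smul_eq_mul, c]
    refine ⟨fun i t => if ht : t ∈ D then c i ⟨t, ht⟩ - (1 / (n : ℝ)) * ∑ j, c j ⟨t, ht⟩ else 0,
      ?_, ?_⟩
    · intro t
      by_cases ht : t ∈ D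
      · simp only [ht, dif_pos, Finset.sum_sub_distrib, Finset.sum_const, Finset.card_univ,
          Fintype.card_fin, nsmul_eq_mul]
        field_simp
        ring
      · simp [ht]
    · intro x hx
      have h1 := hfpos x hx
      rw [hfc] at h1
      have h2 : ∑ i, (if ht : x i ∈ D then c i ⟨x i, ht⟩ -
          (1 / (n : ℝ)) * ∑ j, c j ⟨x i, ht⟩ else 0) = ∑ i, ∑ t, φ x i t * c i t := by
        have e1 : ∀ i, (if ht : x i ∈ D then c i ⟨x i, ht⟩ -
          (1 / (n : ℝ)) * ∑ j, c j ⟨x i, ht⟩ else 0) = c i ⟨x i, hD x hx i⟩ -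
          (1 / (n : ℝ)) * ∑ j, c j ⟨x i, hD x hx i⟩ := by
          intro i; simp [hD x hx i]
        simp_rw [e1]
        have e2 : ∀ (i j : Fin n), ∑ t : D, (if x i = (t : T) then (1 : ℝ) else 0) * c j t =
            c j ⟨x i, hD x hx i⟩ := by
          intro i j
          rw [Finset.sum_eq_single ⟨x i, hD x hx i⟩]
          · simp
          · rintro ⟨t, ht⟩ _ hne
            have : x i ≠ t := fun h => hne (by simp [h])
            simp [this]
          · simp
        have e3 : ∀ i, ∑ t, φ x i t * c i t = c i ⟨x i, hD x hx i⟩ -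
            (1 / (n : ℝ)) * ∑ j, c i ⟨x j, hD x hx j⟩ := by
          intro i
          simp only [φ, sub_mul, Finset.sum_sub_distrib]
          rw [e2]
          congr 1
          simp_rw [← e2 _ i]
          rw [Finset.sum_comm, Finset.mul_sum]
          apply Finset.sum_congr rfl
          intro t _
          rw [mul_assoc, Finset.sum_mul]
        simp_rw [e3]
        rw [Finset.sum_sub_distrib, Finset.sum_sub_distrib, ← Finset.mul_sum, ← Finset.mul_sum]
        congr 2
        exact Finset.sum_comm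
      rw [h2]
      exact h1

/-- A `ℚ`-linear functional on `ℝ` positive on finitely many given positive reals. -/
theorem exists_pos_functional (Y : Finset ℝ) (hY : ∀ y ∈ Y, 0 < y) :
    ∃ ψ : ℝ →ₗ[ℚ] ℚ, ∀ y ∈ Y, 0 < ψ y := by
  classical
  let b := Module.Basis.ofVectorSpace ℚ ℝ
  let C : ℝ → ℝ := fun y => ∑ k ∈ (b.repr y).support, |((b.repr y k : ℚ) : ℝ)|
  have hη : ∃ η : ℝ, 0 < η ∧ ∀ y ∈ Y, η * C y < y := by
    have h1 : ∀ᶠ η in nhdsWithin (0 : ℝ) (Set.Ioi 0), ∀ y ∈ Y, η * C y < y := by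
      rw [Filter.eventually_all_finset]
      intro y hy
      have hc : Filter.Tendsto (fun η : ℝ => η * C y) (nhdsWithin (0 : ℝ) (Set.Ioi 0))
          (nhds (0 * C y)) :=
        (Filter.Tendsto.mul_const _ (Filter.tendsto_id.mono_left nhdsWithin_le_nhds))
      rw [zero_mul] at hc
      exact hc.eventually (gt_mem_nhds (hY y hy))
    obtain ⟨η, hη, hη0⟩ := (h1.and self_mem_nhdsWithin).exists
    exact ⟨η, hη0, hη⟩
  obtain ⟨η, hη0, hη⟩ := hη
  have hr : ∀ k, ∃ r : ℚ, |((r : ℚ) : ℝ) - b k| < η := by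
    intro k
    obtain ⟨r, hr1, hr2⟩ := exists_rat_btwn (show b k - η < b k + η by linarith)
    exact ⟨r, by rw [abs_lt]; constructor <;> linarith⟩
  choose r hr using hr
  refine ⟨b.constr ℚ r, ?_⟩
  intro y hy
  have h1 : (b.constr ℚ r) y = ∑ k ∈ (b.repr y).support, b.repr y k * r k := by
    rw [Module.Basis.constr_apply]
    rfl
  have h2 : y = ∑ k ∈ (b.repr y).support, ((b.repr y k : ℚ) : ℝ) * b k := by
    conv_lhs => rw [← b.linearCombination_repr y]
    rw [Finsupp.linearCombination_apply, Finsupp.sum]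
    apply Finset.sum_congr rfl
    intro k _
    rw [Rat.smul_def]
  have h3 : |(((b.constr ℚ r) y : ℚ) : ℝ) - y| ≤ η * C y := by
    have this : (((b.constr ℚ r) y : ℚ) : ℝ) - y =
        ∑ k ∈ (b.repr y).support, ((b.repr y k : ℚ) : ℝ) * (((r k : ℚ) : ℝ) - b k) := by
      rw [h1]
      push_cast
      simp only [mul_sub, Finset.sum_sub_distrib]
      rw [← h2]
    rw [this]
    refine (Finset.abs_sum_le_sum_abs _ _).trans ?_
    simp only [C]
    rw [Finset.mul_sum]
    apply Finset.sum_le_sum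
    intro k _
    rw [abs_mul, mul_comm]
    exact mul_le_mul_of_nonneg_right (hr k).le (abs_nonneg _)
  have h4 := hη y hy
  have h5 := (abs_le.mp h3).1
  have h6 : (0 : ℝ) < (((b.constr ℚ r) y : ℚ) : ℝ) := by linarith
  exact_mod_cast h6

/-- Two functions with equal fibre cardinalities differ by a permutation. -/
theorem exists_perm_of_card_fiber {Ω : Type*} [Fintype Ω] {T : Type*} [DecidableEq T]
    (c c' : Ω → T) (h : ∀ t, Fintype.card {ω // c ω = t} = Fintype.card {ω // c' ω = t}) :
    ∃ p : Equiv.Perm Ω, ∀ ω, c' (p ω) = c ω := by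
  classical
  let e : ∀ t, {ω // c ω = t} ≃ {ω // c' ω = t} := fun t => Fintype.equivOfCardEq (h t)
  refine ⟨(Equiv.sigmaFiberEquiv c).symm.trans
    ((Equiv.sigmaCongrRight e).trans (Equiv.sigmaFiberEquiv c')), ?_⟩
  intro ω
  simp only [Equiv.trans_apply]
  exact (e (c ω) ⟨ω, rfl⟩).2

/-- From a real solution to permutations. -/
theorem real_to_perm {n : ℕ} (hn : 0 < n) {T : Type*} [DecidableEq T]
    (X : Finset (Fin n → T)) (w : (Fin n → T) → ℝ) (hw0 : ∀ x ∈ X, 0 ≤ w x)
    (hwp : ∃ x ∈ X, 0 < w x)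
    (hm : ∀ i j t, ∑ x ∈ X with x i = t, w x = ∑ x ∈ X with x j = t, w x) :
    ∃ (M : ℕ) (x : Fin M → (Fin n → T)) (p : Fin n → Equiv.Perm (Fin M)), 0 < M ∧
      (∀ k, x k ∈ X) ∧ ∀ i k, x k i = x (p i k) ⟨0, hn⟩ := by
  classical
  -- rational weights
  let Y : Finset ℝ := (X.image w).filter (fun y => 0 < y)
  obtain ⟨ψ, hψ⟩ := exists_pos_functional Y (fun y hy => (Finset.mem_filter.mp hy).2)
  have hq0 : ∀ x ∈ X, 0 ≤ ψ (w x) := by
    intro x hx
    rcases (hw0 x hx).eq_or_lt with h | h
    · rw [← h, map_zero]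
    · exact (hψ _ (Finset.mem_filter.mpr ⟨Finset.mem_image_of_mem w hx, h⟩)).le
  have hqp : ∃ x ∈ X, 0 < ψ (w x) := by
    obtain ⟨x, hx, h⟩ := hwp
    exact ⟨x, hx, hψ _ (Finset.mem_filter.mpr ⟨Finset.mem_image_of_mem w hx, h⟩)⟩
  have hqm : ∀ i j t, ∑ x ∈ X with x i = t, ψ (w x) = ∑ x ∈ X with x j = t, ψ (w x) := by
    intro i j t
    rw [← map_sum, ← map_sum, hm i j t]
  -- integer weights
  let D : ℕ := ∏ x ∈ X, (ψ (w x)).den
  have hDpos : 0 < D := Finset.prod_pos (fun x _ => (ψ (w x)).den_pos)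
  have hN : ∀ x ∈ X, ∃ N : ℕ, (N : ℚ) = ψ (w x) * D := by
    intro x hx
    obtain ⟨m, hm⟩ : (ψ (w x)).den ∣ D := Finset.dvd_prod_of_mem _ hx
    have h1 : ψ (w x) * D = ((ψ (w x)).num * m : ℤ) := by
      rw [hm]
      push_cast
      rw [← mul_assoc, Rat.mul_den_eq_num]
    have h2 : (0 : ℚ) ≤ ((ψ (w x)).num * m : ℤ) := by
      rw [← h1]
      exact mul_nonneg (hq0 x hx) (by positivity)
    have h3 : 0 ≤ (ψ (w x)).num * m := by exact_mod_cast h2
    refine ⟨((ψ (w x)).num * m).toNat, ?_⟩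
    rw [h1]
    have := Int.toNat_of_nonneg h3
    exact_mod_cast congrArg (fun z : ℤ => (z : ℚ)) this
  choose! N hN using hN
  have hNm : ∀ i j t, ∑ x ∈ X with x i = t, N x = ∑ x ∈ X with x j = t, N x := by
    intro i j t
    have h1 : ∀ i, ((∑ x ∈ X with x i = t, N x : ℕ) : ℚ) =
        (∑ x ∈ X with x i = t, ψ (w x)) * D := by
      intro i
      push_cast
      rw [Finset.sum_mul]
      apply Finset.sum_congr rfl
      intro x hx
      exact hN x (Finset.mem_filter.mp hx).1
    have h2 : ((∑ x ∈ X with x i = t, N x : ℕ) : ℚ) = ((∑ x ∈ X with x j = t, N x : ℕ) : ℚ) := by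
      rw [h1, h1, hqm i j t]
    exact_mod_cast h2
  have hNp : ∃ x ∈ X, 0 < N x := by
    obtain ⟨x, hx, h⟩ := hqp
    refine ⟨x, hx, ?_⟩
    have h1 : (0 : ℚ) < N x := by
      rw [hN x hx]
      have : (0 : ℚ) < D := by exact_mod_cast hDpos
      positivity
    exact_mod_cast h1
  -- the index type
  let Ω := Σ x : X, Fin (N (x : Fin n → T))
  let c : Fin n → Ω → T := fun i ω => (ω.1 : Fin n → T) i
  have hcard : ∀ i t, Fintype.card {ω : Ω // c i ω = t} = ∑ x ∈ X with x i = t, N x := by
    intro i t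
    have h1 : Fintype.card {ω : Ω // c i ω = t} =
        ((Finset.univ : Finset Ω).filter (fun ω => c i ω = t)).card := by
      rw [Fintype.card_subtype]
    rw [h1]
    have h2 : ((Finset.univ : Finset Ω).filter (fun ω => c i ω = t)).card =
        ∑ ω : Ω, if c i ω = t then 1 else 0 := by
      rw [Finset.card_filter]
    rw [h2, Fintype.sum_sigma, Finset.sum_filter, ← Finset.sum_coe_sort X]
    apply Finset.sum_congr rfl
    intro x _
    simp only [c]
    by_cases h : (x : Fin n → T) i = t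
    · simp [h]
    · simp [h]
  have hperm : ∀ i, ∃ p : Equiv.Perm Ω, ∀ ω, c ⟨0, hn⟩ (p ω) = c i ω := by
    intro i
    apply exists_perm_of_card_fiber
    intro t
    rw [hcard, hcard]
    exact hNm _ _ _
  choose p hp using hperm
  let e := Fintype.equivFin Ω
  refine ⟨Fintype.card Ω, fun k => ((e.symm k).1 : Fin n → T),
    fun i => (e.symm.trans (p i)).trans e, ?_, ?_, ?_⟩
  · obtain ⟨x, hx, h⟩ := hNp
    rw [Fintype.card_pos_iff]
    exact ⟨⟨⟨x, hx⟩, ⟨0, h⟩⟩⟩
  · intro k
    exact (e.symm k).1.2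
  · intro i k
    simp only [Equiv.trans_apply, Equiv.symm_apply_apply]
    exact (hp i (e.symm k)).symm

end

end Pool.Agent.U578.Smyth
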