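import Mathlib

set_option autoImplicit false

namespace Pool.Agent.U578.Smyth

noncomputable section

open Finset

/-- A commutative ring embedded as a full lattice in a finite product of copies of `ℂ`. -/
structure Emb (R W ι : Type) [CommRing R] [Fintype W] [Fintype ι] where
  σ : W → R →+* ℂ
  e : Module.Basis ι ℤ R
  inj : ∀ w, Function.Injective (σ w)
  ne : Nonempty W
  li : LinearIndependent ℝ (fun k : ι => (fun w => σ w (e k) : W → ℂ))
  sp : ⊤ ≤ Submodule.span ℝ (Set.range (fun k : ι => (fun w => σ w (e k) : W → ℂ)))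

variable {R W ι : Type} [CommRing R] [Fintype W] [Fintype ι]

namespace Emb

variable (D : Emb R W ι)

/-- The embedding. -/
def S (r : R) : W → ℂ := fun w => D.σ w r

theorem S_apply (r : R) (w : W) : D.S r w = D.σ w r := rfl

theorem S_add (r s : R) : D.S (r + s) = D.S r + D.S s := by ext w; simp [S]

theorem S_sub (r s : R) : D.S (r - s) = D.S r - D.S s := by ext w; simp [S]

theorem S_zero : D.S 0 = 0 := by ext w; simp [S]

theorem S_inj : Function.Injective D.S := by
  intro r s h
  obtain ⟨w⟩ := D.ne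
  exact D.inj w (congrFun h w)

/-- The additive embedding as a `ℤ`-linear map. -/
def SL : R →ₗ[ℤ] (W → ℂ) :=
  (AddMonoidHom.mk' D.S (fun r s => D.S_add r s)).toIntLinearMap

theorem SL_apply (r : R) : D.SL r = D.S r := rfl

/-- The embedding of vectors. -/
def Sn {n : ℕ} : (Fin n → R) →ₗ[ℤ] (Fin n → W → ℂ) :=
  LinearMap.pi (fun i => D.SL.comp (LinearMap.proj i))

theorem Sn_apply {n : ℕ} (x : Fin n → R) (i : Fin n) : D.Sn x i = D.S (x i) := rfl

theorem Sn_inj {n : ℕ} : Function.Injective (D.Sn (n := n)) := by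
  intro x y h
  ext i
  exact D.S_inj (congrFun h i)

/-- The real basis. -/
def b : Module.Basis ι ℝ (W → ℂ) := Module.Basis.mk D.li D.sp

theorem b_apply (k : ι) : D.b k = D.S (D.e k) := by
  rw [b, Module.Basis.mk_apply]; rfl

theorem S_eq (r : R) : D.S r = ∑ k, (D.e.repr r k) • D.S (D.e k) := by
  conv_lhs => rw [← D.e.sum_repr r]
  rw [← SL_apply, map_sum]
  simp only [map_smul, SL_apply]

theorem S_mem (r : R) : D.S r ∈ Submodule.span ℤ (Set.range D.b) := by
  rw [D.S_eq r]
  apply Submodule.sum_mem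
  intro k _
  apply Submodule.smul_mem
  rw [← b_apply]
  exact Submodule.subset_span ⟨k, rfl⟩

theorem finite_ball (N : ℝ) : {r : R | ‖D.S r‖ ≤ N}.Finite := by
  have h1 : (Metric.closedBall (0 : W → ℂ) N ∩ Submodule.span ℤ (Set.range D.b)).Finite :=
    ZSpan.setFinite_inter D.b Metric.isBounded_closedBall
  refine (h1.preimage (f := D.S) D.S_inj.injOn).subset ?_
  intro r hr
  refine ⟨?_, D.S_mem r⟩
  simpa using hr

/-- The real basis of the vector space of vectors. -/
def bn (n : ℕ) : Module.Basis (Σ _ : Fin n, ι) ℝ (Fin n → W → ℂ) :=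
  Pi.basis (fun _ => D.b)

theorem Sn_mem {n : ℕ} (x : Fin n → R) :
    D.Sn x ∈ Submodule.span ℤ (Set.range (D.bn n)) := by
  classical
  have h1 : D.Sn x = ∑ i, Pi.single i (D.S (x i)) := by
    rw [Finset.univ_sum_single]
    rfl
  rw [h1]
  apply Submodule.sum_mem
  intro i _
  have h2 : (Pi.single i (D.S (x i)) : Fin n → W → ℂ) =
      (LinearMap.single ℤ (fun _ : Fin n => W → ℂ) i) (D.S (x i)) := rfl
  rw [h2]
  have h3 := Submodule.mem_map_of_mem (f := LinearMap.single ℤ (fun _ : Fin n => W → ℂ) i)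
    (D.S_mem (x i))
  rw [Submodule.map_span] at h3
  refine (Submodule.span_le.mpr ?_) h3
  rintro _ ⟨_, ⟨k, rfl⟩, rfl⟩
  apply Submodule.subset_span
  refine ⟨⟨i, k⟩, ?_⟩
  simp [bn, Pi.basis_apply]

theorem discrete_span {n : ℕ} {κ : Type*} (β : κ → (Fin n → R)) :
    DiscreteTopology (Submodule.span ℤ (Set.range (fun k => D.Sn (β k)))) := by
  have h1 : DiscreteTopology (Submodule.span ℤ (Set.range (D.bn n))) := inferInstance
  refine DiscreteTopology.of_subset (s := (Submodule.span ℤ (Set.range (D.bn n)) :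
    Set (Fin n → W → ℂ))) h1 ?_
  have : Submodule.span ℤ (Set.range (fun k => D.Sn (β k))) ≤
      Submodule.span ℤ (Set.range (D.bn n)) := by
    rw [Submodule.span_le]
    rintro _ ⟨k, rfl⟩
    exact D.Sn_mem (β k)
  exact this

theorem li_real {n : ℕ} {κ : Type*} [Fintype κ] (β : κ → (Fin n → R))
    (hβ : LinearIndependent ℤ β) : LinearIndependent ℝ (fun k => D.Sn (β k)) := by
  rw [linearIndependent_iff_card_eq_finrank_span]
  have h1 := Real.finrank_eq_int_finrank_of_discrete (D.discrete_span β)
  rw [h1]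
  have h2 : LinearIndependent ℤ (fun k => D.Sn (β k)) :=
    hβ.map' D.Sn (LinearMap.ker_eq_bot.mpr D.Sn_inj)
  rw [Set.finrank, finrank_span_eq_card h2]

/-- The kernel lattice. -/
def Lam {n : ℕ} (a : Fin n → R) (i : Fin n) : Submodule ℤ (Fin n → R) where
  carrier := {x | ∑ j, a j * x j = 0 ∧ x i = 0}
  add_mem' := by
    rintro x y ⟨hx, hx'⟩ ⟨hy, hy'⟩
    refine ⟨?_, by simp [hx', hy']⟩
    simp only [Pi.add_apply, mul_add, Finset.sum_add_distrib, hx, hy, add_zero]
  zero_mem' := by simp
  smul_mem' := by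
    rintro c x ⟨hx, hx'⟩
    refine ⟨?_, by simp [hx']⟩
    have : ∑ j, a j * (c • x) j = c • ∑ j, a j * x j := by
      rw [Finset.smul_sum]
      apply Finset.sum_congr rfl
      intro j _
      simp only [Pi.smul_apply, mul_smul_comm]
    rw [this, hx, smul_zero]

theorem mem_Lam {n : ℕ} {a : Fin n → R} {i : Fin n} {x : Fin n → R} :
    x ∈ Lam a i ↔ ∑ j, a j * x j = 0 ∧ x i = 0 := Iff.rfl

theorem span_kernel {n : ℕ} (a : Fin n → R) (i j0 : Fin n) (hj : j0 ≠ i) (ha : a j0 ≠ 0)
    (z : Fin n → W → ℂ) (hz : ∀ w, ∑ j, D.σ w (a j) * z j w = 0) (hzi : z i = 0) :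
    z ∈ Submodule.span ℝ (D.Sn '' (Lam a i : Set (Fin n → R))) := by
  classical
  have hane : ∀ w, D.σ w (a j0) ≠ 0 := fun w h => ha (D.inj w (by rw [h, map_zero]))
  -- the map T_j
  let T : Fin n → (W → ℂ) →ₗ[ℝ] (Fin n → W → ℂ) := fun j =>
    { toFun := fun v k w => if k = j then v w * D.σ w (a j0) else
        if k = j0 then -(v w * D.σ w (a j)) else 0
      map_add' := by
        intro v v'
        ext k w
        simp only [Pi.add_apply]
        split_ifs <;> ring
      map_smul' := by
        intro c v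
        ext k w
        simp only [Pi.smul_apply, RingHom.id_apply, Complex.real_smul]
        split_ifs
        · ring
        · ring
        · simp }
  have hT : ∀ j, j ≠ i → j ≠ j0 → ∀ v : W → ℂ,
      T j v ∈ Submodule.span ℝ (D.Sn '' (Lam a i : Set (Fin n → R))) := by
    intro j hji hjj v
    have hv : v ∈ Submodule.span ℝ (Set.range (fun k : ι => (fun w => D.σ w (D.e k) : W → ℂ))) :=
      D.sp Submodule.mem_top
    have h1 : T j v ∈ (Submodule.span ℝ (Set.range
        (fun k : ι => (fun w => D.σ w (D.e k) : W → ℂ)))).map (T j) :=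
      Submodule.mem_map_of_mem hv
    rw [Submodule.map_span] at h1
    refine (Submodule.span_le.mpr ?_) h1
    rintro _ ⟨_, ⟨k, rfl⟩, rfl⟩
    apply Submodule.subset_span
    refine ⟨fun l => if l = j then D.e k * a j0 else if l = j0 then -(D.e k * a j) else 0,
      ⟨?_, ?_⟩, ?_⟩
    · rw [Finset.sum_eq_add j j0 hjj]
      · simp only [if_true, if_neg hjj.symm]
        ring
      · intro l _ hl
        simp [hl.1, hl.2]
      · simp
      · simp
    · simp [hji.symm, hj.symm]
    · ext l w
      simp only [Sn_apply, S_apply]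
      show D.σ w (if l = j then D.e k * a j0 else if l = j0 then -(D.e k * a j) else 0) =
        (if l = j then D.σ w (D.e k) * D.σ w (a j0) else
        if l = j0 then -(D.σ w (D.e k) * D.σ w (a j)) else 0)
      split_ifs <;> simp
  have hdecomp : z = ∑ j ∈ (univ.erase i).erase j0, T j (fun w => z j w / D.σ w (a j0)) := by
    ext k w
    rw [Finset.sum_apply, Finset.sum_apply]
    have hTa : ∀ j, (T j (fun w => z j w / D.σ w (a j0))) k w =
        if k = j then z j w else if k = j0 then -(z j w / D.σ w (a j0) * D.σ w (a j)) else 0 := by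
      intro j
      show (if k = j then z j w / D.σ w (a j0) * D.σ w (a j0) else
        if k = j0 then -(z j w / D.σ w (a j0) * D.σ w (a j)) else 0) = _
      rw [div_mul_cancel₀ _ (hane w)]
    simp_rw [hTa]
    by_cases hki : k = i
    · subst hki
      rw [hzi]
      symm
      apply Finset.sum_eq_zero
      intro j hj'
      have h1 : j ≠ k := Finset.ne_of_mem_erase (Finset.mem_of_mem_erase hj')
      simp [h1.symm, hj.symm]
    · by_cases hkj : k = j0
      · subst hkj
        have h1 : ∑ j ∈ (univ.erase i).erase k, (if k = j then z j w else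
            if k = k then -(z j w / D.σ w (a k) * D.σ w (a j)) else 0) =
            -(∑ j ∈ (univ.erase i).erase k, D.σ w (a j) * z j w) / D.σ w (a k) := by
          rw [neg_div, Finset.sum_div, ← Finset.sum_neg_distrib]
          apply Finset.sum_congr rfl
          intro j hj'
          have : j ≠ k := Finset.ne_of_mem_erase hj'
          rw [if_neg this.symm, if_pos rfl]
          ring
        rw [h1]
        have h2 := hz w
        rw [← Finset.add_sum_erase _ _ (mem_univ i), hzi] at h2
        rw [← Finset.add_sum_erase _ _ (Finset.mem_erase.mpr ⟨hj, mem_univ k⟩)] at h2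
        have h3 : ∑ j ∈ (univ.erase i).erase k, D.σ w (a j) * z j w = -(D.σ w (a k) * z k w) := by
          simp only [Pi.zero_apply, mul_zero, zero_add] at h2
          linear_combination h2
        rw [h3, neg_neg]
        field_simp [hane w]
      · rw [Finset.sum_eq_single k]
        · simp
        · intro j _ hjk
          simp [hjk.symm, hkj]
        · intro hk
          exact absurd (Finset.mem_erase.mpr ⟨hkj, Finset.mem_erase.mpr ⟨hki, mem_univ k⟩⟩) hk
  rw [hdecomp]
  apply Submodule.sum_mem
  intro j hj'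
  exact hT j (Finset.ne_of_mem_erase (Finset.mem_of_mem_erase hj'))
    (Finset.ne_of_mem_erase hj') _

/-- A lattice basis of the kernel lattice. -/
theorem exists_basis {n : ℕ} (a : Fin n → R) (i j0 : Fin n) (hj : j0 ≠ i) (ha : a j0 ≠ 0) :
    ∃ (m : ℕ) (β : Fin m → (Fin n → R)) (E : (Fin m → ℤ) ≃ Lam a i),
      (∀ c, ((E c : Lam a i) : Fin n → R) = ∑ k, c k • β k) ∧
      LinearIndependent ℝ (fun k => D.Sn (β k)) ∧
      ∀ z : Fin n → W → ℂ, (∀ w, ∑ j, D.σ w (a j) * z j w = 0) → z i = 0 →
        z ∈ Submodule.span ℝ (Set.range (fun k => D.Sn (β k))) := by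
  classical
  have : Module.Free ℤ R := Module.Free.of_basis D.e
  have : Module.Finite ℤ R := Module.Finite.of_basis D.e
  let B := Module.finBasis ℤ (Lam a i)
  refine ⟨_, fun k => (B k : Fin n → R), B.equivFun.symm.toEquiv, ?_, ?_, ?_⟩
  · intro c
    show ((B.equivFun.symm c : Lam a i) : Fin n → R) = _
    rw [Module.Basis.equivFun_symm_apply]
    simp
  · apply D.li_real
    exact B.linearIndependent.map' (Lam a i).subtype (Submodule.ker_subtype _)
  · intro z hz hzi
    have h1 := D.span_kernel a i j0 hj ha z hz hzi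
    refine (Submodule.span_le.mpr ?_) h1
    rintro _ ⟨x, hx, rfl⟩
    have h2 : x = ∑ k, (B.repr ⟨x, hx⟩ k) • (B k : Fin n → R) := by
      have h3 := congrArg (Lam a i).subtype (B.sum_repr ⟨x, hx⟩)
      rw [map_sum] at h3
      simp only [map_smul, Submodule.subtype_apply] at h3
      exact h3.symm
    have h4 : D.Sn x = ∑ k, ((B.repr ⟨x, hx⟩ k : ℤ) : ℝ) • D.Sn (B k : Fin n → R) := by
      conv_lhs => rw [h2]
      rw [map_sum]
      apply Finset.sum_congr rfl
      intro k _
      rw [map_smul, Int.cast_smul_eq_zsmul]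
    rw [h4]
    apply Submodule.sum_mem
    intro k _
    exact Submodule.smul_mem _ _ (Submodule.subset_span ⟨k, rfl⟩)

end Emb

end

end Pool.Agent.U578.Smyth
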