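import Mathlib

set_option autoImplicit false

namespace Pool.Agent.U578.Smyth

noncomputable section

open Finset

/-- Greedy choice of signs. -/
theorem greedy_signs {ι : Type*} [DecidableEq ι] (ℓ : ι → ℝ) (m : ℝ) (h0 : ∀ i, 0 ≤ ℓ i)
    (hm0 : 0 ≤ m) (s : Finset ι) (hm : ∀ i ∈ s, ℓ i ≤ m) :
    ∃ ε : ι → ℝ, (∀ i, ε i = 1 ∨ ε i = -1) ∧ |∑ i ∈ s, ε i * ℓ i| ≤ m := by
  induction s using Finset.induction_on with
  | empty => exact ⟨fun _ => 1, fun _ => Or.inl rfl, by simpa using hm0⟩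
  | insert a s ha ih =>
    obtain ⟨ε, hε, hb⟩ := ih (fun i hi => hm i (Finset.mem_insert_of_mem hi))
    have ham := hm a (Finset.mem_insert_self _ _)
    have ha0 := h0 a
    have hsum : ∀ c : ℝ, ∑ i ∈ insert a s, (Function.update ε a c) i * ℓ i =
        c * ℓ a + ∑ i ∈ s, ε i * ℓ i := by
      intro c
      rw [Finset.sum_insert ha]
      congr 1
      · simp
      · apply Finset.sum_congr rfl
        intro i hi
        have : i ≠ a := fun h => ha (h ▸ hi)
        rw [Function.update_of_ne this]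
    rcases le_total 0 (∑ i ∈ s, ε i * ℓ i) with h | h
    · refine ⟨Function.update ε a (-1), ?_, ?_⟩
      · intro i
        by_cases hi : i = a
        · subst hi; simp
        · rw [Function.update_of_ne hi]; exact hε i
      · rw [hsum, abs_le]
        rw [abs_of_nonneg h] at hb
        constructor <;> linarith
    · refine ⟨Function.update ε a 1, ?_, ?_⟩
      · intro i
        by_cases hi : i = a
        · subst hi; simp
        · rw [Function.update_of_ne hi]; exact hε i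
      · rw [hsum, abs_le]
        rw [abs_of_nonpos h] at hb
        constructor <;> linarith

/-- The polygon lemma. -/
theorem polygon {n : ℕ} (ℓ : Fin n → ℝ) (h0 : ∀ i, 0 ≤ ℓ i)
    (h : ∀ i, ℓ i ≤ ∑ j ∈ univ.erase i, ℓ j) :
    ∃ u : Fin n → ℂ, (∀ i, ‖u i‖ = 1) ∧ ∑ i, (ℓ i : ℂ) * u i = 0 := by
  classical
  rcases Nat.eq_zero_or_pos n with hn | hn
  · subst hn
    exact ⟨fun _ => 1, fun i => i.elim0, by simp⟩
  have : Nonempty (Fin n) := ⟨⟨0, hn⟩⟩
  obtain ⟨i0, _, hi0⟩ := Finset.exists_max_image (univ : Finset (Fin n)) ℓ univ_nonempty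
  obtain ⟨ε, hε, hb⟩ := greedy_signs ℓ (ℓ i0) h0 (h0 i0) (univ.erase i0)
    (fun i _ => hi0 i (mem_univ i))
  let Φ : (Fin n → ℝ) → ℝ := fun θ =>
    ‖∑ j ∈ univ.erase i0, (ℓ j : ℂ) * Complex.exp (θ j * Complex.I)‖
  have hΦc : Continuous Φ := by
    simp only [Φ]
    fun_prop
  have h1 : ∃ θ, Φ θ ≤ ℓ i0 := by
    refine ⟨fun j => if ε j = 1 then 0 else Real.pi, ?_⟩
    have : ∑ j ∈ univ.erase i0, (ℓ j : ℂ) * Complex.exp
        (((if ε j = 1 then 0 else Real.pi : ℝ) : ℂ) * Complex.I) =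
        ((∑ j ∈ univ.erase i0, ε j * ℓ j : ℝ) : ℂ) := by
      push_cast
      apply Finset.sum_congr rfl
      intro j _
      rcases hε j with h1 | h1
      · simp [h1]
      · have : ¬ (ε j = 1) := by rw [h1]; norm_num
        rw [if_neg this, h1, Complex.exp_pi_mul_I]
        push_cast; ring
    simp only [Φ]
    rw [this, Complex.norm_real, Real.norm_eq_abs]
    exact hb
  have h2 : ∃ θ, ℓ i0 ≤ Φ θ := by
    refine ⟨fun _ => 0, ?_⟩
    have : ∑ j ∈ univ.erase i0, (ℓ j : ℂ) * Complex.exp (((0 : ℝ) : ℂ) * Complex.I) =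
        ((∑ j ∈ univ.erase i0, ℓ j : ℝ) : ℂ) := by
      push_cast; simp
    simp only [Φ]
    rw [this, Complex.norm_real, Real.norm_eq_abs]
    exact (h i0).trans (le_abs_self _)
  obtain ⟨θ, hθ⟩ := mem_range_of_exists_le_of_exists_ge hΦc h1 h2
  rcases (h0 i0).eq_or_lt with hz | hpos
  · refine ⟨fun _ => 1, fun _ => by simp, ?_⟩
    apply Finset.sum_eq_zero
    intro i _
    have : ℓ i = 0 := le_antisymm (by rw [hz]; exact hi0 i (mem_univ i)) (h0 i)
    simp [this]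
  · let s : ℂ := ∑ j ∈ univ.erase i0, (ℓ j : ℂ) * Complex.exp (θ j * Complex.I)
    have hs : ‖s‖ = ℓ i0 := hθ
    have hne : ((ℓ i0 : ℝ) : ℂ) ≠ 0 := by exact_mod_cast hpos.ne'
    refine ⟨fun j => if j = i0 then -s / ℓ i0 else Complex.exp (θ j * Complex.I), ?_, ?_⟩
    · intro i
      by_cases hi : i = i0
      · simp only [hi, if_true, norm_div, norm_neg, hs, Complex.norm_real, Real.norm_eq_abs,
          abs_of_pos hpos]
        exact div_self hpos.ne'
      · simp only [hi, if_false]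
        exact Complex.norm_exp_ofReal_mul_I _
    · rw [← Finset.add_sum_erase _ _ (mem_univ i0)]
      have : ∑ x ∈ univ.erase i0, (ℓ x : ℂ) *
          (if x = i0 then -s / ℓ i0 else Complex.exp (θ x * Complex.I)) = s := by
        apply Finset.sum_congr rfl
        intro j hj
        rw [if_neg (Finset.ne_of_mem_erase hj)]
      beta_reduce
      rw [this, if_pos rfl]
      field_simp
      ring

/-- Closed polygons with prescribed moduli of the weighted vectors. -/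
theorem polygon_weighted {n : ℕ} (α : Fin n → ℂ) (r : Fin n → ℝ) (hr : ∀ i, 0 ≤ r i)
    (h : ∀ i, ‖α i‖ * r i ≤ ∑ j ∈ univ.erase i, ‖α j‖ * r j) :
    ∃ ξ : Fin n → ℂ, (∀ i, ‖ξ i‖ = r i) ∧ ∑ i, α i * ξ i = 0 := by
  classical
  obtain ⟨u, hu, hsum⟩ := polygon (fun i => ‖α i‖ * r i)
    (fun i => mul_nonneg (norm_nonneg _) (hr i)) h
  refine ⟨fun i => if α i = 0 then r i * u i else
    r i * u i * ((starRingEnd ℂ) (α i) / ‖α i‖), ?_, ?_⟩
  · intro i
    by_cases hi : α i = 0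
    · simp [hi, hu i, abs_of_nonneg (hr i)]
    · have : ‖α i‖ ≠ 0 := norm_ne_zero_iff.mpr hi
      simp [hi, hu i, abs_of_nonneg (hr i), this]
  · refine Eq.trans (Finset.sum_congr rfl ?_) hsum
    intro i _
    by_cases hi : α i = 0
    · simp [hi]
    · have h1 : ((‖α i‖ : ℝ) : ℂ) ≠ 0 := by exact_mod_cast norm_ne_zero_iff.mpr hi
      have h2 : α i * (starRingEnd ℂ) (α i) = (‖α i‖ : ℂ) ^ 2 := by
        rw [Complex.mul_conj, Complex.normSq_eq_norm_sq]; push_cast; rfl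
      simp only [hi, if_false]
      push_cast
      calc α i * (r i * u i * ((starRingEnd ℂ) (α i) / ‖α i‖)) =
          (α i * (starRingEnd ℂ) (α i)) / ‖α i‖ * (r i * u i) := by ring
        _ = ‖α i‖ * r i * u i := by rw [h2]; field_simp

/-- The complex hermitian form used at one place. -/
def hform {n : ℕ} (δ X : ℝ) (ξ : Fin n → ℂ) (y z : Fin n → ℂ) : ℂ :=
  (1 / (δ : ℂ)) * (∑ j, (starRingEnd ℂ) (y j) * z j -
    (starRingEnd ℂ) (∑ k, (starRingEnd ℂ) (ξ k) * y k) *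
      (∑ k, (starRingEnd ℂ) (ξ k) * z k) / ((δ : ℂ) + (X : ℂ)))

theorem hform_add_right {n : ℕ} (δ X : ℝ) (ξ y z z' : Fin n → ℂ) :
    hform δ X ξ y (z + z') = hform δ X ξ y z + hform δ X ξ y z' := by
  simp only [hform, Pi.add_apply, mul_add, Finset.sum_add_distrib, add_div]
  ring

theorem hform_smul_right {n : ℕ} (δ X : ℝ) (ξ y z : Fin n → ℂ) (c : ℂ) :
    hform δ X ξ y (c • z) = c * hform δ X ξ y z := by
  have h1 : ∑ j, (starRingEnd ℂ) (y j) * (c * z j) = c * ∑ j, (starRingEnd ℂ) (y j) * z j := by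
    rw [Finset.mul_sum]; apply Finset.sum_congr rfl; intro j _; ring
  have h2 : ∑ j, (starRingEnd ℂ) (ξ j) * (c * z j) = c * ∑ j, (starRingEnd ℂ) (ξ j) * z j := by
    rw [Finset.mul_sum]; apply Finset.sum_congr rfl; intro j _; ring
  simp only [hform, Pi.smul_apply, smul_eq_mul, h1, h2]
  ring

theorem hform_conj {n : ℕ} (δ X : ℝ) (ξ y z : Fin n → ℂ) :
    (starRingEnd ℂ) (hform δ X ξ y z) = hform δ X ξ z y := by
  simp only [hform, map_mul, map_sub, map_div₀, map_sum, map_add, Complex.conj_ofReal,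
    Complex.conj_conj, map_one]
  have h1 : ∑ x, y x * (starRingEnd ℂ) (z x) = ∑ x, (starRingEnd ℂ) (z x) * y x := by
    apply Finset.sum_congr rfl; intro j _; ring
  rw [h1]
  ring

theorem hform_self_pos {n : ℕ} (δ X : ℝ) (hδ : 0 < δ) (ξ : Fin n → ℂ)
    (hX : X = ∑ k, ‖ξ k‖ ^ 2) (y : Fin n → ℂ) (hy : y ≠ 0) :
    0 < (hform δ X ξ y y).re := by
  have hX0 : 0 ≤ X := by rw [hX]; positivity
  set Y : ℝ := ∑ j, ‖y j‖ ^ 2 with hY
  have hYpos : 0 < Y := by
    obtain ⟨j, hj⟩ := Function.ne_iff.mp hy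
    have hj' : 0 < ‖y j‖ ^ 2 := by
      have : 0 < ‖y j‖ := norm_pos_iff.mpr hj
      positivity
    exact lt_of_lt_of_le hj' (Finset.single_le_sum (f := fun j => ‖y j‖ ^ 2)
      (fun i _ => by positivity) (Finset.mem_univ j))
  set s : ℂ := ∑ k, (starRingEnd ℂ) (ξ k) * y k with hs
  have h1 : ∑ j, (starRingEnd ℂ) (y j) * y j = ((Y : ℝ) : ℂ) := by
    rw [hY]
    push_cast
    apply Finset.sum_congr rfl
    intro j _
    rw [mul_comm, Complex.mul_conj, Complex.normSq_eq_norm_sq]; push_cast; rfl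
  have h2 : (starRingEnd ℂ) s * s = ((‖s‖ ^ 2 : ℝ) : ℂ) := by
    rw [mul_comm, Complex.mul_conj, Complex.normSq_eq_norm_sq]
  have h3 : hform δ X ξ y y = (((1 / δ) * (Y - ‖s‖ ^ 2 / (δ + X)) : ℝ) : ℂ) := by
    unfold hform
    rw [h1, ← hs, h2]
    push_cast
    ring
  rw [h3, Complex.ofReal_re]
  have hCS : ‖s‖ ^ 2 ≤ X * Y := by
    have h4 : ‖s‖ ≤ ∑ k, ‖ξ k‖ * ‖y k‖ := by
      refine (norm_sum_le _ _).trans (le_of_eq ?_)
      apply Finset.sum_congr rfl
      intro k _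
      rw [norm_mul, RCLike.norm_conj]
    calc ‖s‖ ^ 2 ≤ (∑ k, ‖ξ k‖ * ‖y k‖) ^ 2 := by gcongr
      _ ≤ (∑ k, ‖ξ k‖ ^ 2) * ∑ k, ‖y k‖ ^ 2 := Finset.sum_mul_sq_le_sq_mul_sq _ _ _
      _ = X * Y := by rw [hX]
  have h5 : ‖s‖ ^ 2 / (δ + X) < Y := by
    rw [div_lt_iff₀ (by positivity)]
    nlinarith
  apply mul_pos (by positivity)
  linarith

/-- The quadratic form at one place, together with its dual vectors. -/
theorem place_form {n : ℕ} (hn : 0 < n) (α : Fin n → ℂ)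
    (h : ∀ i, ‖α i‖ < ∑ j ∈ univ.erase i, ‖α j‖) :
    ∃ (B : (Fin n → ℂ) →ₗ[ℝ] (Fin n → ℂ) →ₗ[ℝ] ℝ) (g : Fin n → Fin n → ℂ),
      (∀ x y, B x y = B y x) ∧ (∀ x, x ≠ 0 → 0 < B x x) ∧ (∀ i, g i i = 1) ∧
      (∀ i, ∑ j, α j * g i j = 0) ∧
      (∀ i (c : ℂ), B (c • g i) (c • g i) = ‖c‖ ^ 2) ∧
      (∀ i (c : ℂ) (z : Fin n → ℂ), ∑ j, α j * z j = 0 → z i = 0 → B (c • g i) z = 0) := by
  classical
  have : Nonempty (Fin n) := ⟨⟨0, hn⟩⟩
  -- basic constants
  set A : ℝ := ∑ j, ‖α j‖ ^ 2 with hA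
  have hex : ∃ i, α i ≠ 0 := by
    by_contra hcon
    push Not at hcon
    have := h ⟨0, hn⟩
    simp [hcon] at this
  have hApos : 0 < A := by
    obtain ⟨i, hi⟩ := hex
    have hj' : 0 < ‖α i‖ ^ 2 := by
      have : 0 < ‖α i‖ := norm_pos_iff.mpr hi
      positivity
    exact lt_of_lt_of_le hj' (Finset.single_le_sum (f := fun j => ‖α j‖ ^ 2)
      (fun i _ => by positivity) (Finset.mem_univ i))
  have hSpos : ∀ i, 0 < ∑ j ∈ univ.erase i, ‖α j‖ := fun i =>
    lt_of_le_of_lt (norm_nonneg _) (h i)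
  -- choose δ
  obtain ⟨δ, hδ0, hδ1, hδ⟩ : ∃ δ : ℝ, 0 < δ ∧ δ < 1 ∧
      ∀ i, ‖α i‖ ≤ (1 - δ) * ∑ j ∈ univ.erase i, ‖α j‖ := by
    have h1 : ∀ᶠ δ in nhdsWithin (0 : ℝ) (Set.Ioi 0), ∀ i,
        ‖α i‖ < (1 - δ) * ∑ j ∈ univ.erase i, ‖α j‖ := by
      rw [Filter.eventually_all]
      intro i
      have hc : Filter.Tendsto (fun δ : ℝ => (1 - δ) * ∑ j ∈ univ.erase i, ‖α j‖)
          (nhdsWithin (0 : ℝ) (Set.Ioi 0)) (nhds ((1 - 0) * ∑ j ∈ univ.erase i, ‖α j‖)) := by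
        apply Filter.Tendsto.mono_left _ nhdsWithin_le_nhds
        exact (Continuous.tendsto (by fun_prop) 0)
      rw [sub_zero, one_mul] at hc
      exact hc.eventually (lt_mem_nhds (h i))
    have h2 : ∀ᶠ δ in nhdsWithin (0 : ℝ) (Set.Ioi 0), δ < 1 :=
      (Filter.Tendsto.mono_left Filter.tendsto_id nhdsWithin_le_nhds).eventually
        (gt_mem_nhds one_pos)
    obtain ⟨δ, ⟨hδ, hδ1⟩, hδ0⟩ := ((h1.and h2).and self_mem_nhdsWithin).exists
    exact ⟨δ, hδ0, hδ1, fun i => (hδ i).le⟩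
  -- the radii
  let r : Fin n → ℝ := fun i => √(1 - δ * (1 - ‖α i‖ ^ 2 / A))
  have hfrac : ∀ i, 0 ≤ ‖α i‖ ^ 2 / A ∧ ‖α i‖ ^ 2 / A ≤ 1 := by
    intro i
    refine ⟨by positivity, ?_⟩
    rw [div_le_one hApos]
    exact Finset.single_le_sum (f := fun j => ‖α j‖ ^ 2)
      (fun i _ => by positivity) (Finset.mem_univ i)
  have hin : ∀ i, 0 ≤ 1 - δ * (1 - ‖α i‖ ^ 2 / A) := by
    intro i
    have := hfrac i
    nlinarith
  have hr0 : ∀ i, 0 ≤ r i := fun i => Real.sqrt_nonneg _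
  have hrsq : ∀ i, r i ^ 2 = 1 - δ * (1 - ‖α i‖ ^ 2 / A) := fun i => Real.sq_sqrt (hin i)
  have hr1 : ∀ i, r i ≤ 1 := by
    intro i
    have h1 := hrsq i
    have h2 := hfrac i
    have h3 : r i ^ 2 ≤ 1 := by rw [h1]; nlinarith
    nlinarith [hr0 i]
  have hrδ : ∀ i, 1 - δ ≤ r i := by
    intro i
    have h1 := hrsq i
    have h2 := hfrac i
    have h3 : 1 - δ ≤ r i ^ 2 := by rw [h1]; nlinarith
    nlinarith [hr0 i, hr1 i]
  obtain ⟨ξ, hξn, hξ⟩ := polygon_weighted α r hr0 (by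
    intro i
    calc ‖α i‖ * r i ≤ ‖α i‖ * 1 := by
          exact mul_le_mul_of_nonneg_left (hr1 i) (norm_nonneg _)
      _ ≤ (1 - δ) * ∑ j ∈ univ.erase i, ‖α j‖ := by rw [mul_one]; exact hδ i
      _ = ∑ j ∈ univ.erase i, ‖α j‖ * (1 - δ) := by
          rw [Finset.mul_sum]; apply Finset.sum_congr rfl; intro j _; ring
      _ ≤ ∑ j ∈ univ.erase i, ‖α j‖ * r j := by
          apply Finset.sum_le_sum
          intro j _
          exact mul_le_mul_of_nonneg_left (hrδ j) (norm_nonneg _))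
  set X : ℝ := ∑ k, ‖ξ k‖ ^ 2 with hX
  have hX0 : 0 ≤ X := by positivity
  let g : Fin n → Fin n → ℂ := fun i j => ξ j * (starRingEnd ℂ) (ξ i) +
    δ * ((if j = i then 1 else 0) - (starRingEnd ℂ) (α j) * α i / A)
  have hAne : ((A : ℝ) : ℂ) ≠ 0 := by exact_mod_cast hApos.ne'
  have hδne : ((δ : ℝ) : ℂ) ≠ 0 := by exact_mod_cast hδ0.ne'
  have hδXne : ((δ : ℝ) : ℂ) + ((X : ℝ) : ℂ) ≠ 0 := by
    have : (0 : ℝ) < δ + X := by positivity
    exact_mod_cast this.ne'
  have hnormsq : ∀ z : ℂ, z * (starRingEnd ℂ) z = ((‖z‖ ^ 2 : ℝ) : ℂ) := by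
    intro z
    rw [Complex.mul_conj, Complex.normSq_eq_norm_sq]
  have hgii : ∀ i, g i i = 1 := by
    intro i
    simp only [g, if_true]
    rw [hnormsq, mul_comm ((starRingEnd ℂ) (α i)), hnormsq, hξn, hrsq]
    push_cast
    ring
  have hαα : ∑ j, α j * (starRingEnd ℂ) (α j) = ((A : ℝ) : ℂ) := by
    rw [hA]; push_cast
    apply Finset.sum_congr rfl
    intro j _
    rw [hnormsq]; push_cast; rfl
  have hgH : ∀ i, ∑ j, α j * g i j = 0 := by
    intro i
    have h1 : ∑ j, α j * g i j = (∑ j, α j * ξ j) * (starRingEnd ℂ) (ξ i) +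
        δ * ((∑ j, α j * (if j = i then 1 else 0)) -
          (∑ j, α j * (starRingEnd ℂ) (α j)) * α i / A) := by
      rw [Finset.sum_mul, Finset.sum_mul, Finset.sum_div, ← Finset.sum_sub_distrib,
        Finset.mul_sum, ← Finset.sum_add_distrib]
      apply Finset.sum_congr rfl
      intro j _
      simp only [g]
      ring
    rw [h1, hξ, hαα]
    simp only [mul_ite, mul_one, mul_zero, Finset.sum_ite_eq', Finset.mem_univ, if_true]
    field_simp
    ring
  -- the inner products with g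
  have hξξ : ∑ k, (starRingEnd ℂ) (ξ k) * ξ k = ((X : ℝ) : ℂ) := by
    rw [hX]; push_cast
    apply Finset.sum_congr rfl
    intro j _
    rw [mul_comm, hnormsq]; push_cast; rfl
  have hcross : ∀ i (v : Fin n → ℂ), ∑ k, (starRingEnd ℂ) (v k) * g i k =
      (∑ k, (starRingEnd ℂ) (v k) * ξ k) * (starRingEnd ℂ) (ξ i) +
      δ * ((starRingEnd ℂ) (v i) - (starRingEnd ℂ) (∑ k, α k * v k) * α i / A) := by
    intro i v
    have h1 : (starRingEnd ℂ) (v i) = ∑ k, (starRingEnd ℂ) (v k) * (if k = i then 1 else 0) := by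
      simp
    rw [h1, map_sum, Finset.sum_mul, Finset.sum_mul, Finset.sum_div, ← Finset.sum_sub_distrib,
        Finset.mul_sum, ← Finset.sum_add_distrib]
    apply Finset.sum_congr rfl
    intro j _
    simp only [g, map_mul]
    ring
  have hsg : ∀ i, ∑ k, (starRingEnd ℂ) (ξ k) * g i k = (starRingEnd ℂ) (ξ i) * (δ + X) := by
    intro i
    rw [hcross, hξξ, hξ]
    simp
    ring
  have hkey : ∀ i (c : ℂ) (v : Fin n → ℂ), ∑ j, α j * v j = 0 →
      hform δ X ξ v (c • g i) = c * (starRingEnd ℂ) (v i) := by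
    intro i c v hv
    rw [hform_smul_right]
    congr 1
    unfold hform
    rw [hsg, hcross, hv]
    have h1 : (starRingEnd ℂ) (∑ k, (starRingEnd ℂ) (ξ k) * v k) =
        ∑ k, (starRingEnd ℂ) (v k) * ξ k := by
      rw [map_sum]
      apply Finset.sum_congr rfl
      intro k _
      rw [map_mul, Complex.conj_conj]; ring
    rw [h1]
    simp only [map_zero, zero_mul, zero_div, sub_zero]
    field_simp
    ring
  let B : (Fin n → ℂ) →ₗ[ℝ] (Fin n → ℂ) →ₗ[ℝ] ℝ :=
    LinearMap.mk₂ ℝ (fun y z => (hform δ X ξ z y).re)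
      (fun y y' z => by rw [hform_add_right, Complex.add_re])
      (fun c y z => by
        have : c • y = (c : ℂ) • y := by ext j; simp
        rw [this, hform_smul_right, Complex.re_ofReal_mul, smul_eq_mul])
      (fun y z z' => by
        rw [← Complex.conj_re, hform_conj, hform_add_right, Complex.add_re,
          ← hform_conj _ _ _ z y, ← hform_conj _ _ _ z' y, Complex.conj_re, Complex.conj_re])
      (fun c y z => by
        have : c • z = (c : ℂ) • z := by ext j; simp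
        rw [this, ← Complex.conj_re, hform_conj, hform_smul_right, Complex.re_ofReal_mul,
          ← hform_conj _ _ _ z y, Complex.conj_re, smul_eq_mul])
  have hB : ∀ y z, B y z = (hform δ X ξ z y).re := fun y z => rfl
  refine ⟨B, g, ?_, ?_, hgii, hgH, ?_, ?_⟩
  · intro x y
    rw [hB, hB, ← Complex.conj_re, hform_conj]
  · intro x hx
    rw [hB]
    exact hform_self_pos δ X hδ0 ξ hX x hx
  · intro i c
    rw [hB, hkey i c (c • g i)]
    · simp only [Pi.smul_apply, hgii, smul_eq_mul, mul_one]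
      rw [hnormsq, Complex.ofReal_re]
    · have : ∑ j, α j * (c • g i) j = c * ∑ j, α j * g i j := by
        rw [Finset.mul_sum]; apply Finset.sum_congr rfl; intro j _
        simp only [Pi.smul_apply, smul_eq_mul]; ring
      rw [this, hgH, mul_zero]
  · intro i c z hz hzi
    rw [hB, hkey i c z hz, hzi]
    simp

end

end Pool.Agent.U578.Smyth
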