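import Mathlib

set_option autoImplicit false

namespace Pool.Agent.U578.Smyth

open Real Complex

noncomputable section

/-- Summability of shifted Gaussians over the integers. -/
theorem summable_gauss_shift (c : ℝ) (hc : 0 < c) (s : ℝ) :
    Summable (fun n : ℤ => rexp (-(c * ((n : ℝ) + s) ^ 2))) := by
  have h1 : Summable (fun n : ℤ => jacobiTheta₂_term n (I * (c * s / π : ℝ))
      (I * (c / π : ℝ))) := by
    rw [summable_jacobiTheta₂_term_iff]
    simp only [mul_im, I_re, zero_mul, I_im, one_mul, ofReal_re]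
    simp
    positivity
  have h2 := h1.norm.mul_left (rexp (-(c * s ^ 2)))
  refine h2.congr (fun n => ?_)
  rw [norm_jacobiTheta₂_term, ← Real.exp_add]
  congr 1
  have hpi : (π : ℝ) ≠ 0 := Real.pi_ne_zero
  simp only [mul_im, I_re, zero_mul, I_im, one_mul, ofReal_re, zero_add]
  field_simp
  ring

/-- The one-dimensional uniform theta estimate. -/
theorem theta_aux (a : ℝ) (ha : 0 < a) (s : ℝ) :
    |∑' n : ℤ, rexp (-(π / a * ((n : ℝ) + s) ^ 2)) - √a| ≤
      √a * (2 / (1 - rexp (-(π * a))) * rexp (-(π * a))) := by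
  have hpi : (π : ℝ) ≠ 0 := Real.pi_ne_zero
  have ha' : (0 : ℝ) < ((a : ℂ)).re := by simpa using ha
  have key := Complex.tsum_exp_neg_quadratic ha' (-(I * (s : ℂ)))
  have hane : (a : ℂ) ≠ 0 := by exact_mod_cast ha.ne'
  -- real version of the right-hand side
  have hR : (∑' n : ℤ, cexp (-π / a * (n + I * (-(I * (s : ℂ)))) ^ 2)) =
      ((∑' n : ℤ, rexp (-(π / a * ((n : ℝ) + s) ^ 2)) : ℝ) : ℂ) := by
    rw [ofReal_tsum]
    congr 1
    ext n
    rw [ofReal_exp]
    congr 1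
    push_cast
    have : I * (-(I * (s : ℂ))) = s := by
      rw [mul_neg, ← mul_assoc, I_mul_I]; ring
    rw [this]
    ring
  rw [hR] at key
  have hsq : (a : ℂ) ^ (1 / 2 : ℂ) = ((√a : ℝ) : ℂ) := by
    rw [Real.sqrt_eq_rpow, Complex.ofReal_cpow ha.le]
    norm_num
  rw [hsq] at key
  have hsa : (0 : ℝ) < √a := Real.sqrt_pos.mpr ha
  have hsane : ((√a : ℝ) : ℂ) ≠ 0 := by exact_mod_cast hsa.ne'
  have key2 : ((∑' n : ℤ, rexp (-(π / a * ((n : ℝ) + s) ^ 2)) : ℝ) : ℂ) =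
      (√a : ℝ) * ∑' n : ℤ, cexp (-π * a * n ^ 2 + 2 * π * (-(I * (s : ℂ))) * n) := by
    rw [key]
    field_simp
  -- summability
  have hterm : ∀ n : ℤ, cexp (-π * a * n ^ 2 + 2 * π * (-(I * (s : ℂ))) * n) =
      jacobiTheta₂_term n (-s) (I * a) := by
    intro n
    unfold jacobiTheta₂_term
    congr 1
    have : π * I * (n : ℂ) ^ 2 * (I * a) = -π * a * n ^ 2 := by
      have : π * I * (n : ℂ) ^ 2 * (I * a) = π * (I * I) * n ^ 2 * a := by ring
      rw [this, I_mul_I]; ring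
    rw [this]; ring
  have hterm0 : ∀ n : ℤ, ‖jacobiTheta₂_term n (-s) (I * a)‖ = rexp (-(π * a) * n ^ 2) := by
    intro n
    rw [norm_jacobiTheta₂_term]
    congr 1
    simp
    ring
  have hterm00 : ∀ n : ℤ, jacobiTheta₂_term n 0 (I * a) = ((rexp (-(π * a) * n ^ 2) : ℝ) : ℂ) := by
    intro n
    unfold jacobiTheta₂_term
    push_cast
    congr 1
    have : π * I * (n : ℂ) ^ 2 * (I * a) = π * (I * I) * n ^ 2 * a := by ring
    rw [this, I_mul_I]; ring
  have hs1 : Summable (fun n : ℤ => jacobiTheta₂_term n (-s) (I * a)) := by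
    rw [summable_jacobiTheta₂_term_iff]; simpa using ha
  have hs0 : Summable (fun n : ℤ => jacobiTheta₂_term n 0 (I * a)) := by
    rw [summable_jacobiTheta₂_term_iff]; simpa using ha
  have hsr : Summable (fun n : ℤ => rexp (-(π * a) * n ^ 2)) := by
    exact hs1.norm.congr (fun n => hterm0 n)
  simp_rw [hterm] at key2
  -- split off the zero term
  have hsplit1 : ∑' n : ℤ, jacobiTheta₂_term n (-s) (I * a) =
      1 + ∑' n : ℤ, if n = 0 then 0 else jacobiTheta₂_term n (-s) (I * a) := by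
    have := hs1.tsum_eq_add_tsum_ite 0
    rw [this]
    simp [jacobiTheta₂_term]
  have hsplit0 : ∑' n : ℤ, rexp (-(π * a) * n ^ 2) =
      1 + ∑' n : ℤ, if n = 0 then 0 else rexp (-(π * a) * n ^ 2) := by
    have := hsr.tsum_eq_add_tsum_ite 0
    rw [this]
    simp
  have hsr' : Summable (fun n : ℤ => if n = 0 then 0 else rexp (-(π * a) * n ^ 2)) := by
    refine Summable.of_nonneg_of_le (fun n => ?_) (fun n => ?_) hsr
    · split_ifs <;> positivity
    · split_ifs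
      · positivity
      · exact le_rfl
  have hnorm : ∀ n : ℤ, ‖(if n = 0 then 0 else jacobiTheta₂_term n (-s) (I * a) : ℂ)‖ =
      (if n = 0 then 0 else rexp (-(π * a) * n ^ 2)) := by
    intro n
    split_ifs
    · simp
    · exact hterm0 n
  have hb1 : ‖∑' n : ℤ, (if n = 0 then 0 else jacobiTheta₂_term n (-s) (I * a) : ℂ)‖ ≤
      ∑' n : ℤ, (if n = 0 then 0 else rexp (-(π * a) * n ^ 2)) := by
    refine (norm_tsum_le_tsum_norm ?_).trans (le_of_eq ?_)
    · exact hsr'.congr (fun n => (hnorm n).symm)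
    · exact tsum_congr hnorm
  -- bound by jacobiTheta
  have hj : jacobiTheta (I * a) = ((∑' n : ℤ, rexp (-(π * a) * n ^ 2) : ℝ) : ℂ) := by
    rw [jacobiTheta_eq_jacobiTheta₂, jacobiTheta₂, ofReal_tsum]
    exact tsum_congr hterm00
  have hjb := norm_jacobiTheta_sub_one_le (τ := I * a) (by simpa using ha)
  rw [hj, hsplit0] at hjb
  have him : (I * (a : ℂ)).im = a := by simp
  rw [him] at hjb
  have hb2 : ∑' n : ℤ, (if n = 0 then 0 else rexp (-(π * a) * n ^ 2)) ≤
      2 / (1 - rexp (-(π * a))) * rexp (-(π * a)) := by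
    refine le_trans (le_abs_self _) ?_
    have : ‖((1 + ∑' n : ℤ, (if n = 0 then 0 else rexp (-(π * a) * n ^ 2)) : ℝ) : ℂ) - 1‖ =
        |∑' n : ℤ, (if n = 0 then 0 else rexp (-(π * a) * n ^ 2))| := by
      rw [← Real.norm_eq_abs, ← Complex.norm_real]
      congr 1
      push_cast
      ring
    rw [this] at hjb
    simpa [neg_mul] using hjb
  have hfin : ((∑' n : ℤ, rexp (-(π / a * ((n : ℝ) + s) ^ 2)) - √a : ℝ) : ℂ) =
      (√a : ℝ) * ∑' n : ℤ, (if n = 0 then 0 else jacobiTheta₂_term n (-s) (I * a) : ℂ) := by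
    rw [ofReal_sub, key2, hsplit1]
    ring
  rw [← Real.norm_eq_abs, ← Complex.norm_real, hfin, norm_mul, Complex.norm_real,
    Real.norm_of_nonneg hsa.le]
  gcongr
  exact hb1.trans hb2

/-- One-dimensional uniform estimate in the form used below. -/
theorem theta_one (β : ℝ) (hβ : 0 < β) :
    ∃ K κ : ℝ, 0 ≤ K ∧ 0 < κ ∧ ∀ ρ : ℝ, 1 ≤ ρ → ∀ s : ℝ,
      Summable (fun n : ℤ => rexp (-(π * (β * ((n : ℝ) + s) ^ 2) / ρ ^ 2))) ∧
      |∑' n : ℤ, rexp (-(π * (β * ((n : ℝ) + s) ^ 2) / ρ ^ 2)) - ρ / √β| ≤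
        K * rexp (-(κ * ρ ^ 2)) * (ρ / √β) := by
  have hlt : rexp (-(π / β)) < 1 := by
    rw [Real.exp_lt_one_iff]
    have : 0 < π / β := by positivity
    linarith
  refine ⟨2 / (1 - rexp (-(π / β))), π / β, ?_, by positivity, ?_⟩
  · apply div_nonneg (by norm_num)
    linarith
  intro ρ hρ s
  have hρ0 : 0 < ρ := by linarith
  have hterm : ∀ n : ℤ, rexp (-(π * (β * ((n : ℝ) + s) ^ 2) / ρ ^ 2)) =
      rexp (-(π / (ρ ^ 2 / β) * ((n : ℝ) + s) ^ 2)) := by
    intro n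
    congr 1
    field_simp
  have hsq : √(ρ ^ 2 / β) = ρ / √β := by
    rw [Real.sqrt_div (by positivity), Real.sqrt_sq hρ0.le]
  constructor
  · refine (summable_gauss_shift (π / (ρ ^ 2 / β)) (by positivity) s).congr ?_
    intro n
    exact (hterm n).symm
  · have h := theta_aux (ρ ^ 2 / β) (by positivity) s
    simp_rw [hterm]
    rw [hsq] at h
    refine h.trans ?_
    have h1 : π / β ≤ π * (ρ ^ 2 / β) := by
      have : (1 : ℝ) ≤ ρ ^ 2 := by nlinarith
      calc π / β = π * (1 / β) := by ring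
        _ ≤ π * (ρ ^ 2 / β) := by gcongr
    have h2 : rexp (-(π * (ρ ^ 2 / β))) ≤ rexp (-(π / β)) := by
      apply Real.exp_le_exp.mpr; linarith
    have h3 : (0 : ℝ) < 1 - rexp (-(π / β)) := by linarith
    have h4 : 2 / (1 - rexp (-(π * (ρ ^ 2 / β)))) ≤ 2 / (1 - rexp (-(π / β))) := by
      apply div_le_div_of_nonneg_left (by norm_num) h3
      linarith
    have h5 : rexp (-(π * (ρ ^ 2 / β))) = rexp (-(π / β * ρ ^ 2)) := by
      congr 1; ring
    rw [h5] at h4 ⊢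
    have h6 : (0 : ℝ) ≤ ρ / √β := by positivity
    have h7 : (0 : ℝ) ≤ rexp (-(π / β * ρ ^ 2)) := (Real.exp_pos _).le
    calc ρ / √β * (2 / (1 - rexp (-(π / β * ρ ^ 2))) * rexp (-(π / β * ρ ^ 2)))
        ≤ ρ / √β * (2 / (1 - rexp (-(π / β))) * rexp (-(π / β * ρ ^ 2))) := by gcongr
      _ = _ := by ring

variable {E : Type*} [AddCommGroup E] [Module ℝ E]

/-- The quadratic form of a bilinear form. -/
def qf (B : E →ₗ[ℝ] E →ₗ[ℝ] ℝ) (v : E) : ℝ := B v v

/-- Uniform lattice Gaussian sums. -/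
theorem lattice_gauss (B : E →ₗ[ℝ] E →ₗ[ℝ] ℝ) (hsymm : ∀ x y, B x y = B y x)
    (hpos : ∀ x, x ≠ 0 → 0 < B x x) :
    ∀ (m : ℕ) (b : Fin m → E), LinearIndependent ℝ b →
    ∃ c K κ : ℝ, 0 < c ∧ 0 ≤ K ∧ 0 < κ ∧ ∀ ρ : ℝ, 1 ≤ ρ →
      ∀ z ∈ Submodule.span ℝ (Set.range b),
      Summable (fun y : Fin m → ℤ => rexp (-(π * qf B (z + ∑ k, (y k : ℝ) • b k) / ρ ^ 2))) ∧
      |∑' y : Fin m → ℤ, rexp (-(π * qf B (z + ∑ k, (y k : ℝ) • b k) / ρ ^ 2)) - c * ρ ^ m| ≤
        K * rexp (-(κ * ρ ^ 2)) * (c * ρ ^ m) := by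
  intro m
  induction m with
  | zero =>
    intro b _
    refine ⟨1, 0, 1, one_pos, le_rfl, one_pos, ?_⟩
    intro ρ hρ z hz
    have hz0 : z = 0 := by
      have : Set.range b = ∅ := Set.range_eq_empty b
      rw [this, Submodule.span_empty] at hz
      simpa using hz
    subst hz0
    constructor
    · exact (hasSum_fintype _).summable
    · rw [tsum_fintype]
      simp [qf]
  | succ m ih =>
    intro b hb
    have hb0 : b 0 ≠ 0 := hb.ne_zero 0
    set β : ℝ := B (b 0) (b 0) with hβdef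
    have hβ : 0 < β := hpos _ hb0
    -- projection
    let p : E →ₗ[ℝ] E := LinearMap.id - ((β⁻¹ • (B (b 0))).smulRight (b 0))
    have hp : ∀ v, p v = v - (B (b 0) v / β) • b 0 := by
      intro v
      simp [p, LinearMap.smulRight_apply, div_eq_inv_mul]
    have hp0 : p (b 0) = 0 := by
      rw [hp, ← hβdef, div_self hβ.ne', one_smul, sub_self]
    have hker : ∀ v, p v = 0 → v = (B (b 0) v / β) • b 0 := by
      intro v hv
      rw [hp] at hv
      exact sub_eq_zero.mp hv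
    have hb' : LinearIndependent ℝ (fun j : Fin m => p (b j.succ)) := by
      rw [Fintype.linearIndependent_iff]
      intro g hg
      have h1 : p (∑ j, g j • b j.succ) = 0 := by
        rw [map_sum]
        simpa [map_smul] using hg
      have h2 := hker _ h1
      have h3 : ∑ j : Fin (m + 1), (Fin.cons (-(B (b 0) (∑ j, g j • b j.succ) / β)) g :
          Fin (m + 1) → ℝ) j • b j = 0 := by
        rw [Fin.sum_univ_succ]
        simp only [Fin.cons_zero, Fin.cons_succ]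
        rw [neg_smul, ← h2]
        simp
      have h4 := Fintype.linearIndependent_iff.mp hb _ h3
      intro j
      have := h4 j.succ
      simpa using this
    obtain ⟨c', K', κ', hc', hK', hκ', hmain⟩ := ih _ hb'
    obtain ⟨K₁, κ₁, hK₁, hκ₁, h1d⟩ := theta_one β hβ
    refine ⟨c' / √β, K₁ + K' + K₁ * K', min κ₁ κ', by positivity, by positivity,
      lt_min hκ₁ hκ', ?_⟩
    intro ρ hρ z hz
    have hρ0 : 0 < ρ := by linarith
    have hpz : p z ∈ Submodule.span ℝ (Set.range (fun j : Fin m => p (b j.succ))) := by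
      have h1 : p z ∈ (Submodule.span ℝ (Set.range b)).map p := Submodule.mem_map_of_mem hz
      rw [Submodule.map_span] at h1
      refine (Submodule.span_le.mpr ?_) h1
      rintro _ ⟨_, ⟨j, rfl⟩, rfl⟩
      refine Fin.cases ?_ (fun j => ?_) j
      · rw [hp0]; exact Submodule.zero_mem _
      · exact Submodule.subset_span ⟨j, rfl⟩
    obtain ⟨hsum', hest'⟩ := hmain ρ hρ (p z) hpz
    -- decomposition of the quadratic form
    have hdecomp : ∀ (u : E) (r : ℝ), qf B (u + r • b 0) =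
        qf B (p u) + β * (r + B (b 0) u / β) ^ 2 := by
      intro u r
      unfold qf
      rw [hp]
      simp only [map_add, map_sub, map_smul, LinearMap.add_apply, LinearMap.sub_apply,
        LinearMap.smul_apply, smul_eq_mul]
      rw [hsymm u (b 0), ← hβdef]
      field_simp
      ring
    -- the equivalence
    let e : (Fin m → ℤ) × ℤ ≃ (Fin (m + 1) → ℤ) :=
      (Equiv.prodComm _ _).trans (Fin.consEquiv (fun _ => ℤ))
    let F : (Fin (m + 1) → ℤ) → ℝ := fun y =>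
      rexp (-(π * qf B (z + ∑ k, (y k : ℝ) • b k) / ρ ^ 2))
    let g : (Fin m → ℤ) → ℝ := fun y =>
      rexp (-(π * qf B (p z + ∑ k, (y k : ℝ) • p (b k.succ)) / ρ ^ 2))
    let sh : (Fin m → ℤ) → ℝ := fun y => B (b 0) (z + ∑ k, (y k : ℝ) • b k.succ) / β
    have hFe : ∀ q : (Fin m → ℤ) × ℤ, F (e q) =
        g q.1 * rexp (-(π * (β * ((q.2 : ℝ) + sh q.1) ^ 2) / ρ ^ 2)) := by
      rintro ⟨y, n⟩
      simp only [F, g, sh, e, Equiv.trans_apply, Equiv.prodComm_apply, Prod.swap_prod_mk,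
        Fin.consEquiv_apply]
      rw [← Real.exp_add]
      congr 1
      have h1 : z + ∑ k, ((Fin.cons n y : Fin (m + 1) → ℤ) k : ℝ) • b k =
          (z + ∑ k, (y k : ℝ) • b k.succ) + (n : ℝ) • b 0 := by
        rw [Fin.sum_univ_succ]
        simp only [Fin.cons_zero, Fin.cons_succ]
        abel
      rw [h1, hdecomp]
      have h2 : p (z + ∑ k, (y k : ℝ) • b k.succ) = p z + ∑ k, (y k : ℝ) • p (b k.succ) := by
        rw [map_add, map_sum]; simp
      rw [h2]
      field_simp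
      ring
    have hg0 : ∀ y, 0 ≤ g y := fun y => (Real.exp_pos _).le
    have hinner : ∀ y, ∑' n : ℤ, F (e (y, n)) =
        g y * ∑' n : ℤ, rexp (-(π * (β * ((n : ℝ) + sh y) ^ 2) / ρ ^ 2)) := by
      intro y
      rw [← tsum_mul_left]
      exact tsum_congr (fun n => hFe (y, n))
    set ε₁ := K₁ * rexp (-(κ₁ * ρ ^ 2)) with hε₁
    set ε' := K' * rexp (-(κ' * ρ ^ 2)) with hε'
    have hε₁0 : 0 ≤ ε₁ := by positivity
    have hε'0 : 0 ≤ ε' := by positivity
    set τ := ρ / √β with hτ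
    have hτ0 : 0 < τ := by positivity
    have hT : ∀ y, |∑' n : ℤ, rexp (-(π * (β * ((n : ℝ) + sh y) ^ 2) / ρ ^ 2)) - τ| ≤ ε₁ * τ :=
      fun y => (h1d ρ hρ (sh y)).2
    have hTle : ∀ y, ∑' n : ℤ, rexp (-(π * (β * ((n : ℝ) + sh y) ^ 2) / ρ ^ 2)) ≤
        (1 + ε₁) * τ := by
      intro y
      have := (abs_le.mp (hT y)).2
      linarith
    have hT0 : ∀ y, 0 ≤ ∑' n : ℤ, rexp (-(π * (β * ((n : ℝ) + sh y) ^ 2) / ρ ^ 2)) :=
      fun y => tsum_nonneg (fun n => (Real.exp_pos _).le)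
    have hsumg : Summable g := hsum'
    have hsumFe : Summable (fun q : (Fin m → ℤ) × ℤ => F (e q)) := by
      rw [summable_prod_of_nonneg (fun q => (Real.exp_pos _).le)]
      constructor
      · intro y
        have := ((h1d ρ hρ (sh y)).1).mul_left (g y)
        exact this.congr (fun n => (hFe (y, n)).symm)
      · have hS : Summable (fun y : Fin m → ℤ =>
            g y * ∑' n : ℤ, rexp (-(π * (β * ((n : ℝ) + sh y) ^ 2) / ρ ^ 2))) := by
          refine Summable.of_nonneg_of_le (fun y => mul_nonneg (hg0 y) (hT0 y)) (fun y => ?_)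
            (hsumg.mul_right ((1 + ε₁) * τ))
          exact mul_le_mul_of_nonneg_left (hTle y) (hg0 y)
        exact hS.congr (fun y => (hinner y).symm)
    have hsumF : Summable F := e.summable_iff.mp hsumFe
    refine ⟨hsumF, ?_⟩
    have htsum : ∑' y, F y = ∑' y : Fin m → ℤ,
        g y * ∑' n : ℤ, rexp (-(π * (β * ((n : ℝ) + sh y) ^ 2) / ρ ^ 2)) := by
      rw [← e.tsum_eq F, hsumFe.tsum_prod]
      exact tsum_congr hinner
    have hsumgT : Summable (fun y : Fin m → ℤ =>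
        g y * ∑' n : ℤ, rexp (-(π * (β * ((n : ℝ) + sh y) ^ 2) / ρ ^ 2))) := by
      refine Summable.of_nonneg_of_le (fun y => mul_nonneg (hg0 y) (hT0 y)) (fun y => ?_)
          (hsumg.mul_right ((1 + ε₁) * τ))
      exact mul_le_mul_of_nonneg_left (hTle y) (hg0 y)
    have hG : |∑' y, g y - c' * ρ ^ m| ≤ ε' * (c' * ρ ^ m) := hest'
    have hGle : ∑' y, g y ≤ (1 + ε') * (c' * ρ ^ m) := by
      have := (abs_le.mp hG).2
      linarith
    have h1 : |∑' y, F y - τ * ∑' y, g y| ≤ ε₁ * τ * ∑' y, g y := by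
      rw [htsum, ← tsum_mul_left, ← hsumgT.tsum_sub (hsumg.mul_left τ)]
      rw [← tsum_mul_left]
      rw [← Real.norm_eq_abs]
      refine (norm_tsum_le_tsum_norm ?_).trans ?_
      · refine Summable.of_nonneg_of_le (fun y => norm_nonneg _) (fun y => ?_)
          (hsumg.mul_left (ε₁ * τ))
        rw [Real.norm_eq_abs]
        have : g y * ∑' n : ℤ, rexp (-(π * (β * ((n : ℝ) + sh y) ^ 2) / ρ ^ 2)) - τ * g y =
          g y * (∑' n : ℤ, rexp (-(π * (β * ((n : ℝ) + sh y) ^ 2) / ρ ^ 2)) - τ) := by ring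
        rw [this, abs_mul, abs_of_nonneg (hg0 y), mul_comm (ε₁ * τ)]
        exact mul_le_mul_of_nonneg_left (hT y) (hg0 y)
      · refine Summable.tsum_le_tsum (fun y => ?_) ?_ (hsumg.mul_left (ε₁ * τ))
        · rw [Real.norm_eq_abs]
          have : g y * ∑' n : ℤ, rexp (-(π * (β * ((n : ℝ) + sh y) ^ 2) / ρ ^ 2)) - τ * g y =
            g y * (∑' n : ℤ, rexp (-(π * (β * ((n : ℝ) + sh y) ^ 2) / ρ ^ 2)) - τ) := by ring
          rw [this, abs_mul, abs_of_nonneg (hg0 y), mul_comm (ε₁ * τ)]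
          exact mul_le_mul_of_nonneg_left (hT y) (hg0 y)
        · exact (hsumgT.sub (hsumg.mul_left τ)).norm
    have h2 : |τ * ∑' y, g y - τ * (c' * ρ ^ m)| ≤ τ * (ε' * (c' * ρ ^ m)) := by
      rw [← mul_sub, abs_mul, abs_of_nonneg hτ0.le]
      exact mul_le_mul_of_nonneg_left hG hτ0.le
    have hcp : 0 < c' * ρ ^ m := by positivity
    have h3 : |∑' y, F y - τ * (c' * ρ ^ m)| ≤ (ε₁ + ε' + ε₁ * ε') * (τ * (c' * ρ ^ m)) := by
      calc |∑' y, F y - τ * (c' * ρ ^ m)|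
          ≤ |∑' y, F y - τ * ∑' y, g y| + |τ * ∑' y, g y - τ * (c' * ρ ^ m)| := abs_sub_le _ _ _
        _ ≤ ε₁ * τ * ((1 + ε') * (c' * ρ ^ m)) + τ * (ε' * (c' * ρ ^ m)) := by
            refine add_le_add (h1.trans ?_) h2
            exact mul_le_mul_of_nonneg_left hGle (by positivity)
        _ = (ε₁ + ε' + ε₁ * ε') * (τ * (c' * ρ ^ m)) := by ring
    have h4 : τ * (c' * ρ ^ m) = c' / √β * ρ ^ (m + 1) := by
      rw [hτ]; ring
    rw [h4] at h3
    refine h3.trans ?_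
    apply mul_le_mul_of_nonneg_right _ (by positivity)
    have hx : rexp (-(κ₁ * ρ ^ 2)) ≤ rexp (-(min κ₁ κ' * ρ ^ 2)) := by
      apply Real.exp_le_exp.mpr
      have := min_le_left κ₁ κ'
      have h5 : 0 ≤ ρ ^ 2 := by positivity
      nlinarith
    have hx' : rexp (-(κ' * ρ ^ 2)) ≤ rexp (-(min κ₁ κ' * ρ ^ 2)) := by
      apply Real.exp_le_exp.mpr
      have := min_le_right κ₁ κ'
      have h5 : 0 ≤ ρ ^ 2 := by positivity
      nlinarith
    have hx1 : rexp (-(κ₁ * ρ ^ 2)) ≤ 1 := by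
      apply Real.exp_le_one_iff.mpr
      have : 0 ≤ κ₁ * ρ ^ 2 := by positivity
      linarith
    have e1 : ε₁ ≤ K₁ * rexp (-(min κ₁ κ' * ρ ^ 2)) := mul_le_mul_of_nonneg_left hx hK₁
    have e2 : ε' ≤ K' * rexp (-(min κ₁ κ' * ρ ^ 2)) := mul_le_mul_of_nonneg_left hx' hK'
    have e3 : ε₁ * ε' ≤ K₁ * (K' * rexp (-(min κ₁ κ' * ρ ^ 2))) := by
      have : ε₁ ≤ K₁ := by
        calc ε₁ ≤ K₁ * 1 := by rw [hε₁]; gcongr
          _ = K₁ := mul_one _
      exact mul_le_mul this e2 hε'0 hK₁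
    calc ε₁ + ε' + ε₁ * ε' ≤ K₁ * rexp (-(min κ₁ κ' * ρ ^ 2)) +
          K' * rexp (-(min κ₁ κ' * ρ ^ 2)) + K₁ * (K' * rexp (-(min κ₁ κ' * ρ ^ 2))) := by
            linarith
      _ = (K₁ + K' + K₁ * K') * rexp (-(min κ₁ κ' * ρ ^ 2)) := by ring

end

end Pool.Agent.U578.Smyth
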