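import Mathlib
import Pool.Agent.U578.Theta
import Pool.Agent.U578.Polygon
import Pool.Agent.U578.Lattice

set_option autoImplicit false

namespace Pool.Agent.U578.Smyth

noncomputable section

open Finset Filter Topology Real

variable {R W ι : Type} [CommRing R] [Fintype W] [Fintype ι]

namespace Emb

variable (D : Emb R W ι)

/-- The square norm of an element. -/
def qR (t : R) : ℝ := ∑ w, ‖D.S t w‖ ^ 2

theorem qR_nonneg (t : R) : 0 ≤ D.qR t := by unfold qR; positivity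

theorem norm_sq_le_qR (t : R) : ‖D.S t‖ ^ 2 ≤ D.qR t := by
  obtain ⟨w0⟩ := D.ne
  have : Nonempty W := ⟨w0⟩
  obtain ⟨w, hw⟩ : ∃ w, ‖D.S t‖ = ‖D.S t w‖ := by
    obtain ⟨w, hw⟩ := Finite.exists_max (fun w => ‖D.S t w‖)
    refine ⟨w, le_antisymm ?_ (norm_le_pi_norm _ w)⟩
    rw [pi_norm_le_iff_of_nonneg (norm_nonneg _)]
    exact hw
  rw [hw]
  exact Finset.single_le_sum (f := fun w => ‖D.S t w‖ ^ 2) (fun i _ => by positivity)
    (mem_univ w)

theorem sum_qR : ∃ (K : ℝ) (m : ℕ), 0 ≤ K ∧ ∀ ρ : ℝ, 1 ≤ ρ →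
    Summable (fun t : R => rexp (-(π * D.qR t / ρ ^ 2))) ∧
    ∑' t : R, rexp (-(π * D.qR t / ρ ^ 2)) ≤ K * ρ ^ m := by
  classical
  let B0 : (W → ℂ) →ₗ[ℝ] (W → ℂ) →ₗ[ℝ] ℝ :=
    ∑ w, (innerₗ ℂ).compl₁₂ (LinearMap.proj w) (LinearMap.proj w)
  have hB0 : ∀ u v, B0 u v = ∑ w, inner ℝ (u w) (v w) := by
    intro u v
    simp [B0, LinearMap.sum_apply]
  have hsymm : ∀ u v, B0 u v = B0 v u := by
    intro u v
    rw [hB0, hB0]
    exact Finset.sum_congr rfl (fun w _ => real_inner_comm _ _)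
  have hself : ∀ u, B0 u u = ∑ w, ‖u w‖ ^ 2 := by
    intro u
    rw [hB0]
    exact Finset.sum_congr rfl (fun w _ => real_inner_self_eq_norm_sq _)
  have hpos : ∀ u, u ≠ 0 → 0 < B0 u u := by
    intro u hu
    rw [hself]
    obtain ⟨w, hw⟩ := Function.ne_iff.mp hu
    have hj' : 0 < ‖u w‖ ^ 2 := by
      have : 0 < ‖u w‖ := norm_pos_iff.mpr hw
      positivity
    exact lt_of_lt_of_le hj' (Finset.single_le_sum (f := fun w => ‖u w‖ ^ 2)
      (fun i _ => by positivity) (Finset.mem_univ w))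
  let e' := D.e.reindex (Fintype.equivFin ι)
  let b' := D.b.reindex (Fintype.equivFin ι)
  have hb' : ∀ k, b' k = D.S (e' k) := by
    intro k
    simp only [b', e', Module.Basis.reindex_apply, b_apply]
  obtain ⟨c, K, κ, hc, hK, hκ, hmain⟩ := lattice_gauss B0 hsymm hpos _ b' b'.linearIndependent
  refine ⟨(1 + K) * c, Fintype.card ι, by positivity, ?_⟩
  intro ρ hρ
  obtain ⟨h1, h2⟩ := hmain ρ hρ 0 (Submodule.zero_mem _)
  have hterm : ∀ y : Fin (Fintype.card ι) → ℤ,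
      rexp (-(π * qf B0 (0 + ∑ k, (y k : ℝ) • b' k) / ρ ^ 2)) =
      rexp (-(π * D.qR (e'.equivFun.symm y) / ρ ^ 2)) := by
    intro y
    have h3 : (0 : W → ℂ) + ∑ k, (y k : ℝ) • b' k = D.S (e'.equivFun.symm y) := by
      rw [zero_add, Module.Basis.equivFun_symm_apply, ← SL_apply, map_sum]
      apply Finset.sum_congr rfl
      intro k _
      rw [map_smul, SL_apply, ← hb', Int.cast_smul_eq_zsmul]
    rw [h3]
    unfold qf
    rw [hself]
    rfl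
  simp_rw [hterm] at h1 h2
  have hs : Summable (fun t : R => rexp (-(π * D.qR t / ρ ^ 2))) :=
    (e'.equivFun.symm.toEquiv.summable_iff
      (f := fun t : R => rexp (-(π * D.qR t / ρ ^ 2)))).mp h1
  refine ⟨hs, ?_⟩
  rw [← e'.equivFun.symm.toEquiv.tsum_eq]
  have h4 := (abs_le.mp h2).2
  have h5 : rexp (-(κ * ρ ^ 2)) ≤ 1 := by
    apply Real.exp_le_one_iff.mpr
    have : 0 ≤ κ * ρ ^ 2 := by positivity
    linarith
  have h6 : 0 ≤ c * ρ ^ (Fintype.card ι) := by positivity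
  have h7 : K * rexp (-(κ * ρ ^ 2)) * (c * ρ ^ (Fintype.card ι)) ≤
      K * 1 * (c * ρ ^ (Fintype.card ι)) := by gcongr
  calc ∑' y, rexp (-(π * D.qR (e'.equivFun.symm.toEquiv y) / ρ ^ 2))
      ≤ c * ρ ^ (Fintype.card ι) + K * 1 * (c * ρ ^ (Fintype.card ι)) := by
        have : ∑' y, rexp (-(π * D.qR (e'.equivFun.symm.toEquiv y) / ρ ^ 2)) =
          ∑' y, rexp (-(π * D.qR (e'.equivFun.symm y) / ρ ^ 2)) := rfl
        linarith
    _ = (1 + K) * c * ρ ^ (Fintype.card ι) := by ring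

theorem poly_exp_bound (P : ℕ) (u : ℝ) (hu : 0 ≤ u) :
    (1 + u) ^ P * rexp (-(π * u ^ 2 / 2)) ≤ (P.factorial : ℝ) * rexp 2 := by
  have h1 : (1 + u) ^ P / (P.factorial : ℝ) ≤ rexp (1 + u) :=
    Real.pow_div_factorial_le_exp (1 + u) (by linarith) P
  have h2 : (0 : ℝ) < P.factorial := by exact_mod_cast P.factorial_pos
  rw [div_le_iff₀ h2] at h1
  calc (1 + u) ^ P * rexp (-(π * u ^ 2 / 2)) ≤
        (rexp (1 + u) * P.factorial) * rexp (-(π * u ^ 2 / 2)) := by gcongr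
    _ = P.factorial * rexp (1 + u + -(π * u ^ 2 / 2)) := by rw [Real.exp_add (1 + u)]; ring
    _ ≤ P.factorial * rexp 2 := by
        gcongr
        have h3 : (2 : ℝ) ≤ π := Real.two_le_pi
        nlinarith [sq_nonneg (u - 1 / 2), sq_nonneg u]

theorem sum_poly (P : ℕ) : ∃ (K : ℝ) (m : ℕ), 0 ≤ K ∧ ∀ ρ : ℝ, 1 ≤ ρ →
    Summable (fun t : R => (1 + ‖D.S t‖) ^ P * rexp (-(π * D.qR t / ρ ^ 2))) ∧
    ∑' t : R, (1 + ‖D.S t‖) ^ P * rexp (-(π * D.qR t / ρ ^ 2)) ≤ K * ρ ^ m := by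
  obtain ⟨K, m, hK, hmain⟩ := D.sum_qR
  refine ⟨(P.factorial : ℝ) * rexp 2 * K * √2 ^ m, P + m, by positivity, ?_⟩
  intro ρ hρ
  have hρ0 : 0 < ρ := by linarith
  have hs2 : (1 : ℝ) ≤ √2 := by
    rw [Real.one_le_sqrt]; norm_num
  have hρ2 : 1 ≤ √2 * ρ := by nlinarith
  obtain ⟨h1, h2⟩ := hmain (√2 * ρ) hρ2
  have hsq : (√2 * ρ) ^ 2 = 2 * ρ ^ 2 := by
    rw [mul_pow, Real.sq_sqrt (by norm_num)]
  rw [hsq] at h1 h2
  have hbound : ∀ t : R, (1 + ‖D.S t‖) ^ P * rexp (-(π * D.qR t / ρ ^ 2)) ≤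
      (P.factorial : ℝ) * rexp 2 * ρ ^ P * rexp (-(π * D.qR t / (2 * ρ ^ 2))) := by
    intro t
    have h3 := poly_exp_bound P (‖D.S t‖ / ρ) (by positivity)
    have h4 : (1 + ‖D.S t‖) ^ P ≤ ρ ^ P * (1 + ‖D.S t‖ / ρ) ^ P := by
      rw [← mul_pow]
      gcongr
      rw [mul_add, mul_one, mul_div_cancel₀ _ hρ0.ne']
      linarith
    have h5 : rexp (-(π * D.qR t / ρ ^ 2)) ≤
        rexp (-(π * (‖D.S t‖ / ρ) ^ 2 / 2)) * rexp (-(π * D.qR t / (2 * ρ ^ 2))) := by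
      rw [← Real.exp_add]
      apply Real.exp_le_exp.mpr
      have h6 := D.norm_sq_le_qR t
      have h7 : π * (‖D.S t‖ / ρ) ^ 2 / 2 ≤ π * D.qR t / (2 * ρ ^ 2) := by
        rw [div_pow]
        calc π * (‖D.S t‖ ^ 2 / ρ ^ 2) / 2 ≤ π * (D.qR t / ρ ^ 2) / 2 := by gcongr
          _ = π * D.qR t / (2 * ρ ^ 2) := by field_simp
      have h8 : π * D.qR t / ρ ^ 2 = π * D.qR t / (2 * ρ ^ 2) + π * D.qR t / (2 * ρ ^ 2) := by
        field_simp; ring
      linarith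
    calc (1 + ‖D.S t‖) ^ P * rexp (-(π * D.qR t / ρ ^ 2))
        ≤ (ρ ^ P * (1 + ‖D.S t‖ / ρ) ^ P) *
          (rexp (-(π * (‖D.S t‖ / ρ) ^ 2 / 2)) * rexp (-(π * D.qR t / (2 * ρ ^ 2)))) := by
          gcongr
      _ = ((1 + ‖D.S t‖ / ρ) ^ P * rexp (-(π * (‖D.S t‖ / ρ) ^ 2 / 2))) *
          (ρ ^ P * rexp (-(π * D.qR t / (2 * ρ ^ 2)))) := by ring
      _ ≤ ((P.factorial : ℝ) * rexp 2) * (ρ ^ P * rexp (-(π * D.qR t / (2 * ρ ^ 2)))) := by
          gcongr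
      _ = _ := by ring
  have hsum := h1.mul_left ((P.factorial : ℝ) * rexp 2 * ρ ^ P)
  have hs : Summable (fun t : R => (1 + ‖D.S t‖) ^ P * rexp (-(π * D.qR t / ρ ^ 2))) :=
    Summable.of_nonneg_of_le (fun t => by positivity) hbound hsum
  refine ⟨hs, ?_⟩
  calc ∑' t : R, (1 + ‖D.S t‖) ^ P * rexp (-(π * D.qR t / ρ ^ 2))
      ≤ ∑' t : R, (P.factorial : ℝ) * rexp 2 * ρ ^ P * rexp (-(π * D.qR t / (2 * ρ ^ 2))) :=
        hs.tsum_le_tsum hbound hsum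
    _ = (P.factorial : ℝ) * rexp 2 * ρ ^ P * ∑' t : R, rexp (-(π * D.qR t / (2 * ρ ^ 2))) :=
        tsum_mul_left
    _ ≤ (P.factorial : ℝ) * rexp 2 * ρ ^ P * (K * (√2 * ρ) ^ m) := by gcongr
    _ = (P.factorial : ℝ) * rexp 2 * K * √2 ^ m * ρ ^ (P + m) := by
        rw [mul_pow, pow_add]; ring

/-- The global quadratic form. -/
theorem exists_form {n : ℕ} (hn : 0 < n) (a : Fin n → R)
    (H1 : ∀ w i, ‖D.σ w (a i)‖ < ∑ j ∈ univ.erase i, ‖D.σ w (a j)‖) :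
    ∃ (B : (Fin n → W → ℂ) →ₗ[ℝ] (Fin n → W → ℂ) →ₗ[ℝ] ℝ) (g : Fin n → Fin n → W → ℂ),
      (∀ x y, B x y = B y x) ∧ (∀ x, x ≠ 0 → 0 < B x x) ∧ (∀ i w, g i i w = 1) ∧
      (∀ i w, ∑ j, D.σ w (a j) * g i j w = 0) ∧
      (∀ i (v : W → ℂ) (z : Fin n → W → ℂ), (∀ w, ∑ j, D.σ w (a j) * z j w = 0) → z i = 0 →
        qf B ((fun j w => v w * g i j w) + z) = ∑ w, ‖v w‖ ^ 2 + qf B z) := by
  classical
  have hp := fun w => place_form hn (fun i => D.σ w (a i)) (H1 w)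
  choose Bw gw hsymm hpos hone hker hself hzero using hp
  let pr : W → (Fin n → W → ℂ) →ₗ[ℝ] (Fin n → ℂ) := fun w =>
    { toFun := fun y j => y j w
      map_add' := fun _ _ => rfl
      map_smul' := fun _ _ => rfl }
  have hpr : ∀ w y j, pr w y j = y j w := fun w y j => rfl
  let B : (Fin n → W → ℂ) →ₗ[ℝ] (Fin n → W → ℂ) →ₗ[ℝ] ℝ :=
    ∑ w, (Bw w).compl₁₂ (pr w) (pr w)
  have hB : ∀ x y, B x y = ∑ w, Bw w (pr w x) (pr w y) := by
    intro x y
    simp [B, LinearMap.sum_apply]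
  refine ⟨B, fun i j w => gw w i j, ?_, ?_, ?_, ?_, ?_⟩
  · intro x y
    rw [hB, hB]
    exact Finset.sum_congr rfl (fun w _ => hsymm w _ _)
  · intro x hx
    rw [hB]
    obtain ⟨j, hj⟩ := Function.ne_iff.mp hx
    obtain ⟨w, hw⟩ := Function.ne_iff.mp hj
    have hne : pr w x ≠ 0 := by
      intro h
      apply hw
      have := congrFun h j
      rw [hpr] at this
      simpa using this
    have h0 : ∀ w, 0 ≤ Bw w (pr w x) (pr w x) := by
      intro w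
      by_cases h : pr w x = 0
      · rw [h]; simp
      · exact (hpos w _ h).le
    exact lt_of_lt_of_le (hpos w _ hne) (Finset.single_le_sum
      (f := fun w => Bw w (pr w x) (pr w x)) (fun i _ => h0 i) (Finset.mem_univ w))
  · intro i w
    exact hone w i
  · intro i w
    exact hker w i
  · intro i v z hz hzi
    have h1 : ∀ w, pr w (fun j w => v w * gw w i j) = v w • gw w i := by
      intro w
      ext j
      rw [hpr]
      simp
    have h2 : ∀ w, Bw w (v w • gw w i) (pr w z) = 0 := by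
      intro w
      apply hzero
      · simpa [hpr] using hz w
      · rw [hpr, hzi]; rfl
    unfold qf
    rw [hB, hB]
    rw [← Finset.sum_add_distrib]
    apply Finset.sum_congr rfl
    intro w _
    simp only [map_add, LinearMap.add_apply, h1]
    rw [hself, h2, hsymm w (pr w z) (v w • gw w i), h2]
    ring

end Emb

end

end Pool.Agent.U578.Smyth
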