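import Mathlib
import Pool.Agent.U578.Lattice

set_option autoImplicit false

namespace Pool.Agent.U578.Smyth

noncomputable section

open Finset Filter

variable {R W ι : Type} [CommRing R] [Fintype W] [Fintype ι]

namespace Emb

variable (D : Emb R W ι)

/-- The shrinking lemma. -/
theorem shrink {n : ℕ} (a : Fin n → R)
    (H1 : ∀ w i, ‖D.σ w (a i)‖ < ∑ j ∈ univ.erase i, ‖D.σ w (a j)‖)
    (H2 : ∀ i, ∃ x : Fin n → R, x i = 1 ∧ ∑ j, a j * x j = 0) :
    ∃ δ C : ℝ, 0 < δ ∧ δ < 1 ∧ 0 ≤ C ∧ ∀ (i : Fin n) (t : R), ∃ x : Fin n → R,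
      ∑ j, a j * x j = 0 ∧ x i = t ∧ ∀ j, j ≠ i → ‖D.S (x j)‖ ≤ (1 - δ) * ‖D.S t‖ + C := by
  classical
  -- uniform δ
  obtain ⟨δ, hδ0, hδ1, hδ⟩ : ∃ δ : ℝ, 0 < δ ∧ δ < 1 ∧
      ∀ w i, ‖D.σ w (a i)‖ ≤ (1 - δ) * ∑ j ∈ univ.erase i, ‖D.σ w (a j)‖ := by
    have h1 : ∀ᶠ δ in nhdsWithin (0 : ℝ) (Set.Ioi 0), ∀ w, ∀ i,
        ‖D.σ w (a i)‖ < (1 - δ) * ∑ j ∈ univ.erase i, ‖D.σ w (a j)‖ := by
      rw [Filter.eventually_all]
      intro w
      rw [Filter.eventually_all]
      intro i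
      have hc : Filter.Tendsto (fun δ : ℝ => (1 - δ) * ∑ j ∈ univ.erase i, ‖D.σ w (a j)‖)
          (nhdsWithin (0 : ℝ) (Set.Ioi 0))
          (nhds ((1 - 0) * ∑ j ∈ univ.erase i, ‖D.σ w (a j)‖)) := by
        apply Filter.Tendsto.mono_left _ nhdsWithin_le_nhds
        exact (Continuous.tendsto (by fun_prop) 0)
      rw [sub_zero, one_mul] at hc
      exact hc.eventually (lt_mem_nhds (H1 w i))
    have h2 : ∀ᶠ δ in nhdsWithin (0 : ℝ) (Set.Ioi 0), δ < 1 :=
      (Filter.Tendsto.mono_left Filter.tendsto_id nhdsWithin_le_nhds).eventually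
        (gt_mem_nhds one_pos)
    obtain ⟨δ, ⟨hδ, hδ1⟩, hδ0⟩ := ((h1.and h2).and self_mem_nhdsWithin).exists
    exact ⟨δ, hδ0, hδ1, fun w i => (hδ w i).le⟩
  have hmain : ∀ i, ∃ C : ℝ, 0 ≤ C ∧ ∀ t : R, ∃ x : Fin n → R,
      ∑ j, a j * x j = 0 ∧ x i = t ∧ ∀ j, j ≠ i → ‖D.S (x j)‖ ≤ (1 - δ) * ‖D.S t‖ + C := by
    intro i
    have hSpos : ∀ w, 0 < ∑ j ∈ univ.erase i, ‖D.σ w (a j)‖ := fun w =>
      lt_of_le_of_lt (norm_nonneg _) (H1 w i)
    obtain ⟨j0, hj, ha⟩ : ∃ j0, j0 ≠ i ∧ a j0 ≠ 0 := by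
      by_contra hcon
      push Not at hcon
      obtain ⟨w⟩ := D.ne
      have h1 := hSpos w
      have h2 : ∑ j ∈ univ.erase i, ‖D.σ w (a j)‖ = 0 := by
        apply Finset.sum_eq_zero
        intro j hj
        rw [hcon j (Finset.ne_of_mem_erase hj), map_zero, norm_zero]
      linarith
    obtain ⟨m, β, E, hE, -, hspan⟩ := D.exists_basis a i j0 hj ha
    obtain ⟨u, hui, hu⟩ := H2 i
    refine ⟨∑ k, ‖D.Sn (β k)‖, by positivity, ?_⟩
    intro t
    let Y : Fin n → W → ℂ := fun j w => if j = i then D.S t w else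
      -(D.S t w * D.σ w (a i) * ((starRingEnd ℂ) (D.σ w (a j)) / ‖D.σ w (a j)‖) /
        ((∑ j ∈ univ.erase i, ‖D.σ w (a j)‖ : ℝ) : ℂ))
    let z : Fin n → W → ℂ := Y - D.Sn (fun j => t * u j)
    have hzi : z i = 0 := by
      ext w
      simp [z, Y, Sn_apply, hui]
    have hYH : ∀ w, ∑ j, D.σ w (a j) * Y j w = 0 := by
      intro w
      rw [← Finset.add_sum_erase _ _ (mem_univ i)]
      have h1 : ∑ j ∈ univ.erase i, D.σ w (a j) * Y j w =
          -(D.S t w * D.σ w (a i)) := by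
        have h2 : ∑ j ∈ univ.erase i, D.σ w (a j) * Y j w = ∑ j ∈ univ.erase i,
            -(D.S t w * D.σ w (a i) / ((∑ j ∈ univ.erase i, ‖D.σ w (a j)‖ : ℝ) : ℂ)) *
              ((‖D.σ w (a j)‖ : ℝ) : ℂ) := by
          apply Finset.sum_congr rfl
          intro j hj'
          simp only [Y, if_neg (Finset.ne_of_mem_erase hj')]
          have h3 : D.σ w (a j) * ((starRingEnd ℂ) (D.σ w (a j)) / ‖D.σ w (a j)‖) =
              ((‖D.σ w (a j)‖ : ℝ) : ℂ) := by
            rw [← mul_div_assoc, Complex.mul_conj, Complex.normSq_eq_norm_sq]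
            by_cases h0 : ‖D.σ w (a j)‖ = 0
            · simp [h0]
            · have : ((‖D.σ w (a j)‖ : ℝ) : ℂ) ≠ 0 := by exact_mod_cast h0
              push_cast
              field_simp
          calc D.σ w (a j) * -(D.S t w * D.σ w (a i) *
                ((starRingEnd ℂ) (D.σ w (a j)) / ‖D.σ w (a j)‖) /
                ((∑ j ∈ univ.erase i, ‖D.σ w (a j)‖ : ℝ) : ℂ))
              = -(D.S t w * D.σ w (a i) / ((∑ j ∈ univ.erase i, ‖D.σ w (a j)‖ : ℝ) : ℂ)) *
                (D.σ w (a j) * ((starRingEnd ℂ) (D.σ w (a j)) / ‖D.σ w (a j)‖)) := by ring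
            _ = _ := by rw [h3]
        rw [h2, ← Finset.mul_sum, ← Complex.ofReal_sum]
        have h4 : ((∑ j ∈ univ.erase i, ‖D.σ w (a j)‖ : ℝ) : ℂ) ≠ 0 := by
          exact_mod_cast (hSpos w).ne'
        field_simp
      rw [h1]
      simp only [Y, if_true]
      ring
    have hz : ∀ w, ∑ j, D.σ w (a j) * z j w = 0 := by
      intro w
      have h1 : ∑ j, D.σ w (a j) * z j w = ∑ j, D.σ w (a j) * Y j w -
          D.σ w (t * ∑ j, a j * u j) := by
        rw [Finset.mul_sum, map_sum, ← Finset.sum_sub_distrib]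
        apply Finset.sum_congr rfl
        intro j _
        simp only [z, Pi.sub_apply, Sn_apply, S_apply, map_mul]
        ring
      rw [h1, hYH w, hu]
      simp
    have hzs := hspan z hz hzi
    rw [Submodule.mem_span_range_iff_exists_fun] at hzs
    obtain ⟨r, hr⟩ := hzs
    let c : Fin m → ℤ := fun k => ⌊r k⌋
    let x : Fin n → R := (fun j => t * u j) + ((E c : Lam a i) : Fin n → R)
    have hEc := (E c).2
    rw [mem_Lam] at hEc
    refine ⟨x, ?_, ?_, ?_⟩
    · simp only [x, Pi.add_apply, mul_add, Finset.sum_add_distrib, hEc.1, add_zero]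
      have : ∑ j, a j * (t * u j) = t * ∑ j, a j * u j := by
        rw [Finset.mul_sum]
        apply Finset.sum_congr rfl
        intro j _
        ring
      rw [this, hu, mul_zero]
    · simp [x, hui, hEc.2]
    · intro j hji
      have h1 : D.Sn x = Y - ∑ k, (r k - (c k : ℝ)) • D.Sn (β k) := by
        simp only [x]
        rw [map_add, hE c, map_sum]
        simp only [sub_smul, Finset.sum_sub_distrib]
        rw [hr]
        simp only [z]
        have : ∑ k, D.Sn (c k • β k) = ∑ k, ((c k : ℤ) : ℝ) • D.Sn (β k) := by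
          apply Finset.sum_congr rfl
          intro k _
          rw [map_smul, Int.cast_smul_eq_zsmul]
        rw [this]
        abel
      have h2 : D.S (x j) = Y j - ∑ k, (r k - (c k : ℝ)) • D.Sn (β k) j := by
        have := congrFun h1 j
        rw [Sn_apply] at this
        rw [this]
        simp [Finset.sum_apply]
      rw [h2]
      refine (norm_sub_le _ _).trans (add_le_add ?_ ?_)
      · rw [pi_norm_le_iff_of_nonneg]
        · intro w
          simp only [Y, if_neg hji, norm_neg, norm_div, norm_mul, RCLike.norm_conj,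
            Complex.norm_real, Real.norm_eq_abs, abs_norm]
          rw [abs_of_pos (hSpos w)]
          have h3 : ‖D.σ w (a j)‖ / ‖D.σ w (a j)‖ ≤ 1 := div_self_le_one _
          have h4 : ‖D.σ w (a i)‖ / ∑ j ∈ univ.erase i, ‖D.σ w (a j)‖ ≤ 1 - δ := by
            rw [div_le_iff₀ (hSpos w)]
            exact hδ w i
          have h5 : ‖D.S t w‖ ≤ ‖D.S t‖ := norm_le_pi_norm _ w
          calc ‖D.S t w‖ * ‖D.σ w (a i)‖ * (‖D.σ w (a j)‖ / ‖D.σ w (a j)‖) /
                ∑ j ∈ univ.erase i, ‖D.σ w (a j)‖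
              = (‖D.σ w (a i)‖ / ∑ j ∈ univ.erase i, ‖D.σ w (a j)‖) * ‖D.S t w‖ *
                (‖D.σ w (a j)‖ / ‖D.σ w (a j)‖) := by ring
            _ ≤ (1 - δ) * ‖D.S t‖ * 1 := by
                apply mul_le_mul _ h3 (by positivity)
                · apply mul_nonneg (by linarith) (norm_nonneg _)
                · exact mul_le_mul h4 h5 (norm_nonneg _) (by linarith)
            _ = (1 - δ) * ‖D.S t‖ := mul_one _
        · apply mul_nonneg (by linarith) (norm_nonneg _)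
      · refine (norm_sum_le _ _).trans (Finset.sum_le_sum ?_)
        intro k _
        rw [norm_smul]
        have h3 : ‖r k - (c k : ℝ)‖ ≤ 1 := by
          rw [Real.norm_eq_abs, abs_le]
          have := Int.floor_le (r k)
          have := Int.lt_floor_add_one (r k)
          constructor <;> simp only [c] <;> linarith
        have h4 : ‖D.Sn (β k) j‖ ≤ ‖D.Sn (β k)‖ := norm_le_pi_norm _ j
        calc ‖r k - (c k : ℝ)‖ * ‖D.Sn (β k) j‖ ≤ 1 * ‖D.Sn (β k)‖ :=
              mul_le_mul h3 h4 (norm_nonneg _) zero_le_one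
          _ = _ := one_mul _
  choose C hC0 hC using hmain
  refine ⟨δ, ∑ i, C i, hδ0, hδ1, Finset.sum_nonneg (fun i _ => hC0 i), ?_⟩
  intro i t
  obtain ⟨x, hx, hxi, hxj⟩ := hC i t
  refine ⟨x, hx, hxi, fun j hj => (hxj j hj).trans ?_⟩
  have : C i ≤ ∑ i, C i := Finset.single_le_sum (fun i _ => hC0 i) (mem_univ i)
  linarith

/-- The growth lemma. -/
theorem growth {n : ℕ} (a : Fin n → R)
    (H1 : ∀ w i, ‖D.σ w (a i)‖ < ∑ j ∈ univ.erase i, ‖D.σ w (a j)‖)
    (H2 : ∀ i, ∃ x : Fin n → R, x i = 1 ∧ ∑ j, a j * x j = 0) (hn : 0 < n) :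
    ∃ (r1 C' : ℝ) (P : ℕ), 0 ≤ C' ∧ ∀ (Φ N : ℝ) (f : Fin n → R → ℝ), 0 ≤ Φ →
      (∀ t, ∑ i, f i t = 0) →
      (∀ x : Fin n → R, ∑ j, a j * x j = 0 → (∀ j, ‖D.S (x j)‖ ≤ N) → 0 ≤ ∑ i, f i (x i)) →
      (∀ i t, ‖D.S t‖ ≤ r1 → |f i t| ≤ Φ) →
      ∀ t, ‖D.S t‖ ≤ N → ∀ i, |f i t| ≤ C' * (1 + ‖D.S t‖) ^ P * Φ := by
  classical
  obtain ⟨δ, C, hδ0, hδ1, hC0, hsh⟩ := D.shrink a H1 H2
  set q : ℝ := (1 - δ / 2)⁻¹ with hq
  have h2 : 0 < 1 - δ / 2 := by linarith
  have hq1 : 1 < q := by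
    rw [hq]
    exact (one_lt_inv₀ h2).mpr (by linarith)
  set r1 : ℝ := max 1 (2 * C / δ) with hr1
  have hr11 : 1 ≤ r1 := le_max_left _ _
  have hrC : ∀ s, r1 ≤ s → (1 - δ) * s + C ≤ (1 - δ / 2) * s := by
    intro s hs
    have h3 : 2 * C / δ ≤ s := (le_max_right _ _).trans hs
    rw [div_le_iff₀ hδ0] at h3
    nlinarith
  obtain ⟨P, hP⟩ : ∃ P : ℕ, (n : ℝ) ^ 2 < q ^ P := pow_unbounded_of_one_lt _ hq1
  have hn1 : (1 : ℝ) ≤ n := by exact_mod_cast hn
  refine ⟨r1, q ^ P, P, by positivity, ?_⟩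
  intro Φ N f hΦ hsum hF hbase
  have key : ∀ k : ℕ, ∀ t, ‖D.S t‖ ≤ N → ‖D.S t‖ ≤ r1 * q ^ k → ∀ i,
      |f i t| ≤ ((n : ℝ) ^ 2) ^ k * Φ := by
    intro k
    induction k with
    | zero =>
      intro t _ ht i
      simpa using hbase i t (by simpa using ht)
    | succ k ih =>
      intro t htN ht
      have hApos : (0 : ℝ) ≤ ((n : ℝ) ^ 2) ^ k * Φ := by positivity
      by_cases hsmall : ‖D.S t‖ ≤ r1
      · intro i
        have h3 := hbase i t hsmall
        have h4 : (1 : ℝ) ≤ ((n : ℝ) ^ 2) ^ (k + 1) := one_le_pow₀ (by nlinarith)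
        nlinarith
      · push Not at hsmall
        -- lower bounds
        have hlow : ∀ i, -(n * (((n : ℝ) ^ 2) ^ k * Φ)) ≤ f i t := by
          intro i
          obtain ⟨x, hx, hxi, hxj⟩ := hsh i t
          have hxle : ∀ j, j ≠ i → ‖D.S (x j)‖ ≤ (1 - δ / 2) * ‖D.S t‖ := fun j hj =>
            (hxj j hj).trans (hrC _ hsmall.le)
          have hxN : ∀ j, ‖D.S (x j)‖ ≤ N := by
            intro j
            by_cases hj : j = i
            · rw [hj, hxi]; exact htN
            · refine (hxle j hj).trans (le_trans ?_ htN)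
              nlinarith [norm_nonneg (D.S t)]
          have h3 := hF x hx hxN
          rw [← Finset.add_sum_erase _ _ (mem_univ i), hxi] at h3
          have h4 : ∑ j ∈ univ.erase i, f j (x j) ≤
              ∑ _j ∈ univ.erase i, (((n : ℝ) ^ 2) ^ k * Φ) := by
            apply Finset.sum_le_sum
            intro j hj
            have hj' := Finset.ne_of_mem_erase hj
            refine (le_abs_self _).trans (ih (x j) (hxN j) ?_ j)
            refine (hxle j hj').trans ?_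
            calc (1 - δ / 2) * ‖D.S t‖ ≤ (1 - δ / 2) * (r1 * q ^ (k + 1)) := by gcongr
              _ = r1 * q ^ k * ((1 - δ / 2) * q) := by ring
              _ = r1 * q ^ k := by rw [hq, mul_inv_cancel₀ h2.ne', mul_one]
          have h5 : ∑ _j ∈ univ.erase i, (((n : ℝ) ^ 2) ^ k * Φ) ≤
              n * (((n : ℝ) ^ 2) ^ k * Φ) := by
            rw [Finset.sum_const, nsmul_eq_mul]
            apply mul_le_mul_of_nonneg_right _ hApos
            have : (univ.erase i).card ≤ n := by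
              simpa using Finset.card_erase_le (s := (univ : Finset (Fin n))) (a := i)
            exact_mod_cast this
          linarith
        intro i
        rw [abs_le]
        have hnA : (n : ℝ) * (((n : ℝ) ^ 2) ^ k * Φ) ≤ ((n : ℝ) ^ 2) ^ (k + 1) * Φ := by
          have e : ((n : ℝ) ^ 2) ^ (k + 1) * Φ = (n : ℝ) ^ 2 * (((n : ℝ) ^ 2) ^ k * Φ) := by
            rw [pow_succ ((n : ℝ) ^ 2) k]; ring
          rw [e]
          have e2 : (n : ℝ) ≤ (n : ℝ) ^ 2 := by nlinarith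
          exact mul_le_mul_of_nonneg_right e2 hApos
        constructor
        · linarith [hlow i]
        · have h3 := hsum t
          rw [← Finset.add_sum_erase _ _ (mem_univ i)] at h3
          have h4 : -∑ j ∈ univ.erase i, f j t ≤
              ∑ _j ∈ univ.erase i, (n * (((n : ℝ) ^ 2) ^ k * Φ)) := by
            rw [← Finset.sum_neg_distrib]
            apply Finset.sum_le_sum
            intro j _
            linarith [hlow j]
          have h5 : ∑ _j ∈ univ.erase i, (n * (((n : ℝ) ^ 2) ^ k * Φ)) ≤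
              n * (n * (((n : ℝ) ^ 2) ^ k * Φ)) := by
            rw [Finset.sum_const, nsmul_eq_mul]
            apply mul_le_mul_of_nonneg_right _ (by positivity)
            have : (univ.erase i).card ≤ n := by
              simpa using Finset.card_erase_le (s := (univ : Finset (Fin n))) (a := i)
            exact_mod_cast this
          calc f i t = -∑ j ∈ univ.erase i, f j t := by linarith
            _ ≤ n * (n * (((n : ℝ) ^ 2) ^ k * Φ)) := h4.trans h5
            _ = ((n : ℝ) ^ 2) ^ (k + 1) * Φ := by ring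
  intro t htN i
  -- choose minimal k
  have hex : ∃ k : ℕ, ‖D.S t‖ ≤ r1 * q ^ k := by
    obtain ⟨k, hk⟩ := pow_unbounded_of_one_lt ‖D.S t‖ hq1
    refine ⟨k, hk.le.trans ?_⟩
    have : 0 < q ^ k := by positivity
    nlinarith
  let k := Nat.find hex
  have hk : ‖D.S t‖ ≤ r1 * q ^ k := Nat.find_spec hex
  have h3 := key k t htN hk i
  have hqk : q ^ k ≤ q * (1 + ‖D.S t‖) := by
    rcases Nat.eq_zero_or_pos k with h0 | h0
    · rw [h0, pow_zero]
      nlinarith [norm_nonneg (D.S t)]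
    · have h4 : ¬ ‖D.S t‖ ≤ r1 * q ^ (k - 1) := Nat.find_min hex (Nat.sub_lt h0 one_pos)
      push Not at h4
      have h5 : q ^ k = q * q ^ (k - 1) := by
        rw [← pow_succ']
        congr 1
        omega
      rw [h5]
      have h6 : 0 < q ^ (k - 1) := by positivity
      have h7 : q ^ (k - 1) ≤ 1 + ‖D.S t‖ := by nlinarith
      exact mul_le_mul_of_nonneg_left h7 (by positivity)
  calc |f i t| ≤ ((n : ℝ) ^ 2) ^ k * Φ := h3
    _ ≤ (q ^ P) ^ k * Φ := by gcongr
    _ = (q ^ k) ^ P * Φ := by rw [← pow_mul, ← pow_mul, mul_comm P k]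
    _ ≤ (q * (1 + ‖D.S t‖)) ^ P * Φ := by gcongr
    _ = q ^ P * (1 + ‖D.S t‖) ^ P * Φ := by rw [mul_pow]

end Emb

end

end Pool.Agent.U578.Smyth
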