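import Mathlib
import Pool.Agent.U578.Growth

set_option autoImplicit false

namespace Pool.Agent.U578.Smyth

noncomputable section

open Finset Filter Topology

variable {R W ι : Type} [CommRing R] [Fintype W] [Fintype ι]

namespace Emb

variable (D : Emb R W ι)

/-- The space of trivial certificates. -/
def K0 {n : ℕ} (a : Fin n → R) : Submodule ℝ (Fin n → R → ℝ) where
  carrier := {f | (∀ t, ∑ i, f i t = 0) ∧
    ∀ x : Fin n → R, ∑ j, a j * x j = 0 → ∑ i, f i (x i) = 0}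
  add_mem' := by
    rintro f g ⟨hf, hf'⟩ ⟨hg, hg'⟩
    refine ⟨fun t => ?_, fun x hx => ?_⟩
    · simp only [Pi.add_apply, Finset.sum_add_distrib, hf t, hg t, add_zero]
    · simp only [Pi.add_apply, Finset.sum_add_distrib, hf' x hx, hg' x hx, add_zero]
  zero_mem' := by simp
  smul_mem' := by
    rintro c f ⟨hf, hf'⟩
    refine ⟨fun t => ?_, fun x hx => ?_⟩
    · simp only [Pi.smul_apply, smul_eq_mul, ← Finset.mul_sum, hf t, mul_zero]
    · simp only [Pi.smul_apply, smul_eq_mul, ← Finset.mul_sum, hf' x hx, mul_zero]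

theorem exists_limit {n : ℕ} (a : Fin n → R)
    (H1 : ∀ w i, ‖D.σ w (a i)‖ < ∑ j ∈ univ.erase i, ‖D.σ w (a j)‖)
    (H2 : ∀ i, ∃ x : Fin n → R, x i = 1 ∧ ∑ j, a j * x j = 0) (hn : 0 < n)
    (f : ℕ → Fin n → R → ℝ) (hsum : ∀ N t, ∑ i, f N i t = 0)
    (hF : ∀ (N : ℕ) (x : Fin n → R), ∑ j, a j * x j = 0 → (∀ j, ‖D.S (x j)‖ ≤ N) → x ≠ 0 →
      0 < ∑ i, f N i (x i)) :
    ∃ (g : Fin n → R → ℝ) (C : ℝ) (P : ℕ), 0 ≤ C ∧ (∀ t, ∑ i, g i t = 0) ∧
      (∀ x : Fin n → R, ∑ j, a j * x j = 0 → 0 ≤ ∑ i, g i (x i)) ∧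
      (∃ x : Fin n → R, ∑ j, a j * x j = 0 ∧ 0 < ∑ i, g i (x i)) ∧
      ∀ i t, |g i t| ≤ C * (1 + ‖D.S t‖) ^ P := by
  classical
  obtain ⟨r1, C', P, hC', hgrow⟩ := D.growth a H1 H2 hn
  have hfin := D.finite_ball r1
  let D1 : Type := {t : R | ‖D.S t‖ ≤ r1}
  have : Fintype D1 := hfin.fintype
  let res : (Fin n → R → ℝ) →ₗ[ℝ] (Fin n → D1 → ℝ) :=
    { toFun := fun f i t => f i (t : {t : R | ‖D.S t‖ ≤ r1}).1
      map_add' := fun _ _ => rfl
      map_smul' := fun _ _ => rfl }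
  let K1 := (K0 a).map res
  obtain ⟨C1, hC1⟩ := K1.exists_isCompl
  -- a nonzero vector of the kernel
  obtain ⟨u, hu0, hu⟩ := H2 ⟨0, hn⟩
  have hune : u ≠ 0 := by
    intro h
    rw [h] at hu0
    obtain ⟨w⟩ := D.ne
    have h1 := congrArg (D.σ w) hu0
    simp at h1
  obtain ⟨N0, hN0⟩ : ∃ N0 : ℕ, (∀ j, ‖D.S (u j)‖ ≤ N0) := by
    obtain ⟨N0, hN0⟩ := exists_nat_ge (∑ j, ‖D.S (u j)‖)
    exact ⟨N0, fun j => (Finset.single_le_sum (f := fun j => ‖D.S (u j)‖)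
      (fun i _ => norm_nonneg _) (mem_univ j)).trans hN0⟩
  -- the normalised certificates
  have hstep : ∀ N : ℕ, ∃ h : Fin n → R → ℝ, N0 ≤ N → ((∀ t, ∑ i, h i t = 0) ∧
      (∀ x : Fin n → R, ∑ j, a j * x j = 0 → (∀ j, ‖D.S (x j)‖ ≤ N) → 0 ≤ ∑ i, h i (x i)) ∧
      res h ∈ C1 ∧ ‖res h‖ = 1 ∧
      ∀ i t, ‖D.S t‖ ≤ N → |h i t| ≤ C' * (1 + ‖D.S t‖) ^ P) := by
    intro N
    by_cases hN : N0 ≤ N
    swap
    · exact ⟨0, fun h => absurd h hN⟩
    have htop : res (f N) ∈ K1 ⊔ C1 := by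
      rw [hC1.sup_eq_top]; exact Submodule.mem_top
    obtain ⟨k1, hk1, c1, hc1, hkc⟩ := Submodule.mem_sup.mp htop
    obtain ⟨k, hk, hkk⟩ := Submodule.mem_map.mp hk1
    let g := f N - k
    have hg : res g = c1 := by
      simp only [g, map_sub, hkk, ← hkc]; abel
    have hgsum : ∀ t, ∑ i, g i t = 0 := by
      intro t
      simp only [g, Pi.sub_apply, Finset.sum_sub_distrib, hsum N t, hk.1 t, sub_zero]
    have hgF : ∀ x : Fin n → R, ∑ j, a j * x j = 0 → ∑ i, g i (x i) = ∑ i, f N i (x i) := by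
      intro x hx
      simp only [g, Pi.sub_apply, Finset.sum_sub_distrib, hk.2 x hx, sub_zero]
    have hgF0 : ∀ x : Fin n → R, ∑ j, a j * x j = 0 → (∀ j, ‖D.S (x j)‖ ≤ N) →
        0 ≤ ∑ i, g i (x i) := by
      intro x hx hxN
      by_cases hx0 : x = 0
      · subst hx0
        simp only [Pi.zero_apply]
        exact (hgsum 0).ge
      · rw [hgF x hx]
        exact (hF N x hx hxN hx0).le
    have hbase : ∀ i t, ‖D.S t‖ ≤ r1 → |g i t| ≤ ‖res g‖ := by
      intro i t ht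
      have h1 : ‖res g i ⟨t, ht⟩‖ ≤ ‖res g i‖ := norm_le_pi_norm (res g i) _
      have h2 : ‖res g i‖ ≤ ‖res g‖ := norm_le_pi_norm (res g) i
      have h3 : res g i ⟨t, ht⟩ = g i t := rfl
      rw [← Real.norm_eq_abs, ← h3]
      exact h1.trans h2
    have hgr := hgrow ‖res g‖ N g (norm_nonneg _) hgsum hgF0 hbase
    have hpos : 0 < ‖res g‖ := by
      by_contra hcon
      have h0 : ‖res g‖ = 0 := le_antisymm (not_lt.mp hcon) (norm_nonneg _)
      have huN : ∀ j, ‖D.S (u j)‖ ≤ N := fun j => (hN0 j).trans (by exact_mod_cast hN)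
      have h1 := hF N u hu huN hune
      rw [← hgF u hu] at h1
      have h2 : ∑ i, g i (u i) = 0 := by
        apply Finset.sum_eq_zero
        intro i _
        have h3 := hgr (u i) (huN i) i
        rw [h0, mul_zero] at h3
        exact abs_eq_zero.mp (le_antisymm h3 (abs_nonneg _))
      linarith
    refine ⟨‖res g‖⁻¹ • g, fun _ => ⟨?_, ?_, ?_, ?_, ?_⟩⟩
    · intro t
      simp only [Pi.smul_apply, smul_eq_mul, ← Finset.mul_sum, hgsum t, mul_zero]
    · intro x hx hxN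
      simp only [Pi.smul_apply, smul_eq_mul, ← Finset.mul_sum]
      exact mul_nonneg (by positivity) (hgF0 x hx hxN)
    · rw [map_smul, hg]
      exact C1.smul_mem _ hc1
    · rw [map_smul, norm_smul, norm_inv, norm_norm, inv_mul_cancel₀ hpos.ne']
    · intro i t ht
      simp only [Pi.smul_apply, smul_eq_mul, abs_mul, abs_inv, abs_norm]
      have h3 := hgr t ht i
      rw [inv_mul_le_iff₀ hpos]
      calc |g i t| ≤ C' * (1 + ‖D.S t‖) ^ P * ‖res g‖ := h3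
        _ = ‖res g‖ * (C' * (1 + ‖D.S t‖) ^ P) := by ring
  choose h hh using hstep
  -- the ultrafilter limit
  let 𝒰 : Ultrafilter ℕ := hyperfilter ℕ
  have hU : (𝒰 : Filter ℕ) ≤ atTop := Nat.hyperfilter_le_atTop
  have hev : ∀ r : ℝ, ∀ᶠ N : ℕ in (𝒰 : Filter ℕ), r ≤ N ∧ N0 ≤ N := by
    intro r
    apply hU
    obtain ⟨M, hM⟩ := exists_nat_ge r
    filter_upwards [eventually_ge_atTop (max M N0)] with N hN
    refine ⟨hM.trans ?_, (le_max_right _ _).trans hN⟩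
    exact_mod_cast (le_max_left M N0).trans hN
  have hlim : ∀ i t, ∃ L, Tendsto (fun N => h N i t) (𝒰 : Filter ℕ) (𝓝 L) := by
    intro i t
    have h1 : ∀ᶠ N in (𝒰 : Filter ℕ), h N i t ∈
        Set.Icc (-(C' * (1 + ‖D.S t‖) ^ P)) (C' * (1 + ‖D.S t‖) ^ P) := by
      filter_upwards [hev ‖D.S t‖] with N hN
      exact abs_le.mp ((hh N hN.2).2.2.2.2 i t hN.1)
    obtain ⟨L, _, hL⟩ := (isCompact_Icc (a := -(C' * (1 + ‖D.S t‖) ^ P))
      (b := C' * (1 + ‖D.S t‖) ^ P)).ultrafilter_le_nhds (𝒰.map (fun N => h N i t)) (by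
        rw [le_principal_iff]
        exact h1)
    exact ⟨L, hL⟩
  choose g hg using hlim
  have hgsum : ∀ t, ∑ i, g i t = 0 := by
    intro t
    have h1 : Tendsto (fun N => ∑ i, h N i t) (𝒰 : Filter ℕ) (𝓝 (∑ i, g i t)) :=
      tendsto_finsetSum _ (fun i _ => hg i t)
    have h2 : Tendsto (fun N => ∑ i, h N i t) (𝒰 : Filter ℕ) (𝓝 0) := by
      refine tendsto_const_nhds.congr' ?_
      filter_upwards [hev 0] with N hN
      exact ((hh N hN.2).1 t).symm
    exact tendsto_nhds_unique h1 h2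
  have hgF : ∀ x : Fin n → R, ∑ j, a j * x j = 0 → 0 ≤ ∑ i, g i (x i) := by
    intro x hx
    have h1 : Tendsto (fun N => ∑ i, h N i (x i)) (𝒰 : Filter ℕ) (𝓝 (∑ i, g i (x i))) :=
      tendsto_finsetSum _ (fun i _ => hg i (x i))
    refine ge_of_tendsto h1 ?_
    filter_upwards [hev (∑ j, ‖D.S (x j)‖)] with N hN
    refine (hh N hN.2).2.1 x hx (fun j => ?_)
    exact (Finset.single_le_sum (f := fun j => ‖D.S (x j)‖)
      (fun i _ => norm_nonneg _) (mem_univ j)).trans hN.1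
  have hgb : ∀ i t, |g i t| ≤ C' * (1 + ‖D.S t‖) ^ P := by
    intro i t
    refine le_of_tendsto ((hg i t).abs) ?_
    filter_upwards [hev ‖D.S t‖] with N hN
    exact (hh N hN.2).2.2.2.2 i t hN.1
  have hres : Tendsto (fun N => res (h N)) (𝒰 : Filter ℕ) (𝓝 (res g)) := by
    rw [tendsto_pi_nhds]
    intro i
    rw [tendsto_pi_nhds]
    intro t
    exact hg i t.1
  have hresC : res g ∈ C1 := by
    have hclosed : IsClosed (C1 : Set (Fin n → D1 → ℝ)) := C1.closed_of_finiteDimensional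
    refine hclosed.mem_of_tendsto hres ?_
    filter_upwards [hev 0] with N hN
    exact (hh N hN.2).2.2.1
  have hresn : ‖res g‖ = 1 := by
    have h1 : Tendsto (fun N => ‖res (h N)‖) (𝒰 : Filter ℕ) (𝓝 ‖res g‖) := hres.norm
    have h2 : Tendsto (fun N => ‖res (h N)‖) (𝒰 : Filter ℕ) (𝓝 1) := by
      refine tendsto_const_nhds.congr' ?_
      filter_upwards [hev 0] with N hN
      exact ((hh N hN.2).2.2.2.1).symm
    exact tendsto_nhds_unique h1 h2
  refine ⟨g, C', P, hC', hgsum, hgF, ?_, hgb⟩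
  by_contra hcon
  push Not at hcon
  have hgK : g ∈ K0 a := ⟨hgsum, fun x hx => le_antisymm (hcon x hx) (hgF x hx)⟩
  have h1 : res g ∈ K1 ⊓ C1 := ⟨Submodule.mem_map_of_mem hgK, hresC⟩
  rw [hC1.inf_eq_bot] at h1
  have h2 : res g = 0 := by simpa using h1
  rw [h2, norm_zero] at hresn
  exact zero_ne_one hresn

end Emb

end

end Pool.Agent.U578.Smyth
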