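import Mathlib
import Pool.Agent.U578.Gauss
import Pool.Agent.U578.Limit
import Pool.Agent.U578.Duality

set_option autoImplicit false

namespace Pool.Agent.U578.Smyth

noncomputable section

open Finset Filter Topology Real

variable {R W ι : Type} [CommRing R] [Fintype W] [Fintype ι]

namespace Emb

variable (D : Emb R W ι)

/-- The lattice of solutions. -/
abbrev LamT {n : ℕ} (a : Fin n → R) : Type := {x : Fin n → R // ∑ j, a j * x j = 0}

/-- Fibrewise estimate for the Gaussian weights. -/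
theorem fiber {n : ℕ} (a : Fin n → R)
    (H1 : ∀ w i, ‖D.σ w (a i)‖ < ∑ j ∈ univ.erase i, ‖D.σ w (a j)‖)
    (H2 : ∀ i, ∃ x : Fin n → R, x i = 1 ∧ ∑ j, a j * x j = 0)
    (B : (Fin n → W → ℂ) →ₗ[ℝ] (Fin n → W → ℂ) →ₗ[ℝ] ℝ) (g : Fin n → Fin n → W → ℂ)
    (hsymm : ∀ x y, B x y = B y x) (hpos : ∀ x, x ≠ 0 → 0 < B x x)
    (hg1 : ∀ i w, g i i w = 1) (hgH : ∀ i w, ∑ j, D.σ w (a j) * g i j w = 0)
    (hdec : ∀ i (v : W → ℂ) (z : Fin n → W → ℂ),
      (∀ w, ∑ j, D.σ w (a j) * z j w = 0) → z i = 0 →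
        qf B ((fun j w => v w * g i j w) + z) = ∑ w, ‖v w‖ ^ 2 + qf B z) (i : Fin n) :
    ∃ (m : ℕ) (e : R × (Fin m → ℤ) ≃ LamT a) (c K κ : ℝ), 0 < c ∧ 0 ≤ K ∧ 0 < κ ∧
      (∀ q, (e q).1 i = q.1) ∧ ∀ ρ : ℝ, 1 ≤ ρ → ∀ t : R,
        Summable (fun y : Fin m → ℤ => rexp (-(π * qf B (D.Sn (e (t, y)).1) / ρ ^ 2))) ∧
        ∃ T : ℝ, ∑' y : Fin m → ℤ, rexp (-(π * qf B (D.Sn (e (t, y)).1) / ρ ^ 2)) =
          rexp (-(π * D.qR t / ρ ^ 2)) * T ∧
          |T - c * ρ ^ m| ≤ K * rexp (-(κ * ρ ^ 2)) * (c * ρ ^ m) := by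
  classical
  obtain ⟨j0, hj, ha⟩ : ∃ j0, j0 ≠ i ∧ a j0 ≠ 0 := by
    by_contra hcon
    push Not at hcon
    obtain ⟨w⟩ := D.ne
    have h1 : 0 < ∑ j ∈ univ.erase i, ‖D.σ w (a j)‖ := lt_of_le_of_lt (norm_nonneg _) (H1 w i)
    have h2 : ∑ j ∈ univ.erase i, ‖D.σ w (a j)‖ = 0 := by
      apply Finset.sum_eq_zero
      intro j hj
      rw [hcon j (Finset.ne_of_mem_erase hj), map_zero, norm_zero]
    linarith
  obtain ⟨m, β, E, hE, hli, hspan⟩ := D.exists_basis a i j0 hj ha
  obtain ⟨u, hui, hu⟩ := H2 i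
  -- the equivalence
  have hmemu : ∀ t : R, ∑ j, a j * (t * u j) = 0 := by
    intro t
    have : ∑ j, a j * (t * u j) = t * ∑ j, a j * u j := by
      rw [Finset.mul_sum]
      apply Finset.sum_congr rfl
      intro j _
      ring
    rw [this, hu, mul_zero]
  let e : R × (Fin m → ℤ) ≃ LamT a :=
    { toFun := fun q => ⟨(fun j => q.1 * u j) + ((E q.2 : Lam a i) : Fin n → R), by
        simp only [Pi.add_apply, mul_add, Finset.sum_add_distrib, hmemu, (E q.2).2.1, add_zero]⟩
      invFun := fun x => (x.1 i, E.symm ⟨x.1 - (fun j => x.1 i * u j), by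
        refine ⟨?_, ?_⟩
        · simp only [Pi.sub_apply, mul_sub, Finset.sum_sub_distrib, hmemu, x.2, sub_zero]
        · simp [hui]⟩)
      left_inv := by
        rintro ⟨t, y⟩
        have h1 : ((fun j => t * u j) + ((E y : Lam a i) : Fin n → R)) i = t := by
          simp [hui, (E y).2.2]
        ext1
        · exact h1
        · show E.symm _ = y
          rw [Equiv.symm_apply_eq]
          apply Subtype.ext
          show ((fun j => t * u j) + ((E y : Lam a i) : Fin n → R)) -
            (fun j => ((fun j => t * u j) + ((E y : Lam a i) : Fin n → R)) i * u j) = _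
          rw [h1]
          abel
      right_inv := by
        rintro ⟨x, hx⟩
        apply Subtype.ext
        simp }
  have he : ∀ q, (e q).1 = (fun j => q.1 * u j) + ((E q.2 : Lam a i) : Fin n → R) :=
    fun q => rfl
  obtain ⟨c, K, κ, hc, hK, hκ, hmain⟩ := lattice_gauss B hsymm hpos m _ hli
  refine ⟨m, e, c, K, κ, hc, hK, hκ, ?_, ?_⟩
  · intro q
    rw [he]
    simp [hui, (E q.2).2.2]
  · intro ρ hρ t
    let z : Fin n → W → ℂ := D.Sn (fun j => t * u j) - (fun j w => D.S t w * g i j w)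
    have hz : ∀ w, ∑ j, D.σ w (a j) * z j w = 0 := by
      intro w
      have h1 : ∑ j, D.σ w (a j) * z j w = D.σ w (∑ j, a j * (t * u j)) -
          D.S t w * ∑ j, D.σ w (a j) * g i j w := by
        rw [Finset.mul_sum, map_sum, ← Finset.sum_sub_distrib]
        apply Finset.sum_congr rfl
        intro j _
        simp only [z, Pi.sub_apply, Sn_apply, S_apply, map_mul]
        ring
      rw [h1, hmemu, hgH]
      simp
    have hzi : z i = 0 := by
      ext w
      simp [z, Sn_apply, hui, hg1]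
    have hzs := hspan z hz hzi
    obtain ⟨h1, h2⟩ := hmain ρ hρ z hzs
    -- the vectors
    have hterm : ∀ y : Fin m → ℤ,
        rexp (-(π * qf B (D.Sn (e (t, y)).1) / ρ ^ 2)) =
        rexp (-(π * D.qR t / ρ ^ 2)) *
          rexp (-(π * qf B (z + ∑ k, (y k : ℝ) • D.Sn (β k)) / ρ ^ 2)) := by
      intro y
      have h3 : D.Sn (e (t, y)).1 = (fun j w => D.S t w * g i j w) +
          (z + ∑ k, (y k : ℝ) • D.Sn (β k)) := by
        rw [he, map_add]
        have h4 : D.Sn ((E y : Lam a i) : Fin n → R) = ∑ k, (y k : ℝ) • D.Sn (β k) := by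
          rw [hE, map_sum]
          apply Finset.sum_congr rfl
          intro k _
          rw [map_smul, Int.cast_smul_eq_zsmul]
        simp only [z]
        rw [h4]
        abel
      have h5 : ∑ k, (y k : ℝ) • D.Sn (β k) = D.Sn ((E y : Lam a i) : Fin n → R) := by
        rw [hE, map_sum]
        apply Finset.sum_congr rfl
        intro k _
        rw [map_smul, Int.cast_smul_eq_zsmul]
      have h6 : ∀ w, ∑ j, D.σ w (a j) * (z + ∑ k, (y k : ℝ) • D.Sn (β k)) j w = 0 := by
        intro w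
        rw [h5]
        simp only [Pi.add_apply, mul_add, Finset.sum_add_distrib, hz w, zero_add]
        have := congrArg (D.σ w) (E y).2.1
        rw [map_sum, map_zero] at this
        rw [← this]
        apply Finset.sum_congr rfl
        intro j _
        rw [map_mul]
        rfl
      have h7 : (z + ∑ k, (y k : ℝ) • D.Sn (β k)) i = 0 := by
        rw [h5]
        simp only [Pi.add_apply, hzi, Sn_apply, (E y).2.2, S_zero, add_zero]
      rw [h3, hdec i (D.S t) _ h6 h7, ← Real.exp_add]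
      congr 1
      unfold qR
      ring
    refine ⟨?_, ∑' y : Fin m → ℤ,
      rexp (-(π * qf B (z + ∑ k, (y k : ℝ) • D.Sn (β k)) / ρ ^ 2)), ?_, h2⟩
    · exact (h1.mul_left _).congr (fun y => (hterm y).symm)
    · rw [← tsum_mul_left]
      exact tsum_congr hterm

theorem tendsto_aux (m : ℕ) (κ : ℝ) (hκ : 0 < κ) :
    Tendsto (fun ρ : ℝ => ρ ^ m * rexp (-(κ * ρ ^ 2))) atTop (𝓝 0) := by
  have h1 := Real.tendsto_pow_mul_exp_neg_atTop_nhds_zero m
  have h2 : Tendsto (fun ρ : ℝ => κ * ρ) atTop atTop := tendsto_id.const_mul_atTop hκ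
  have h3 := (h1.comp h2).const_mul ((1 / κ) ^ m)
  rw [mul_zero] at h3
  refine squeeze_zero' ?_ ?_ h3
  · filter_upwards [eventually_ge_atTop 1] with ρ hρ
    positivity
  · filter_upwards [eventually_ge_atTop 1] with ρ hρ
    simp only [Function.comp]
    have h4 : (1 / κ) ^ m * ((κ * ρ) ^ m * rexp (-(κ * ρ))) = ρ ^ m * rexp (-(κ * ρ)) := by
      rw [← mul_assoc, ← mul_pow]
      congr 2
      field_simp
    rw [h4]
    apply mul_le_mul_of_nonneg_left _ (by positivity)
    apply Real.exp_le_exp.mpr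
    have : κ * ρ ≤ κ * ρ ^ 2 := by
      apply mul_le_mul_of_nonneg_left _ hκ.le
      nlinarith
    linarith

/-- There is no nontrivial certificate of polynomial growth. -/
theorem no_certificate {n : ℕ} (hn : 0 < n) (a : Fin n → R)
    (H1 : ∀ w i, ‖D.σ w (a i)‖ < ∑ j ∈ univ.erase i, ‖D.σ w (a j)‖)
    (H2 : ∀ i, ∃ x : Fin n → R, x i = 1 ∧ ∑ j, a j * x j = 0)
    (f : Fin n → R → ℝ) (C : ℝ) (P : ℕ) (hC : 0 ≤ C) (hsum : ∀ t, ∑ i, f i t = 0)
    (hF : ∀ x : Fin n → R, ∑ j, a j * x j = 0 → 0 ≤ ∑ i, f i (x i))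
    (x0 : Fin n → R) (hx0 : ∑ j, a j * x0 j = 0) (hFx0 : 0 < ∑ i, f i (x0 i))
    (hb : ∀ i t, |f i t| ≤ C * (1 + ‖D.S t‖) ^ P) : False := by
  classical
  obtain ⟨B, g, hsymm, hpos, hg1, hgH, hdec⟩ := D.exists_form hn a H1
  have hfib := fun i => D.fiber a H1 H2 B g hsymm hpos hg1 hgH hdec i
  choose m e c K κ hc hK hκ he hmain using hfib
  obtain ⟨Kp, mp, hKp, hpoly⟩ := D.sum_poly P
  obtain ⟨Kq, mq, hKq, hq⟩ := D.sum_qR
  -- the quadratic form is nonnegative
  have hqf0 : ∀ x, 0 ≤ qf B x := by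
    intro x
    by_cases h : x = 0
    · subst h; simp [qf]
    · exact (hpos x h).le
  -- main estimate for each ρ
  have hest : ∀ ρ : ℝ, 1 ≤ ρ →
      rexp (-(π * qf B (D.Sn x0))) * ∑ i, f i (x0 i) ≤
        ∑ i, (2 * C * K i * c i * Kp) * (ρ ^ (m i + mp) * rexp (-(κ i * ρ ^ 2))) := by
    intro ρ hρ
    have hρ0 : 0 < ρ := by linarith
    let wt : LamT a → ℝ := fun x => rexp (-(π * qf B (D.Sn x.1) / ρ ^ 2))
    have hwt0 : ∀ x, 0 ≤ wt x := fun x => (Real.exp_pos _).le
    let ex : R → ℝ := fun t => rexp (-(π * D.qR t / ρ ^ 2))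
    have hex0 : ∀ t, 0 ≤ ex t := fun t => (Real.exp_pos _).le
    have hT : ∀ i t, ∃ T : ℝ, ∑' y : Fin (m i) → ℤ, wt (e i (t, y)) = ex t * T ∧
        |T - c i * ρ ^ (m i)| ≤ K i * rexp (-(κ i * ρ ^ 2)) * (c i * ρ ^ (m i)) := by
      intro i t
      exact (hmain i ρ hρ t).2
    choose T hTeq hTb using hT
    have hinner : ∀ i t, Summable (fun y : Fin (m i) → ℤ => wt (e i (t, y))) :=
      fun i t => (hmain i ρ hρ t).1
    have hexs : Summable ex := (hq ρ hρ).1
    have hpolys : Summable (fun t : R => (1 + ‖D.S t‖) ^ P * ex t) := (hpoly ρ hρ).1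
    have hpolyb : ∑' t : R, (1 + ‖D.S t‖) ^ P * ex t ≤ Kp * ρ ^ mp := (hpoly ρ hρ).2
    set G : Fin n → ℝ := fun i => c i * ρ ^ (m i) with hG
    have hG0 : ∀ i, 0 ≤ G i := fun i => by have := (hc i).le; positivity
    set ε : Fin n → ℝ := fun i => K i * rexp (-(κ i * ρ ^ 2)) with hε
    have hε0 : ∀ i, 0 ≤ ε i := fun i => by have := hK i; positivity
    have hTb' : ∀ i t, |T i t - G i| ≤ ε i * G i := hTb
    have hTabs : ∀ i t, |T i t| ≤ (1 + ε i) * G i := by
      intro i t
      calc |T i t| = |(T i t - G i) + G i| := by ring_nf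
        _ ≤ |T i t - G i| + |G i| := abs_add_le _ _
        _ ≤ ε i * G i + G i := by rw [abs_of_nonneg (hG0 i)]; linarith [hTb' i t]
        _ = (1 + ε i) * G i := by ring
    -- summability of wt
    have hwts : Summable wt := by
      let i0 : Fin n := ⟨0, hn⟩
      rw [← (e i0).summable_iff]
      show Summable (fun q => wt (e i0 q))
      rw [summable_prod_of_nonneg (fun q => hwt0 _)]
      refine ⟨fun t => hinner i0 t, ?_⟩
      simp_rw [hTeq i0]
      refine Summable.of_norm_bounded (g := fun t => ex t * ((1 + ε i0) * G i0))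
        (hexs.mul_right _) (fun t => ?_)
      rw [norm_mul, Real.norm_of_nonneg (hex0 t), Real.norm_eq_abs]
      exact mul_le_mul_of_nonneg_left (hTabs i0 t) (hex0 t)
    have htot : ∀ i, ∑' x, wt x = ∑' t, ex t * T i t := by
      intro i
      rw [← (e i).tsum_eq wt]
      have hs : Summable (fun q => wt (e i q)) := (e i).summable_iff.mpr hwts
      rw [hs.tsum_prod]
      exact tsum_congr (fun t => hTeq i t)
    -- the common constant
    set Θ : ℝ := ∑' t, ex t with hΘ
    have hΘpos : 0 < Θ := by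
      refine hexs.tsum_pos hex0 0 (Real.exp_pos _)
    set A : ℝ := (∑' x, wt x) / Θ with hA
    have hexT : ∀ i, Summable (fun t => ex t * T i t) := by
      intro i
      refine Summable.of_norm_bounded (g := fun t => ex t * ((1 + ε i) * G i))
        (hexs.mul_right _) (fun t => ?_)
      rw [norm_mul, Real.norm_of_nonneg (hex0 t), Real.norm_eq_abs]
      exact mul_le_mul_of_nonneg_left (hTabs i t) (hex0 t)
    have hAG : ∀ i, |A - G i| ≤ ε i * G i := by
      intro i
      have h1 : A - G i = (∑' t, ex t * (T i t - G i)) / Θ := by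
        rw [hA, htot i]
        have h2 : ∑' t, ex t * (T i t - G i) = ∑' t, ex t * T i t - Θ * G i := by
          simp_rw [mul_sub]
          rw [(hexT i).tsum_sub (hexs.mul_right _), tsum_mul_right]
        rw [h2]
        field_simp
      rw [h1, abs_div, abs_of_pos hΘpos, div_le_iff₀ hΘpos, ← Real.norm_eq_abs]
      have h3 : Summable (fun t => ex t * (T i t - G i)) := by
        simp_rw [mul_sub]
        exact (hexT i).sub (hexs.mul_right _)
      calc ‖∑' t, ex t * (T i t - G i)‖ ≤ ∑' t, ‖ex t * (T i t - G i)‖ :=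
            norm_tsum_le_tsum_norm h3.norm
        _ ≤ ∑' t, ex t * (ε i * G i) := by
            refine h3.norm.tsum_le_tsum (fun t => ?_) (hexs.mul_right _)
            rw [norm_mul, Real.norm_of_nonneg (hex0 t), Real.norm_eq_abs]
            exact mul_le_mul_of_nonneg_left (hTb' i t) (hex0 t)
        _ = ε i * G i * Θ := by rw [tsum_mul_right, mul_comm]
    have hTA : ∀ i t, |T i t - A| ≤ 2 * (ε i * G i) := by
      intro i t
      calc |T i t - A| = |(T i t - G i) + (G i - A)| := by ring_nf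
        _ ≤ |T i t - G i| + |G i - A| := abs_add_le _ _
        _ ≤ ε i * G i + ε i * G i := by
            rw [abs_sub_comm (G i) A]; exact add_le_add (hTb' i t) (hAG i)
        _ = 2 * (ε i * G i) := by ring
    -- summability of the weighted certificate, coordinatewise
    have hfs : ∀ i, Summable (fun x : LamT a => wt x * f i (x.1 i)) := by
      intro i
      have h1 : Summable (fun x : LamT a => wt x * (1 + ‖D.S (x.1 i)‖) ^ P) := by
        rw [← (e i).summable_iff]
        show Summable (fun q => wt (e i q) * (1 + ‖D.S ((e i q).1 i)‖) ^ P)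
        rw [summable_prod_of_nonneg (fun q => mul_nonneg (hwt0 _) (by positivity))]
        simp only [he]
        refine ⟨fun t => (hinner i t).mul_right _, ?_⟩
        simp_rw [tsum_mul_right, hTeq i]
        refine Summable.of_norm_bounded
          (g := fun t => ((1 + ‖D.S t‖) ^ P * ex t) * ((1 + ε i) * G i))
          (hpolys.mul_right _) (fun t => ?_)
        have h2 : (0 : ℝ) ≤ (1 + ‖D.S t‖) ^ P := by positivity
        rw [norm_mul, norm_mul, Real.norm_of_nonneg (hex0 t), Real.norm_eq_abs,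
          Real.norm_of_nonneg h2]
        calc ex t * |T i t| * (1 + ‖D.S t‖) ^ P ≤
              ex t * ((1 + ε i) * G i) * (1 + ‖D.S t‖) ^ P := by
              apply mul_le_mul_of_nonneg_right _ h2
              exact mul_le_mul_of_nonneg_left (hTabs i t) (hex0 t)
          _ = _ := by ring
      refine Summable.of_norm_bounded (g := fun x : LamT a =>
        C * (wt x * (1 + ‖D.S (x.1 i)‖) ^ P)) (h1.mul_left C) (fun x => ?_)
      rw [norm_mul, Real.norm_of_nonneg (hwt0 x), Real.norm_eq_abs]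
      calc wt x * |f i (x.1 i)| ≤ wt x * (C * (1 + ‖D.S (x.1 i)‖) ^ P) :=
            mul_le_mul_of_nonneg_left (hb i _) (hwt0 x)
        _ = _ := by ring
    have hfi : ∀ i, ∑' x : LamT a, wt x * f i (x.1 i) = ∑' t, ex t * T i t * f i t := by
      intro i
      rw [← (e i).tsum_eq (fun x : LamT a => wt x * f i (x.1 i))]
      have hs : Summable (fun q => wt (e i q) * f i ((e i q).1 i)) :=
        (e i).summable_iff.mpr (hfs i)
      rw [hs.tsum_prod]
      apply tsum_congr
      intro t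
      simp only [he]
      rw [tsum_mul_right, hTeq i]
    -- summability of ex t * f i t
    have hexf : ∀ i, Summable (fun t => ex t * f i t) := by
      intro i
      refine Summable.of_norm_bounded (g := fun t => C * ((1 + ‖D.S t‖) ^ P * ex t))
        (hpolys.mul_left C) (fun t => ?_)
      rw [norm_mul, Real.norm_of_nonneg (hex0 t), Real.norm_eq_abs]
      calc ex t * |f i t| ≤ ex t * (C * (1 + ‖D.S t‖) ^ P) :=
            mul_le_mul_of_nonneg_left (hb i t) (hex0 t)
        _ = _ := by ring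
    have hexfTA : ∀ i, Summable (fun t => ex t * f i t * (T i t - A)) := by
      intro i
      refine Summable.of_norm_bounded (g := fun t => ‖ex t * f i t‖ * (2 * (ε i * G i)))
        ((hexf i).norm.mul_right _) (fun t => ?_)
      rw [norm_mul]
      exact mul_le_mul_of_nonneg_left (hTA i t) (norm_nonneg _)
    have hzero : ∑ i, ∑' t, ex t * f i t = 0 := by
      rw [← Summable.tsum_finsetSum (fun i _ => hexf i)]
      have : ∀ t, ∑ i, ex t * f i t = 0 := by
        intro t
        rw [← Finset.mul_sum, hsum t, mul_zero]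
      simp [this]
    have hmainsum : ∑' x : LamT a, wt x * ∑ i, f i (x.1 i) =
        ∑ i, ∑' t, ex t * f i t * (T i t - A) := by
      have h1 : ∀ x : LamT a, wt x * ∑ i, f i (x.1 i) = ∑ i, wt x * f i (x.1 i) := by
        intro x; rw [Finset.mul_sum]
      simp_rw [h1]
      rw [Summable.tsum_finsetSum (fun i _ => hfs i)]
      have h2 : ∀ i, ∑' x : LamT a, wt x * f i (x.1 i) =
          ∑' t, ex t * f i t * (T i t - A) + A * ∑' t, ex t * f i t := by
        intro i
        rw [hfi, ← tsum_mul_left, ← (hexfTA i).tsum_add ((hexf i).mul_left A)]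
        apply tsum_congr
        intro t
        ring
      simp_rw [h2]
      rw [Finset.sum_add_distrib, ← Finset.mul_sum, hzero, mul_zero, add_zero]
    have hFs : Summable (fun x : LamT a => wt x * ∑ i, f i (x.1 i)) := by
      have h1 : ∀ x : LamT a, ∑ i, wt x * f i (x.1 i) = wt x * ∑ i, f i (x.1 i) := by
        intro x; rw [Finset.mul_sum]
      exact (summable_sum (fun i _ => hfs i)).congr h1
    have hlow : wt ⟨x0, hx0⟩ * ∑ i, f i (x0 i) ≤ ∑' x : LamT a, wt x * ∑ i, f i (x.1 i) :=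
      hFs.le_tsum ⟨x0, hx0⟩ (fun x _ => mul_nonneg (hwt0 x) (hF x.1 x.2))
    have hlow2 : rexp (-(π * qf B (D.Sn x0))) ≤ wt ⟨x0, hx0⟩ := by
      apply Real.exp_le_exp.mpr
      have h1 : 0 ≤ π * qf B (D.Sn x0) := mul_nonneg Real.pi_pos.le (hqf0 _)
      have h2 : π * qf B (D.Sn x0) / ρ ^ 2 ≤ π * qf B (D.Sn x0) := by
        apply div_le_self h1
        nlinarith
      show -(π * qf B (D.Sn x0)) ≤ -(π * qf B (D.Sn x0) / ρ ^ 2)
      linarith
    calc rexp (-(π * qf B (D.Sn x0))) * ∑ i, f i (x0 i)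
        ≤ wt ⟨x0, hx0⟩ * ∑ i, f i (x0 i) := by gcongr
      _ ≤ ∑' x : LamT a, wt x * ∑ i, f i (x.1 i) := hlow
      _ = ∑ i, ∑' t, ex t * f i t * (T i t - A) := hmainsum
      _ ≤ ∑ i, (2 * C * K i * c i * Kp) * (ρ ^ (m i + mp) * rexp (-(κ i * ρ ^ 2))) := by
          apply Finset.sum_le_sum
          intro i _
          refine (le_abs_self _).trans ?_
          rw [← Real.norm_eq_abs]
          calc ‖∑' t, ex t * f i t * (T i t - A)‖ ≤ ∑' t, ‖ex t * f i t * (T i t - A)‖ :=
                norm_tsum_le_tsum_norm (hexfTA i).norm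
            _ ≤ ∑' t, (2 * (ε i * G i) * C) * ((1 + ‖D.S t‖) ^ P * ex t) := by
                refine (hexfTA i).norm.tsum_le_tsum (fun t => ?_) (hpolys.mul_left _)
                rw [norm_mul, norm_mul, Real.norm_of_nonneg (hex0 t), Real.norm_eq_abs,
                  Real.norm_eq_abs]
                calc ex t * |f i t| * |T i t - A| ≤
                      ex t * (C * (1 + ‖D.S t‖) ^ P) * (2 * (ε i * G i)) := by
                      apply mul_le_mul _ (hTA i t) (abs_nonneg _)
                      · exact mul_nonneg (hex0 t) (by positivity)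
                      · exact mul_le_mul_of_nonneg_left (hb i t) (hex0 t)
                  _ = _ := by ring
            _ = (2 * (ε i * G i) * C) * ∑' t, ((1 + ‖D.S t‖) ^ P * ex t) := tsum_mul_left
            _ ≤ (2 * (ε i * G i) * C) * (Kp * ρ ^ mp) := by
                apply mul_le_mul_of_nonneg_left hpolyb
                have := hε0 i
                have := hG0 i
                positivity
            _ = _ := by
                simp only [hε, hG]
                rw [pow_add]
                ring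
  have hlim : Tendsto (fun ρ : ℝ => ∑ i, (2 * C * K i * c i * Kp) *
      (ρ ^ (m i + mp) * rexp (-(κ i * ρ ^ 2)))) atTop (𝓝 0) := by
    have h1 : Tendsto (fun ρ : ℝ => ∑ i, (2 * C * K i * c i * Kp) *
      (ρ ^ (m i + mp) * rexp (-(κ i * ρ ^ 2)))) atTop
      (𝓝 (∑ i : Fin n, (2 * C * K i * c i * Kp) * 0)) := by
      apply tendsto_finsetSum
      intro i _
      exact (tendsto_aux (m i + mp) (κ i) (hκ i)).const_mul _
    simpa using h1
  have hle : rexp (-(π * qf B (D.Sn x0))) * ∑ i, f i (x0 i) ≤ 0 := by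
    refine ge_of_tendsto hlim ?_
    filter_upwards [eventually_ge_atTop 1] with ρ hρ
    exact hest ρ hρ
  have : 0 < rexp (-(π * qf B (D.Sn x0))) * ∑ i, f i (x0 i) :=
    mul_pos (Real.exp_pos _) hFx0
  linarith

/-- The main theorem, in combinatorial form. -/
theorem main_perm {n : ℕ} (hn : 0 < n) (a : Fin n → R)
    (H1 : ∀ w i, ‖D.σ w (a i)‖ < ∑ j ∈ univ.erase i, ‖D.σ w (a j)‖)
    (H2 : ∀ i, ∃ x : Fin n → R, x i = 1 ∧ ∑ j, a j * x j = 0) :
    ∃ (M : ℕ) (v : Fin M → R) (p : Fin n → Equiv.Perm (Fin M)), (∃ k, v k ≠ 0) ∧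
      ∀ k, ∑ i, a i * v (p i k) = 0 := by
  classical
  -- the finite sets
  have hfin : ∀ N : ℕ, {x : Fin n → R | ∑ j, a j * x j = 0 ∧ (∀ j, ‖D.S (x j)‖ ≤ N) ∧
      x ≠ 0}.Finite := by
    intro N
    have h1 : (Set.univ.pi (fun _ : Fin n => {r : R | ‖D.S r‖ ≤ N})).Finite :=
      Set.Finite.pi (fun _ => D.finite_ball N)
    exact h1.subset (fun x hx j _ => hx.2.1 j)
  by_cases hcase : ∃ N : ℕ, ∃ w : (Fin n → R) → ℝ, (∀ x ∈ (hfin N).toFinset, 0 ≤ w x) ∧
      (∃ x ∈ (hfin N).toFinset, 0 < w x) ∧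
      ∀ i j t, ∑ x ∈ (hfin N).toFinset with x i = t, w x =
        ∑ x ∈ (hfin N).toFinset with x j = t, w x
  · obtain ⟨N, w, hw0, hwp, hm⟩ := hcase
    obtain ⟨M, x, p, hM, hx, hp⟩ := real_to_perm hn (hfin N).toFinset w hw0 hwp hm
    refine ⟨M, fun k => x k ⟨0, hn⟩, p, ?_, ?_⟩
    · by_contra hcon
      push Not at hcon
      have h1 := hx ⟨0, hM⟩
      rw [Set.Finite.mem_toFinset] at h1
      apply h1.2.2
      ext i
      rw [hp i ⟨0, hM⟩]
      exact hcon _
    · intro k
      have h1 := hx k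
      rw [Set.Finite.mem_toFinset] at h1
      rw [← h1.1]
      apply Finset.sum_congr rfl
      intro i _
      rw [hp i k]
  · exfalso
    have hf : ∀ N : ℕ, ∃ f : Fin n → R → ℝ, (∀ t, ∑ i, f i t = 0) ∧
        ∀ x ∈ (hfin N).toFinset, 0 < ∑ i, f i (x i) := by
      intro N
      rcases duality hn (hfin N).toFinset with h | h
      · exact absurd ⟨N, h⟩ hcase
      · exact h
    choose f hf1 hf2 using hf
    obtain ⟨g, C, P, hC, hg1, hg2, ⟨x0, hx0, hx0p⟩, hg4⟩ := D.exists_limit a H1 H2 hn f hf1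
      (fun N x hx hxN hx0 => hf2 N x (by
        rw [Set.Finite.mem_toFinset]; exact ⟨hx, hxN, hx0⟩))
    exact D.no_certificate hn a H1 H2 g C P hC hg1 hg2 x0 hx0 hx0p hg4

end Emb

end

end Pool.Agent.U578.Smyth
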