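import Mathlib

set_option autoImplicit false

namespace Pool.Agent.U578.Smyth

noncomputable section

open Polynomial Finset

/-- The base polynomial. -/
def gP (A : Type*) [CommRing A] (d : ℕ) : A[X] :=
  X ^ 3 * ∏ i ∈ Finset.range d, (X - C ((4 * (i + 1) : ℕ) : A))

theorem gP_monic (A : Type*) [CommRing A] (d : ℕ) : (gP A d).Monic :=
  (monic_X_pow 3).mul (monic_prod_of_monic _ _ (fun _ _ => monic_X_sub_C _))

theorem gP_natDegree (A : Type*) [CommRing A] [Nontrivial A] (d : ℕ) :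
    (gP A d).natDegree = d + 3 := by
  unfold gP
  rw [(monic_X_pow 3).natDegree_mul (monic_prod_of_monic _ _ (fun _ _ => monic_X_sub_C _)),
    natDegree_X_pow, natDegree_prod_of_monic _ _ (fun _ _ => monic_X_sub_C _)]
  simp only [natDegree_X_sub_C, Finset.sum_const, Finset.card_range, smul_eq_mul, mul_one]
  ring

theorem gP_map {A B : Type*} [CommRing A] [CommRing B] (φ : A →+* B) (d : ℕ) :
    (gP A d).map φ = gP B d := by
  simp only [gP, Polynomial.map_mul, Polynomial.map_pow, map_X, Polynomial.map_prod,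
    Polynomial.map_sub, _root_.map_natCast, Polynomial.map_natCast]

/-- The polynomial. -/
def fP (A : Type*) [CommRing A] (d : ℕ) : A[X] := gP A d + C 2

theorem fP_map {A B : Type*} [CommRing A] [CommRing B] (φ : A →+* B) (d : ℕ) :
    (fP A d).map φ = fP B d := by
  simp only [fP, Polynomial.map_add, gP_map, _root_.map_ofNat, Polynomial.map_ofNat]

theorem fP_deg_aux (A : Type*) [CommRing A] [Nontrivial A] (d : ℕ) :
    (C (2 : A)).degree < (gP A d).degree := by
  refine lt_of_le_of_lt degree_C_le ?_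
  rw [degree_eq_natDegree (gP_monic A d).ne_zero, gP_natDegree]
  exact_mod_cast Nat.succ_pos _

theorem fP_monic (A : Type*) [CommRing A] [Nontrivial A] (d : ℕ) : (fP A d).Monic :=
  (gP_monic A d).add_of_left (fP_deg_aux A d)

theorem fP_natDegree (A : Type*) [CommRing A] [Nontrivial A] (d : ℕ) :
    (fP A d).natDegree = d + 3 := by
  unfold fP
  rw [natDegree_add_eq_left_of_degree_lt (fP_deg_aux A d), gP_natDegree]

theorem fP_coeff_zero (A : Type*) [CommRing A] (d : ℕ) : (fP A d).coeff 0 = 2 := by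
  unfold fP gP
  rw [coeff_add, mul_coeff_zero]
  simp

theorem fP_irreducible_int (d : ℕ) : Irreducible (fP ℤ d) := by
  have hprime : (Ideal.span {(2 : ℤ)}).IsPrime := by
    rw [Ideal.span_singleton_prime (by norm_num)]
    exact Int.prime_two
  apply irreducible_of_eisenstein_criterion hprime
  · rw [(fP_monic ℤ d).leadingCoeff, Ideal.mem_span_singleton]
    norm_num
  · intro n hn
    rw [Ideal.mem_span_singleton]
    have h1 : (fP ℤ d).map (Int.castRingHom (ZMod 2)) = X ^ (d + 3) := by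
      rw [fP_map]
      have h2 : (C (2 : ZMod 2) : (ZMod 2)[X]) = 0 := by
        have : (2 : ZMod 2) = 0 := by decide
        rw [this, C_0]
      have h3 : ∀ i : ℕ, (C ((4 * (i + 1) : ℕ) : ZMod 2) : (ZMod 2)[X]) = 0 := by
        intro i
        have : ((4 * (i + 1) : ℕ) : ZMod 2) = 0 := by
          rw [ZMod.natCast_eq_zero_iff]
          exact ⟨2 * (i + 1), by ring⟩
        rw [this, C_0]
      unfold fP gP
      rw [h2]
      simp only [h3, sub_zero, add_zero, Finset.prod_const, Finset.card_range]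
      ring
    have h4 : ((fP ℤ d).coeff n : ZMod 2) = 0 := by
      have := congrArg (fun p : (ZMod 2)[X] => p.coeff n) h1
      simp only [coeff_map, coeff_X_pow] at this
      rw [degree_eq_natDegree (fP_monic ℤ d).ne_zero, fP_natDegree] at hn
      have hn' : n < d + 3 := by exact_mod_cast hn
      rw [if_neg hn'.ne] at this
      simpa using this
    exact (ZMod.intCast_zmod_eq_zero_iff_dvd _ 2).mp h4
  · rw [degree_eq_natDegree (fP_monic ℤ d).ne_zero, fP_natDegree]
    exact_mod_cast Nat.succ_pos _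
  · rw [fP_coeff_zero, Ideal.span_singleton_pow, Ideal.mem_span_singleton]
    norm_num
  · exact (fP_monic ℤ d).isPrimitive

theorem fP_irreducible (d : ℕ) : Irreducible (fP ℚ d) := by
  have h := (IsPrimitive.Int.irreducible_iff_irreducible_map_cast
    (fP_monic ℤ d).isPrimitive).mp (fP_irreducible_int d)
  rwa [fP_map] at h

/-- The real function. -/
def gr (d : ℕ) (x : ℝ) : ℝ := x ^ 3 * ∏ i ∈ Finset.range d, (x - 4 * ((i : ℝ) + 1))

theorem fP_eval (d : ℕ) (x : ℝ) : (fP ℝ d).eval x = gr d x + 2 := by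
  unfold fP gP gr
  simp [eval_prod]

theorem gr_big (d k : ℕ) : 2 < |gr d (4 * k + 2)| := by
  unfold gr
  rw [abs_mul, Finset.abs_prod]
  have h1 : (8 : ℝ) ≤ |(4 * (k : ℝ) + 2) ^ 3| := by
    rw [abs_of_nonneg (by positivity)]
    have : (2 : ℝ) ≤ 4 * (k : ℝ) + 2 := by
      have : (0 : ℝ) ≤ k := Nat.cast_nonneg k
      linarith
    calc (8 : ℝ) = 2 ^ 3 := by norm_num
      _ ≤ (4 * (k : ℝ) + 2) ^ 3 := by gcongr
  have h2 : (1 : ℝ) ≤ ∏ i ∈ Finset.range d, |4 * (k : ℝ) + 2 - 4 * ((i : ℝ) + 1)| := by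
    have h0 : (1 : ℝ) = ∏ _i ∈ Finset.range d, (1 : ℝ) := by simp
    refine h0.trans_le (Finset.prod_le_prod (fun _ _ => zero_le_one) (fun i _ => ?_))
    have h3 : 4 * (k : ℝ) + 2 - 4 * ((i : ℝ) + 1) = ((4 * (k : ℤ) + 2 - 4 * ((i : ℤ) + 1) : ℤ) : ℝ) := by
      push_cast; ring
    rw [h3, ← Int.cast_abs]
    have h4 : (1 : ℤ) ≤ |4 * (k : ℤ) + 2 - 4 * ((i : ℤ) + 1)| := by
      apply Int.one_le_abs
      omega
    exact_mod_cast h4
  nlinarith

theorem gr_sign (d k : ℕ) (hk : k < d) : gr d (4 * k + 2) * gr d (4 * (k + 1 : ℕ) + 2) < 0 := by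
  unfold gr
  have h1 : ((4 * (k : ℝ) + 2) ^ 3 *
        ∏ i ∈ Finset.range d, (4 * (k : ℝ) + 2 - 4 * ((i : ℝ) + 1))) *
      ((4 * ((k + 1 : ℕ) : ℝ) + 2) ^ 3 *
        ∏ i ∈ Finset.range d, (4 * ((k + 1 : ℕ) : ℝ) + 2 - 4 * ((i : ℝ) + 1))) =
      ((4 * (k : ℝ) + 2) * (4 * ((k : ℝ) + 1) + 2)) ^ 3 *
      ∏ i ∈ Finset.range d, (16 * ((k : ℝ) - i) ^ 2 - 4) := by
    have h2 : ∏ i ∈ Finset.range d, (16 * ((k : ℝ) - i) ^ 2 - 4) =
        (∏ i ∈ Finset.range d, (4 * (k : ℝ) + 2 - 4 * ((i : ℝ) + 1))) *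
        ∏ i ∈ Finset.range d, (4 * ((k + 1 : ℕ) : ℝ) + 2 - 4 * ((i : ℝ) + 1)) := by
      rw [← Finset.prod_mul_distrib]
      apply Finset.prod_congr rfl
      intro i _
      push_cast
      ring
    rw [h2]
    push_cast
    ring
  rw [h1]
  have h3 : ∏ i ∈ Finset.range d, (16 * ((k : ℝ) - i) ^ 2 - 4) < 0 := by
    rw [← Finset.mul_prod_erase _ _ (Finset.mem_range.mpr hk)]
    have h4 : 0 < ∏ i ∈ (Finset.range d).erase k, (16 * ((k : ℝ) - i) ^ 2 - 4) := by
      apply Finset.prod_pos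
      intro i hi
      have hne : i ≠ k := Finset.ne_of_mem_erase hi
      have h5 : (1 : ℝ) ≤ ((k : ℝ) - i) ^ 2 := by
        have h6 : (1 : ℤ) ≤ ((k : ℤ) - i) ^ 2 := by
          have : (k : ℤ) - i ≠ 0 := by omega
          have := sq_pos_of_ne_zero this
          omega
        exact_mod_cast h6
      linarith
    have h7 : (16 * ((k : ℝ) - k) ^ 2 - 4) = -4 := by ring
    rw [h7]
    linarith
  have h8 : (0 : ℝ) < ((4 * (k : ℝ) + 2) * (4 * ((k : ℝ) + 1) + 2)) ^ 3 := by positivity
  exact mul_neg_of_pos_of_neg h8 h3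

theorem gr_continuous (d : ℕ) : Continuous (gr d) := by
  unfold gr
  fun_prop

theorem exists_root (d k : ℕ) (hk : k < d) :
    ∃ x : ℝ, x ∈ Set.Ioo (4 * (k : ℝ) + 2) (4 * (k : ℝ) + 6) ∧ (fP ℝ d).eval x = 0 := by
  have hs := gr_sign d k hk
  have ha := gr_big d k
  have hb := gr_big d (k + 1)
  have e : (4 * ((k + 1 : ℕ) : ℝ) + 2) = 4 * (k : ℝ) + 6 := by push_cast; ring
  rw [e] at hs hb
  set a := gr d (4 * (k : ℝ) + 2)
  set b := gr d (4 * (k : ℝ) + 6)
  have hlt : 4 * (k : ℝ) + 2 ≤ 4 * (k : ℝ) + 6 := by linarith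
  have hc : ContinuousOn (fun x => gr d x + 2) (Set.Icc (4 * (k : ℝ) + 2) (4 * (k : ℝ) + 6)) :=
    ((gr_continuous d).add continuous_const).continuousOn
  rcases mul_neg_iff.mp hs with ⟨h1, h2⟩ | ⟨h1, h2⟩
  · rw [abs_of_neg h2] at hb
    have h3 := intermediate_value_Ioo' hlt hc
    obtain ⟨x, hx, hx0⟩ := h3 (show (0 : ℝ) ∈ Set.Ioo _ _ from ⟨by
      show gr d (4 * (k : ℝ) + 6) + 2 < 0
      have : gr d (4 * (k : ℝ) + 6) = b := rfl
      linarith, by
      show 0 < gr d (4 * (k : ℝ) + 2) + 2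
      have : gr d (4 * (k : ℝ) + 2) = a := rfl
      linarith⟩)
    exact ⟨x, hx, by rw [fP_eval]; exact hx0⟩
  · rw [abs_of_neg h1] at ha
    have h3 := intermediate_value_Ioo hlt hc
    obtain ⟨x, hx, hx0⟩ := h3 (show (0 : ℝ) ∈ Set.Ioo _ _ from ⟨by
      show gr d (4 * (k : ℝ) + 2) + 2 < 0
      have : gr d (4 * (k : ℝ) + 2) = a := rfl
      linarith, by
      show 0 < gr d (4 * (k : ℝ) + 6) + 2
      have : gr d (4 * (k : ℝ) + 6) = b := rfl
      linarith⟩)
    exact ⟨x, hx, by rw [fP_eval]; exact hx0⟩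

theorem mem_rootSet_fP {A : Type*} [Field A] [Algebra ℚ A] (d : ℕ) (x : A) :
    x ∈ (fP ℚ d).rootSet A ↔ (fP A d).eval x = 0 := by
  have : CharZero A := algebraRat.charZero A
  rw [mem_rootSet, aeval_def, ← eval_map, fP_map]
  exact and_iff_right (fP_monic ℚ d).ne_zero

theorem card_real_ge (d : ℕ) : d ≤ Fintype.card ((fP ℚ d).rootSet ℝ) := by
  have h := fun k : Fin d => exists_root d k k.2
  choose x hx hx0 using h
  have hinj : Function.Injective (fun k : Fin d =>
      (⟨x k, (mem_rootSet_fP d _).mpr (hx0 k)⟩ : (fP ℚ d).rootSet ℝ)) := by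
    intro k l hkl
    have h1 : x k = x l := congrArg Subtype.val hkl
    have h2 := hx k
    have h3 := hx l
    rw [h1] at h2
    have h4 : ((k : ℕ) : ℝ) < (l : ℕ) + 1 := by linarith [h2.1, h3.2]
    have h5 : ((l : ℕ) : ℝ) < (k : ℕ) + 1 := by linarith [h2.2, h3.1]
    have h6 : (k : ℕ) < (l : ℕ) + 1 := by exact_mod_cast h4
    have h7 : (l : ℕ) < (k : ℕ) + 1 := by exact_mod_cast h5
    ext
    omega
  simpa using Fintype.card_le_of_injective _ hinj

theorem card_complex (d : ℕ) (A : Type*) [Field A] [Algebra ℚ A] [IsAlgClosed A] :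
    Fintype.card ((fP ℚ d).rootSet A) = d + 3 := by
  have : CharZero A := algebraRat.charZero A
  have h := card_rootSet_eq_natDegree (K := A) (fP_irreducible d).separable
    (IsAlgClosed.splits _)
  rw [fP_natDegree] at h
  exact h

theorem card_real_le (d : ℕ) : Fintype.card ((fP ℚ d).rootSet ℝ) + 1 ≤ d + 3 := by
  classical
  have h1 : Fintype.card ((fP ℚ d).rootSet ℝ) = (fP ℝ d).roots.toFinset.card := by
    simp_rw [rootSet_def, Finset.coe_sort_coe, Fintype.card_coe, aroots_def]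
    rw [fP_map]
  rw [h1]
  have h2 := card_roots_toFinset_le_derivative (fP ℝ d)
  -- the derivative is divisible by X^2
  have h3 : X ^ 2 ∣ derivative (fP ℝ d) := by
    unfold fP gP
    rw [derivative_add, derivative_C, add_zero, derivative_mul, derivative_X_pow]
    refine dvd_add ?_ ?_
    · refine Dvd.dvd.mul_right ?_ _
      exact Dvd.dvd.mul_left (by norm_num) _
    · refine Dvd.dvd.mul_right ?_ _
      exact pow_dvd_pow X (by norm_num)
  have hne : derivative (fP ℝ d) ≠ 0 := by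
    intro h
    have := Polynomial.derivative_eq_zero.mp h
    rw [fP_natDegree] at this
    omega
  have h4 : 2 ≤ (derivative (fP ℝ d)).roots.count 0 := by
    rw [count_roots]
    rw [le_rootMultiplicity_iff hne]
    simpa using h3
  have h5 : (derivative (fP ℝ d)).roots.toFinset.card + 1 ≤ (derivative (fP ℝ d)).roots.card := by
    set s := (derivative (fP ℝ d)).roots
    have h6 : s.toFinset.card ≤ (s.erase 0).card := by
      have h7 : s.toFinset ⊆ (s.erase 0).toFinset := by
        intro a ha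
        rw [Multiset.mem_toFinset] at ha ⊢
        by_cases h0 : a = 0
        · subst h0
          rw [← Multiset.count_pos, Multiset.count_erase_self]
          omega
        · exact (Multiset.mem_erase_of_ne h0).mpr ha
      exact (Finset.card_le_card h7).trans (Multiset.toFinset_card_le _)
    have h8 : 0 ∈ s := by
      rw [← Multiset.count_pos]; omega
    rw [Multiset.card_erase_of_mem h8] at h6
    have h9 : 0 < s.card := Multiset.card_pos_iff_exists_mem.mpr ⟨0, h8⟩
    have h10 : s.card.pred + 1 = s.card := Nat.succ_pred_eq_of_pos h9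
    omega
  have h6 : (derivative (fP ℝ d)).roots.card ≤ d + 2 := by
    refine (card_roots' _).trans ((natDegree_derivative_le _).trans ?_)
    rw [fP_natDegree]
    omega
  omega

instance splitsFact (f : ℚ[X]) (A : Type*) [Field A] [Algebra ℚ A] [IsAlgClosed A] :
    Fact ((f.map (algebraMap ℚ A)).Splits) := ⟨IsAlgClosed.splits _⟩

theorem gal_bij (d : ℕ) (hd : (d + 3).Prime) :
    Function.Bijective (Gal.galActionHom (fP ℚ d) ℂ) := by
  apply Gal.galActionHom_bijective_of_prime_degree' (fP_irreducible d)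
  · rw [fP_natDegree]; exact hd
  · rw [card_complex d ℂ]; exact card_real_le d
  · rw [card_complex d ℂ]
    have := card_real_ge d
    omega

end

end Pool.Agent.U578.Smyth
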