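import Mathlib
import Pool.Agent.U578.Poly

set_option autoImplicit false

namespace Pool.Agent.U578.Smyth

noncomputable section

open Polynomial Finset

variable {Ω : Type*} [Field Ω] [CharZero Ω] [IsAlgClosed Ω] [Algebra.IsAlgebraic ℚ Ω]

instance galΩ : IsGalois ℚ Ω := by
  have : IsAlgClosure ℚ Ω := ⟨inferInstance, inferInstance⟩
  have : Normal ℚ Ω := IsAlgClosure.normal ℚ Ω
  exact ⟨⟩

theorem gal_surj (d : ℕ) (hd : (d + 3).Prime) :
    Function.Surjective ((Gal.galActionHom (fP ℚ d) Ω).comp (Gal.restrict (fP ℚ d) Ω)) := by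
  classical
  have h1 : Function.Surjective (Gal.restrict (fP ℚ d) Ω) := Gal.restrict_surjective _ _
  have h2 : Function.Bijective (Gal.galActionHom (fP ℚ d) Ω) := by
    rw [Fintype.bijective_iff_injective_and_card]
    refine ⟨Gal.galActionHom_injective _ _, ?_⟩
    have h3 := Fintype.card_of_bijective (gal_bij d hd)
    rw [h3, Fintype.card_perm, Fintype.card_perm, card_complex d ℂ, card_complex d Ω]
  exact h2.2.comp h1

/-- Even permutations of the roots are realised by automorphisms fixing the roots of a given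
polynomial. -/
theorem even_realised (d : ℕ) (hd : (d + 3).Prime) (hd5 : 5 ≤ d + 3) (g : ℚ[X])
    (hg : Fintype.card (g.rootSet Ω) < d + 3) [DecidableEq ((fP ℚ d).rootSet Ω)]
    (τ : Equiv.Perm ((fP ℚ d).rootSet Ω)) (hτ : Equiv.Perm.sign τ = 1) :
    ∃ σ : Ω ≃ₐ[ℚ] Ω, (∀ x ∈ g.rootSet Ω, σ x = x) ∧
      ∀ x : (fP ℚ d).rootSet Ω, σ (x : Ω) = (τ x : Ω) := by
  classical
  let Φ := (Gal.galActionHom (fP ℚ d) Ω).comp (Gal.restrict (fP ℚ d) Ω)
  let Ψ := (Gal.galActionHom g Ω).comp (Gal.restrict g Ω)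
  have hΦ : ∀ (σ : Gal(Ω/ℚ)) (x : (fP ℚ d).rootSet Ω), ((Φ σ x : (fP ℚ d).rootSet Ω) : Ω) = σ x :=
    fun σ x => Gal.galActionHom_restrict _ _ σ x
  have hΨ : ∀ (σ : Gal(Ω/ℚ)) (x : g.rootSet Ω), ((Ψ σ x : g.rootSet Ω) : Ω) = σ x :=
    fun σ x => Gal.galActionHom_restrict _ _ σ x
  have hsurj : Function.Surjective Φ := gal_surj d hd
  let H := Ψ.ker.map Φ
  have hHn : H.Normal := Subgroup.Normal.map Ψ.normal_ker Φ hsurj
  have hnt : Nontrivial H := by
    rw [Subgroup.nontrivial_iff_ne_bot]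
    intro hbot
    choose s hs using hsurj
    have hinj : Function.Injective (fun τ => Ψ (s τ)) := by
      intro τ τ' h
      have h1 : (s τ)⁻¹ * s τ' ∈ Ψ.ker := by
        rw [MonoidHom.mem_ker, map_mul, map_inv]
        have h' : Ψ (s τ) = Ψ (s τ') := h
        rw [h', inv_mul_cancel]
      have h2 : Φ ((s τ)⁻¹ * s τ') ∈ H := Subgroup.mem_map_of_mem Φ h1
      rw [hbot, Subgroup.mem_bot, map_mul, map_inv, hs, hs] at h2
      exact (inv_mul_eq_one.mp h2)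
    have h3 := Fintype.card_le_of_injective _ hinj
    rw [Fintype.card_perm, Fintype.card_perm, card_complex d Ω] at h3
    have h4 : (Fintype.card (g.rootSet Ω)).factorial ≤ (d + 2).factorial :=
      Nat.factorial_le (by omega)
    have h5 : (d + 2).factorial < (d + 3).factorial := by
      rw [Nat.factorial_lt (by omega)]
      omega
    omega
  have hle : alternatingGroup ((fP ℚ d).rootSet Ω) ≤ H := by
    apply Equiv.Perm.alternatingGroup_le_of_normal _ hnt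
    rw [Nat.card_eq_fintype_card, card_complex]
    exact hd5
  have hτH : τ ∈ H := hle (Equiv.Perm.mem_alternatingGroup.mpr hτ)
  obtain ⟨σ, hσ, hστ⟩ := Subgroup.mem_map.mp hτH
  refine ⟨σ, ?_, ?_⟩
  · intro x hx
    have h1 := hΨ σ ⟨x, hx⟩
    rw [MonoidHom.mem_ker.mp hσ] at h1
    simpa using h1.symm
  · intro x
    rw [← hστ]
    exact (hΦ σ x).symm

theorem exists_prime_gt (N : ℕ) : ∃ d : ℕ, (d + 3).Prime ∧ N < d := by
  obtain ⟨p, hp, hprime⟩ := Nat.exists_infinite_primes (N + 4)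
  refine ⟨p - 3, ?_, by omega⟩
  have : p - 3 + 3 = p := by omega
  rw [this]; exact hprime

/-- Realisation of permutations by automorphisms. -/
theorem exists_auts (g : ℚ[X]) (M : ℕ) :
    ∃ (d : ℕ) (θ : Fin M → Ω) (z : Ω), 5 ≤ d ∧ (∀ l, θ l ∈ (fP ℚ d).rootSet Ω) ∧
      z ∈ (fP ℚ d).rootSet Ω ∧ (∀ l, θ l ≠ z) ∧
      (∀ p : Equiv.Perm (Fin M), ∃ σ : Ω ≃ₐ[ℚ] Ω, (∀ x ∈ g.rootSet Ω, σ x = x) ∧
        ∀ l, σ (θ l) = θ (p l)) ∧
      (∀ l, ∃ σ : Ω ≃ₐ[ℚ] Ω, (∀ x ∈ g.rootSet Ω, σ x = x) ∧ σ (θ l) = z ∧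
        ∀ l', l' ≠ l → σ (θ l') = θ l') ∧
      (∀ l, ∀ x y : Ω, x ∈ (fP ℚ d).rootSet Ω → y ∈ (fP ℚ d).rootSet Ω → x ≠ y →
        ∃ σ : Ω ≃ₐ[ℚ] Ω, σ (θ l) = x ∧ σ z = y) := by
  classical
  obtain ⟨d, hd, hdN⟩ := exists_prime_gt (M + 5 + Fintype.card (g.rootSet Ω))
  have hcard : Fintype.card ((fP ℚ d).rootSet Ω) = d + 3 := card_complex d Ω
  let e : Fin (d + 3) ≃ (fP ℚ d).rootSet Ω := (Fintype.equivFinOfCardEq hcard).symm
  let j : Fin M ↪ (fP ℚ d).rootSet Ω :=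
    ⟨fun l => e ⟨l, by omega⟩, fun a b h => by
      have := e.injective h
      simpa [Fin.ext_iff] using this⟩
  let z : (fP ℚ d).rootSet Ω := e ⟨M, by omega⟩
  let z' : (fP ℚ d).rootSet Ω := e ⟨M + 1, by omega⟩
  have hzz' : z ≠ z' := by
    intro h
    have := e.injective h
    simp [Fin.ext_iff] at this
  have hjz : ∀ l, j l ≠ z := by
    intro l h
    have := e.injective h
    simp only [Fin.ext_iff] at this
    omega
  have hjz' : ∀ l, j l ≠ z' := by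
    intro l h
    have := e.injective h
    simp only [Fin.ext_iff] at this
    omega
  have hreal : ∀ τ : Equiv.Perm ((fP ℚ d).rootSet Ω), Equiv.Perm.sign τ = 1 →
      ∃ σ : Ω ≃ₐ[ℚ] Ω, (∀ x ∈ g.rootSet Ω, σ x = x) ∧
      ∀ x : (fP ℚ d).rootSet Ω, σ (x : Ω) = (τ x : Ω) :=
    fun τ hτ => even_realised d hd (by omega) g (by omega) τ hτ
  refine ⟨d, fun l => (j l : Ω), z, by omega, fun l => (j l).2, z.2, ?_, ?_, ?_, ?_⟩
  · intro l h
    exact hjz l (Subtype.ext h)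
  · intro p
    let τ0 := p.viaFintypeEmbedding j
    have hτ0 : ∀ l, τ0 (j l) = j (p l) := fun l =>
      Equiv.Perm.viaFintypeEmbedding_apply_image p j l
    rcases Int.units_eq_one_or (Equiv.Perm.sign τ0) with h | h
    · obtain ⟨σ, h1, h2⟩ := hreal τ0 h
      exact ⟨σ, h1, fun l => by rw [h2, hτ0]⟩
    · obtain ⟨σ, h1, h2⟩ := hreal (τ0 * Equiv.swap z z') (by
        rw [Equiv.Perm.sign_mul, h, Equiv.Perm.sign_swap hzz']; rfl)
      refine ⟨σ, h1, fun l => ?_⟩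
      rw [h2, Equiv.Perm.mul_apply, Equiv.swap_apply_of_ne_of_ne (hjz l) (hjz' l), hτ0]
  · intro l
    obtain ⟨σ, h1, h2⟩ := hreal (Equiv.swap (j l) z' * Equiv.swap (j l) z) (by
        rw [Equiv.Perm.sign_mul, Equiv.Perm.sign_swap (hjz' l), Equiv.Perm.sign_swap (hjz l)]; rfl)
    refine ⟨σ, h1, ?_, ?_⟩
    · rw [h2, Equiv.Perm.mul_apply, Equiv.swap_apply_left,
        Equiv.swap_apply_of_ne_of_ne (hjz l).symm hzz']
    · intro l' hl'
      have hne : j l' ≠ j l := fun h => hl' (j.injective h)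
      rw [h2, Equiv.Perm.mul_apply, Equiv.swap_apply_of_ne_of_ne hne (hjz l'),
        Equiv.swap_apply_of_ne_of_ne hne (hjz' l')]
  · intro l x y hx hy hxy
    -- a permutation with j l ↦ x, z ↦ y
    let x' : (fP ℚ d).rootSet Ω := ⟨x, hx⟩
    let y' : (fP ℚ d).rootSet Ω := ⟨y, hy⟩
    have hxy' : x' ≠ y' := fun h => hxy (congrArg Subtype.val h)
    obtain ⟨τ, hτ1, hτ2⟩ : ∃ τ : Equiv.Perm ((fP ℚ d).rootSet Ω), τ (j l) = x' ∧ τ z = y' := by
      let τ1 := Equiv.swap (j l) x'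
      have h1 : τ1 (j l) = x' := Equiv.swap_apply_left _ _
      have h2 : τ1 z ≠ x' := fun h => hjz l (τ1.injective (h1.trans h.symm))
      refine ⟨Equiv.swap (τ1 z) y' * τ1, ?_, ?_⟩
      · rw [Equiv.Perm.mul_apply, h1, Equiv.swap_apply_of_ne_of_ne h2.symm hxy']
      · rw [Equiv.Perm.mul_apply, Equiv.swap_apply_left]
    obtain ⟨σ, hσ⟩ := gal_surj (Ω := Ω) d hd τ
    have hact : ∀ w : (fP ℚ d).rootSet Ω, σ (w : Ω) = (τ w : Ω) := by
      intro w
      rw [← hσ]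
      exact (Gal.galActionHom_restrict _ _ σ w).symm
    exact ⟨σ, by rw [hact, hτ1], by rw [hact, hτ2]⟩

end

end Pool.Agent.U578.Smyth
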