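import Mathlib
import Pool.Agent.U578.Final
import Pool.Agent.U578.SymGal

set_option autoImplicit false

namespace Pool.Agent.U578.Smyth

noncomputable section

open Polynomial Finset NumberField

instance fintypeWC (L : Type) [Field L] [NumberField L] :
    Fintype {w : InfinitePlace L // w.IsComplex} := Fintype.ofFinite _

/-- The embedding data of a totally complex number field. -/
def embTC (L : Type) [Field L] [NumberField L] (htc : ∀ w : InfinitePlace L, w.IsComplex) :
    Emb (𝓞 L) {w : InfinitePlace L // w.IsComplex} (Module.Free.ChooseBasisIndex ℤ (𝓞 L)) := by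
  have hempty : IsEmpty {w : InfinitePlace L // w.IsReal} :=
    ⟨fun w => InfinitePlace.not_isComplex_iff_isReal.mpr w.2 (htc w.1)⟩
  let E : mixedEmbedding.mixedSpace L ≃ₗ[ℝ] ({w : InfinitePlace L // w.IsComplex} → ℂ) :=
    { LinearMap.snd ℝ ({w : InfinitePlace L // w.IsReal} → ℝ)
        ({w : InfinitePlace L // w.IsComplex} → ℂ) with
      invFun := fun x => (0, x)
      left_inv := fun x => Prod.ext (Subsingleton.elim _ _) rfl
      right_inv := fun x => rfl }
  let B := (mixedEmbedding.latticeBasis L).map E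
  have hB : ∀ k, B k = fun w : {w : InfinitePlace L // w.IsComplex} =>
      (w.1.embedding.comp (algebraMap (𝓞 L) L)) (RingOfIntegers.basis L k) := by
    intro k
    simp only [B, Module.Basis.map_apply, mixedEmbedding.latticeBasis_apply, integralBasis_apply]
    ext w
    exact mixedEmbedding.mixedEmbedding_apply_isComplex L _ w
  exact
    { σ := fun w => w.1.embedding.comp (algebraMap (𝓞 L) L)
      e := RingOfIntegers.basis L
      inj := fun w => by
        rw [RingHom.coe_comp]
        exact w.1.embedding.injective.comp RingOfIntegers.coe_injective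
      ne := by
        obtain ⟨w⟩ := (inferInstance : Nonempty (InfinitePlace L))
        exact ⟨⟨w, htc w⟩⟩
      li := by
        have := B.linearIndependent
        have h2 : (fun k => B k) = fun k => (fun w : {w : InfinitePlace L // w.IsComplex} =>
          (w.1.embedding.comp (algebraMap (𝓞 L) L)) (RingOfIntegers.basis L k)) := funext hB
        rw [← h2]
        exact this
      sp := by
        have h2 : (fun k => B k) = fun k => (fun w : {w : InfinitePlace L // w.IsComplex} =>
          (w.1.embedding.comp (algebraMap (𝓞 L) L)) (RingOfIntegers.basis L k)) := funext hB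
        rw [← h2]
        exact B.span_eq.ge }

theorem embTC_σ (L : Type) [Field L] [NumberField L] (htc : ∀ w : InfinitePlace L, w.IsComplex)
    (w : {w : InfinitePlace L // w.IsComplex}) (x : 𝓞 L) :
    (embTC L htc).σ w x = w.1.embedding (x : L) := rfl

/-- Automorphisms fixing the roots of the minimal polynomial of a primitive element. -/
theorem fix_of_fix_roots {Ω : Type*} [Field Ω] [CharZero Ω] (L : Type) [Field L] [NumberField L]
    [Algebra L Ω] : ∃ g : ℚ[X], ∀ σ : Ω ≃ₐ[ℚ] Ω, (∀ x ∈ g.rootSet Ω, σ x = x) →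
      ∀ y : L, σ (algebraMap L Ω y) = algebraMap L Ω y := by
  let pb := Field.powerBasisOfFiniteOfSeparable ℚ L
  refine ⟨minpoly ℚ pb.gen, fun σ hσ y => ?_⟩
  let f : L →ₐ[ℚ] Ω := (algebraMap L Ω).toRatAlgHom
  let h : L →ₐ[ℚ] Ω := (σ : Ω →ₐ[ℚ] Ω).comp f
  have hroot : f pb.gen ∈ (minpoly ℚ pb.gen).rootSet Ω := by
    rw [mem_rootSet]
    refine ⟨minpoly.ne_zero pb.isIntegral_gen, ?_⟩
    rw [aeval_algHom_apply, minpoly.aeval, map_zero]
  have heq : h = f := by
    apply pb.algHom_ext
    exact hσ _ hroot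
  exact congrArg (fun k : L →ₐ[ℚ] Ω => k y) heq

/-- Sufficiency of the local conditions. -/
theorem smyth_suff (K : Type) [Field K] [NumberField K] {n : ℕ} (hn : 0 < n) (a : Fin n → 𝓞 K)
    (H1 : ∀ (v : InfinitePlace K) (i : Fin n), v (a i : K) < ∑ j ∈ univ.erase i, v (a j : K))
    (H2 : ∀ i, ∃ x : Fin n → 𝓞 K, x i = 1 ∧ ∑ j, a j * x j = 0) :
    ∃ α : Fin n → AlgebraicClosure K, (∀ i, α i ≠ 0) ∧
      (∀ i j, minpoly K (α i) = minpoly K (α j)) ∧
      ∑ i, algebraMap K (AlgebraicClosure K) (a i : K) * α i = 0 := by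
  classical
  let Ω := AlgebraicClosure K
  have : CharZero Ω := charZero_of_injective_algebraMap (algebraMap K Ω).injective
  have : Algebra.IsAlgebraic ℚ Ω := Algebra.IsAlgebraic.trans ℚ K Ω
  obtain ⟨I, hI⟩ : ∃ I : Ω, I ^ 2 = -1 := IsAlgClosed.exists_pow_nat_eq (-1) (by norm_num)
  have hIint : IsIntegral K I := Algebra.IsIntegral.isIntegral I
  let K' := IntermediateField.adjoin K {I}
  have : FiniteDimensional K K' := IntermediateField.adjoin.finiteDimensional hIint
  have : NumberField K' := NumberField.of_module_finite K K'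
  let J : K' := ⟨I, IntermediateField.mem_adjoin_simple_self K I⟩
  have hJ : J ^ 2 = -1 := by
    apply Subtype.ext
    exact hI
  have htc : ∀ w : InfinitePlace K', w.IsComplex := by
    intro w
    by_contra hcon
    rw [InfinitePlace.not_isComplex_iff_isReal] at hcon
    let φ := InfinitePlace.embedding_of_isReal hcon
    have h1 : (φ J) ^ 2 = -1 := by
      rw [← map_pow, hJ, map_neg, map_one]
    nlinarith [sq_nonneg (φ J)]
  let D := embTC K' htc
  let φ : 𝓞 K →+* 𝓞 K' := RingOfIntegers.mapRingHom (algebraMap K K')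
  have hφ : ∀ x : 𝓞 K, ((φ x : 𝓞 K') : K') = algebraMap K K' (x : K) := fun x => rfl
  obtain ⟨M, v, p, ⟨k0, hk0⟩, hv⟩ := D.main_perm hn (fun i => φ (a i)) (by
    intro w i
    have h1 : ∀ j, ‖D.σ w (φ (a j))‖ = (w.1.comap (algebraMap K K')) (a j : K) := by
      intro j
      rw [InfinitePlace.comap_apply, ← hφ, ← InfinitePlace.norm_embedding_eq]
      rfl
    simp_rw [h1]
    exact H1 _ i) (by
    intro i
    obtain ⟨x, hx1, hx⟩ := H2 i
    refine ⟨fun j => φ (x j), by simp [hx1], ?_⟩
    simp only [← map_mul]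
    rw [← map_sum, hx, map_zero])
  obtain ⟨g, hg⟩ := fix_of_fix_roots (Ω := Ω) K'
  obtain ⟨d, θ, z, -, -, -, hθz, hperm, hcyc, -⟩ := exists_auts (Ω := Ω) g M
  let vv : Fin M → Ω := fun l => algebraMap K' Ω (v l : K')
  have hvv : ∀ k, ∑ i, algebraMap K Ω (a i : K) * vv (p i k) = 0 := by
    intro k
    have h1 := congrArg (fun x : 𝓞 K' => algebraMap K' Ω (x : K')) (hv k)
    simp only [map_sum, map_mul, map_zero] at h1
    rw [← h1]
    apply Finset.sum_congr rfl
    intro i _
    have h2 : algebraMap K' Ω ((algebraMap (𝓞 K') K') (φ (a i))) =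
        algebraMap K Ω (a i : K) := by
      show algebraMap K' Ω (algebraMap K K' (a i : K)) = _
      rw [← IsScalarTower.algebraMap_apply K K' Ω]
    rw [h2]
  let γ : Ω := ∑ l, vv l * θ l
  choose σ hσ1 hσ2 using fun i => hperm (p i)⁻¹
  have hfix : ∀ i l, σ i (vv l) = vv l := fun i l => hg (σ i) (hσ1 i) _
  have hγσ : ∀ i, σ i γ = ∑ k, vv (p i k) * θ k := by
    intro i
    simp only [γ, map_sum, map_mul, hfix, hσ2]
    rw [← Equiv.sum_comp (p i)]
    apply Finset.sum_congr rfl
    intro k _
    simp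
  have hγ : γ ≠ 0 := by
    intro h0
    obtain ⟨τ, hτ1, hτ2, hτ3⟩ := hcyc k0
    have h1 : τ γ = ∑ l, vv l * τ (θ l) := by
      simp only [γ, map_sum, map_mul]
      apply Finset.sum_congr rfl
      intro l _
      rw [show τ (vv l) = vv l from hg τ hτ1 _]
    rw [h0, map_zero, ← Finset.add_sum_erase _ _ (mem_univ k0), hτ2] at h1
    have h2 : ∑ l ∈ univ.erase k0, vv l * τ (θ l) = ∑ l ∈ univ.erase k0, vv l * θ l := by
      apply Finset.sum_congr rfl
      intro l hl
      rw [hτ3 l (Finset.ne_of_mem_erase hl)]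
    rw [h2] at h1
    have h3 : γ = vv k0 * θ k0 + ∑ l ∈ univ.erase k0, vv l * θ l :=
      (Finset.add_sum_erase _ _ (mem_univ k0)).symm
    rw [h0] at h3
    have h4 : vv k0 * (θ k0 - z) = 0 := by linear_combination h1 - h3
    rcases mul_eq_zero.mp h4 with h5 | h5
    · apply hk0
      have h6 : (v k0 : K') = 0 := (map_eq_zero (algebraMap K' Ω)).mp h5
      exact RingOfIntegers.coe_eq_zero_iff.mp h6
    · exact hθz k0 (sub_eq_zero.mp h5)
  let σK : Fin n → (Ω ≃ₐ[K] Ω) := fun i =>
    AlgEquiv.ofRingEquiv (f := (σ i).toRingEquiv) (fun c => by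
      have h1 := hg (σ i) (hσ1 i) (algebraMap K K' c)
      rw [← IsScalarTower.algebraMap_apply K K' Ω] at h1
      exact h1)
  have hσK : ∀ i x, σK i x = σ i x := fun i x => rfl
  refine ⟨fun i => σ i γ, ?_, ?_, ?_⟩
  · intro i
    exact (map_ne_zero_iff _ (σ i).injective).mpr hγ
  · intro i j
    have h1 : ∀ i, minpoly K (σ i γ) = minpoly K γ := by
      intro i
      rw [← hσK]
      exact minpoly.algEquiv_eq (σK i) γ
    rw [h1, h1]
  · simp_rw [hγσ]
    have h1 : ∀ i, algebraMap K Ω (a i : K) * ∑ k, vv (p i k) * θ k =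
        ∑ k, (algebraMap K Ω (a i : K) * vv (p i k)) * θ k := by
      intro i
      rw [Finset.mul_sum]
      apply Finset.sum_congr rfl
      intro k _
      ring
    show ∑ i, algebraMap K Ω (a i : K) * ∑ k, vv (p i k) * θ k = 0
    simp_rw [h1]
    rw [Finset.sum_comm]
    apply Finset.sum_eq_zero
    intro k _
    rw [← Finset.sum_mul, hvv, zero_mul]

end

end Pool.Agent.U578.Smyth
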