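import Mathlib
import Pool.Agent.U578.Suff

set_option autoImplicit false

namespace Pool.Agent.U578.Smyth

noncomputable section

open Polynomial Finset NumberField

theorem algQ : @Algebra.IsAlgebraic ℚ (AlgebraicClosure ℚ) _ _ DivisionRing.toRatAlgebra := by
  have h := AlgebraicClosure.isAlgebraic ℚ
  have e : (DivisionRing.toRatAlgebra : Algebra ℚ (AlgebraicClosure ℚ)) =
    AlgebraicClosure.instAlgebra ℚ := Subsingleton.elim _ _
  rw [e]; exact h

/-- Integral form of the combinatorial theorem. -/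
theorem int_perm' (Ω : Type) [Field Ω] [CharZero Ω] [IsAlgClosed Ω] [Algebra.IsAlgebraic ℚ Ω]
    {n : ℕ} (hn : 0 < n) (b : Fin n → ℤ)
    (H1 : ∀ i, |b i| < ∑ j ∈ univ.erase i, |b j|)
    (H2 : ∀ i, ∃ x : Fin n → ℤ, x i = 1 ∧ ∑ j, b j * x j = 0) :
    ∃ (M : ℕ) (v : Fin M → ℤ) (p : Fin n → Equiv.Perm (Fin M)), (∃ k, v k ≠ 0) ∧
      ∀ k, ∑ i, b i * v (p i k) = 0 := by
  classical
  obtain ⟨I, hI⟩ : ∃ I : Ω, I ^ 2 = -1 := IsAlgClosed.exists_pow_nat_eq (-1) (by norm_num)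
  have hIint : IsIntegral ℚ I := Algebra.IsIntegral.isIntegral I
  let K' := IntermediateField.adjoin ℚ {I}
  have : FiniteDimensional ℚ K' := IntermediateField.adjoin.finiteDimensional hIint
  have : NumberField K' := { to_charZero := inferInstance, to_finiteDimensional := inferInstance }
  let J : K' := ⟨I, IntermediateField.mem_adjoin_simple_self ℚ I⟩
  have hJ : J ^ 2 = -1 := by
    apply Subtype.ext
    exact hI
  have htc : ∀ w : InfinitePlace K', w.IsComplex := by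
    intro w
    by_contra hcon
    rw [InfinitePlace.not_isComplex_iff_isReal] at hcon
    let φ := InfinitePlace.embedding_of_isReal hcon
    have h1 : (φ J) ^ 2 = -1 := by
      rw [← map_pow, hJ, map_neg, map_one]
    nlinarith [sq_nonneg (φ J)]
  let D := embTC K' htc
  obtain ⟨M, v, p, ⟨k0, hk0⟩, hv⟩ := D.main_perm hn (fun i => ((b i : ℤ) : 𝓞 K')) (by
    intro w i
    have h1 : ∀ j, ‖D.σ w ((b j : ℤ) : 𝓞 K')‖ = ((|b j| : ℤ) : ℝ) := by
      intro j
      rw [map_intCast, Complex.norm_intCast, Int.cast_abs]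
    simp_rw [h1]
    exact_mod_cast H1 i) (by
    intro i
    obtain ⟨x, hx1, hx⟩ := H2 i
    refine ⟨fun j => ((x j : ℤ) : 𝓞 K'), by simp [hx1], ?_⟩
    show ∑ j, ((b j : ℤ) : 𝓞 K') * ((x j : ℤ) : 𝓞 K') = 0
    exact_mod_cast congrArg (Int.cast : ℤ → 𝓞 K') hx)
  -- a coordinate
  have hrep : D.e.repr (v k0) ≠ 0 := fun h => hk0 ((map_eq_zero_iff _ D.e.repr.injective).mp h)
  obtain ⟨c, hc⟩ := Finsupp.ne_iff.mp hrep
  refine ⟨M, fun k => D.e.repr (v k) c, p, ⟨k0, hc⟩, fun k => ?_⟩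
  have h1 := congrArg (fun x => D.e.repr x c) (hv k)
  have h2 : ∀ i, ((b i : ℤ) : 𝓞 K') * v (p i k) = b i • v (p i k) := fun i => by
    rw [zsmul_eq_mul]
  simp only [h2] at h1
  rw [map_sum, Finsupp.finsetSum_apply] at h1
  simp only [map_smul, Finsupp.smul_apply, smul_eq_mul, map_zero,
    Finsupp.zero_apply] at h1
  exact h1

theorem prod_zpow_sum {G : Type*} [Field G] {x : G} (hx : x ≠ 0) {ι : Type*}
    (s : Finset ι) (f : ι → ℤ) : ∏ i ∈ s, x ^ f i = x ^ (∑ i ∈ s, f i) := by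
  classical
  induction s using Finset.induction_on with
  | empty => simp
  | insert a s ha ih => rw [Finset.prod_insert ha, Finset.sum_insert ha, zpow_add₀ hx, ih]

/-- The strict case of the multiplicative conjecture. -/
theorem mult_strict' (Ω : Type) [Field Ω] [CharZero Ω] [IsAlgClosed Ω] [Algebra.IsAlgebraic ℚ Ω]
    {n : ℕ} (hn : 0 < n) (b : Fin n → ℤ)
    (H1 : ∀ i, |b i| < ∑ j ∈ univ.erase i, |b j|)
    (H2 : ∀ i, ∃ x : Fin n → ℤ, x i = 1 ∧ ∑ j, b j * x j = 0) :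
    ∃ c : Fin n → ℂ, (∀ i, c i ≠ 0) ∧ (∀ i, IsAlgebraic ℚ (c i)) ∧
      (∀ i j, minpoly ℚ (c i) = minpoly ℚ (c j)) ∧ (∏ i, c i ^ b i = 1) ∧
      ∀ i, ∀ m : ℕ, 0 < m → c i ^ m ≠ 1 := by
  classical
  obtain ⟨M, v, p, ⟨k0, hk0⟩, hv⟩ := int_perm' Ω hn b H1 H2
  obtain ⟨d, θ, z, hd, hθ, hz, hθz, hperm, hcyc, hpair⟩ := exists_auts (Ω := Ω) 1 M
  have hne : ∀ x : Ω, x ∈ (fP ℚ d).rootSet Ω → x ≠ 0 := by
    intro x hx h0
    rw [mem_rootSet_fP, h0, ← coeff_zero_eq_eval_zero, fP_coeff_zero] at hx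
    exact two_ne_zero hx
  have hθ0 : ∀ l, θ l ≠ 0 := fun l => hne _ (hθ l)
  have hz0 : z ≠ 0 := hne _ hz
  let γ : Ω := ∏ l, θ l ^ v l
  have hγ0 : γ ≠ 0 := Finset.prod_ne_zero_iff.mpr (fun l _ => zpow_ne_zero _ (hθ0 l))
  choose σ hσ1 hσ2 using fun i => hperm (p i)⁻¹
  have hγσ : ∀ i, σ i γ = ∏ k, θ k ^ v (p i k) := by
    intro i
    simp only [γ, map_prod, map_zpow₀, hσ2]
    rw [← Equiv.prod_comp (p i)]
    apply Finset.prod_congr rfl
    intro k _
    simp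
  -- the relation
  have hrel : ∏ i, (σ i γ) ^ b i = 1 := by
    simp_rw [hγσ, ← Finset.prod_zpow, ← zpow_mul]
    rw [Finset.prod_comm]
    apply Finset.prod_eq_one
    intro k _
    have h1 : ∏ i, θ k ^ (v (p i k) * b i) = θ k ^ (∑ i, b i * v (p i k)) := by
      rw [← prod_zpow_sum (hθ0 k)]
      apply Finset.prod_congr rfl
      intro i _
      rw [mul_comm]
    rw [h1, hv k, zpow_zero]
  -- not a root of unity
  have hroot : ∀ m : ℕ, 0 < m → γ ^ m ≠ 1 := by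
    intro m hm h1
    obtain ⟨τ, -, hτ2, hτ3⟩ := hcyc k0
    have h2 : (τ γ) ^ m = 1 := by rw [← map_pow, h1, map_one]
    have h3 : τ γ = z ^ v k0 * ∏ l ∈ univ.erase k0, θ l ^ v l := by
      simp only [γ, map_prod, map_zpow₀]
      rw [← Finset.mul_prod_erase _ _ (mem_univ k0), hτ2]
      congr 1
      apply Finset.prod_congr rfl
      intro l hl
      rw [hτ3 l (Finset.ne_of_mem_erase hl)]
    have h4 : γ = θ k0 ^ v k0 * ∏ l ∈ univ.erase k0, θ l ^ v l :=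
      (Finset.mul_prod_erase _ _ (mem_univ k0)).symm
    have hP : (∏ l ∈ univ.erase k0, θ l ^ v l) ≠ 0 :=
      Finset.prod_ne_zero_iff.mpr (fun l _ => zpow_ne_zero _ (hθ0 l))
    rw [h3, mul_pow] at h2
    rw [h4, mul_pow] at h1
    have h5 : (θ k0 ^ v k0) ^ m = (z ^ v k0) ^ m :=
      mul_right_cancel₀ (pow_ne_zero m hP) (h1.trans h2.symm)
    have h6 : θ k0 ^ (v k0 * m) = z ^ (v k0 * m) := by
      rw [zpow_mul, zpow_mul]
      exact_mod_cast h5
    have hN : v k0 * m ≠ 0 := mul_ne_zero hk0 (by exact_mod_cast hm.ne')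
    -- two real roots
    let ψ : Ω →ₐ[ℚ] ℂ := IsAlgClosed.lift
    have hreal : ∀ k : ℕ, k < d → ∃ x ∈ (fP ℚ d).rootSet Ω, ∃ r : ℝ, ψ x = r ∧
        r ∈ Set.Ioo (4 * (k : ℝ) + 2) (4 * (k : ℝ) + 6) := by
      intro k hk
      obtain ⟨r, hr, hr0⟩ := exists_root d k hk
      have h7 : ((r : ℝ) : ℂ) ∈ (fP ℚ d).rootSet ℂ := by
        rw [mem_rootSet_fP]
        have h8 : fP ℂ d = (fP ℝ d).map Complex.ofRealHom := (fP_map _ _).symm
        have h9 : ((r : ℝ) : ℂ) = Complex.ofRealHom r := rfl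
        rw [h8, h9, eval_map_apply, hr0, map_zero]
      have h10 : ψ '' (fP ℚ d).rootSet Ω = (fP ℚ d).rootSet ℂ := by
        have hsub : ψ '' (fP ℚ d).rootSet Ω ⊆ (fP ℚ d).rootSet ℂ := by
          rintro _ ⟨x, hx, rfl⟩
          rw [mem_rootSet] at hx ⊢
          refine ⟨hx.1, ?_⟩
          rw [aeval_algHom_apply, hx.2, map_zero]
        apply Set.eq_of_subset_of_ncard_le hsub _ (rootSet_finite _ _)
        rw [Set.ncard_image_of_injective _ (show Function.Injective ⇑ψ from ψ.injective), ← Nat.card_coe_set_eq,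
          ← Nat.card_coe_set_eq, Nat.card_eq_fintype_card, Nat.card_eq_fintype_card,
          card_complex, card_complex]
      rw [← h10] at h7
      obtain ⟨x, hx, hxr⟩ := h7
      exact ⟨x, hx, r, hxr, hr⟩
    obtain ⟨x, hx, r, hxr, hr⟩ := hreal 0 (by omega)
    obtain ⟨y, hy, s, hys, hs⟩ := hreal 1 (by omega)
    have hr1 : 0 < r ∧ r < 6 := by
      constructor
      · have := hr.1; push_cast at this; linarith
      · have := hr.2; push_cast at this; linarith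
    have hs1 : 6 < s := by
      have := hs.1; push_cast at this; linarith
    have hxy : x ≠ y := by
      intro h
      rw [h, hys] at hxr
      have : s = r := by exact_mod_cast hxr
      linarith [hr1.2]
    obtain ⟨ρ, hρ1, hρ2⟩ := hpair k0 x y hx hy hxy
    have h11 : x ^ (v k0 * m) = y ^ (v k0 * m) := by
      rw [← hρ1, ← hρ2, ← map_zpow₀, ← map_zpow₀, h6]
    have h12 : (r : ℂ) ^ (v k0 * m) = (s : ℂ) ^ (v k0 * m) := by
      rw [← hxr, ← hys, ← map_zpow₀, ← map_zpow₀, h11]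
    have h13 : r ^ (v k0 * m) = s ^ (v k0 * m) := by exact_mod_cast h12
    have h14 := (zpow_left_inj₀ hr1.1.le (by linarith) hN).mp h13
    linarith [hr1.2]
  let ψ : Ω →ₐ[ℚ] ℂ := IsAlgClosed.lift
  refine ⟨fun i => ψ (σ i γ), ?_, ?_, ?_, ?_, ?_⟩
  · intro i
    exact (map_ne_zero_iff _ ψ.injective).mpr ((map_ne_zero_iff _ (σ i).injective).mpr hγ0)
  · intro i
    exact (Algebra.IsAlgebraic.isAlgebraic (R := ℚ) (σ i γ)).algHom ψ
  · intro i j
    show minpoly ℚ (ψ (σ i γ)) = minpoly ℚ (ψ (σ j γ))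
    rw [minpoly.algHom_eq ψ ψ.injective, minpoly.algHom_eq ψ ψ.injective,
      minpoly.algEquiv_eq, minpoly.algEquiv_eq]
  · have h1 := congrArg ψ hrel
    rw [map_prod, map_one] at h1
    simpa only [map_zpow₀] using h1
  · intro i m hm h1
    have h2 : ψ ((σ i γ) ^ m) = ψ 1 := by rw [map_pow, map_one]; exact h1
    have h3 := ψ.injective h2
    have h4 : σ i (γ ^ m) = σ i 1 := by rw [map_pow, map_one]; exact h3
    exact hroot m hm ((σ i).injective h4)

/-- The strict case of the multiplicative conjecture. -/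
theorem mult_strict {n : ℕ} (hn : 0 < n) (b : Fin n → ℤ)
    (H1 : ∀ i, |b i| < ∑ j ∈ univ.erase i, |b j|)
    (H2 : ∀ i, ∃ x : Fin n → ℤ, x i = 1 ∧ ∑ j, b j * x j = 0) :
    ∃ c : Fin n → ℂ, (∀ i, c i ≠ 0) ∧ (∀ i, IsAlgebraic ℚ (c i)) ∧
      (∀ i j, minpoly ℚ (c i) = minpoly ℚ (c j)) ∧ (∏ i, c i ^ b i = 1) ∧
      ∀ i, ∀ m : ℕ, 0 < m → c i ^ m ≠ 1 :=
  @mult_strict' (AlgebraicClosure ℚ) _ _ _ algQ n hn b H1 H2

end

end Pool.Agent.U578.Smyth
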