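import Mathlib

set_option autoImplicit false

namespace Pool.Agent.U578.Smyth

noncomputable section

open Polynomial Finset

/-- A square integer matrix annihilating a vector of group elements: the determinant kills it. -/
theorem det_smul_eq_zero {A T : Type*} [AddCommGroup A] [Fintype T] [DecidableEq T]
    (B : Matrix T T ℤ) (u : T → A) (h : ∀ z, ∑ w, B z w • u w = 0) (y : T) :
    B.det • u y = 0 := by
  have h1 : B.det • u y = ∑ w, (B.adjugate * B) y w • u w := by
    rw [Matrix.adjugate_mul]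
    simp only [Matrix.smul_apply, Matrix.one_apply, smul_eq_mul, mul_ite, mul_one, mul_zero]
    rw [Finset.sum_eq_single y]
    · simp
    · intro w _ hw
      rw [if_neg hw.symm, zero_smul]
    · intro hy; exact absurd (mem_univ y) hy
  rw [h1]
  simp only [Matrix.mul_apply, Finset.sum_smul, mul_smul]
  rw [Finset.sum_comm]
  apply Finset.sum_eq_zero
  intro z _
  rw [← Finset.smul_sum, h z, smul_zero]

theorem sum_ite_smul {A T ι : Type*} [AddCommGroup A] [Fintype T] [DecidableEq T] [Fintype ι]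
    (b : ι → ℤ) (t : ι → T) (u : T → A) :
    ∑ w, (∑ j, if t j = w then b j else 0) • u w = ∑ j, b j • u (t j) := by
  simp only [Finset.sum_smul]
  rw [Finset.sum_comm]
  apply Finset.sum_congr rfl
  intro j _
  rw [Finset.sum_eq_single (t j)]
  · simp
  · intro w _ hw
    rw [if_neg hw.symm, zero_smul]
  · intro h; exact absurd (mem_univ _) h

variable {Ω : Type} [Field Ω] [CharZero Ω] [IsAlgClosed Ω] [Algebra.IsAlgebraic ℚ Ω]

/-- The data extracted from a multiplicative relation. -/
theorem mult_data {n : ℕ} (b : Fin n → ℤ) (α : Fin n → Ω) (h0 : ∀ i, α i ≠ 0)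
    (hm : ∀ i j, minpoly ℚ (α i) = minpoly ℚ (α j)) (hrel : ∏ i, α i ^ b i = 1) (i : Fin n) :
    ∃ (t : (minpoly ℚ (α i)).rootSet Ω → Fin n → (minpoly ℚ (α i)).rootSet Ω)
      (u : (minpoly ℚ (α i)).rootSet Ω → Additive Ωˣ),
      (∀ z, t z i = z) ∧ (∀ z, ((Additive.toMul (u z) : Ωˣ) : Ω) = z) ∧
      ∀ z, ∑ j, b j • u (t z j) = 0 := by
  classical
  have hgal : Normal ℚ Ω := by
    have : IsAlgClosure ℚ Ω := ⟨inferInstance, inferInstance⟩
    exact IsAlgClosure.normal ℚ Ω
  have hint : IsIntegral ℚ (α i) := Algebra.IsIntegral.isIntegral _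
  have hmin : ∀ z ∈ (minpoly ℚ (α i)).rootSet Ω, minpoly ℚ z = minpoly ℚ (α i) := by
    intro z hz
    rw [mem_rootSet] at hz
    exact (minpoly.eq_of_irreducible_of_monic (minpoly.irreducible hint) hz.2
      (minpoly.monic hint)).symm
  have hex : ∀ z : (minpoly ℚ (α i)).rootSet Ω, ∃ σ : Ω ≃ₐ[ℚ] Ω, σ (α i) = z := by
    intro z
    exact isConjRoot_iff_exists_algEquiv.mp (hmin z z.2)
  choose σ hσ using hex
  have hmem : ∀ z j, σ z (α j) ∈ (minpoly ℚ (α i)).rootSet Ω := by
    intro z j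
    rw [mem_rootSet]
    refine ⟨minpoly.ne_zero hint, ?_⟩
    have : minpoly ℚ (σ z (α j)) = minpoly ℚ (α i) := by rw [minpoly.algEquiv_eq, hm j i]
    rw [← this]
    exact minpoly.aeval ℚ _
  have hne : ∀ z : (minpoly ℚ (α i)).rootSet Ω, (z : Ω) ≠ 0 := by
    intro z
    rw [← hσ z]
    exact (map_ne_zero_iff _ (σ z).injective).mpr (h0 i)
  refine ⟨fun z j => ⟨σ z (α j), hmem z j⟩, fun z => Additive.ofMul (Units.mk0 (z : Ω) (hne z)),
    fun z => Subtype.ext (hσ z), fun z => rfl, fun z => ?_⟩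
  apply Additive.toMul.injective
  apply Units.ext
  rw [toMul_sum, toMul_zero, Units.coe_prod, Units.val_one]
  simp only [toMul_zsmul, toMul_ofMul, Units.val_zpow_eq_zpow_val, Units.val_mk0]
  have h1 := congrArg (σ z) hrel
  rw [map_prod, map_one] at h1
  simpa only [map_zpow₀] using h1

/-- Necessity of the archimedean condition. -/
theorem mult_necA {n : ℕ} (b : Fin n → ℤ) (α : Fin n → Ω) (h0 : ∀ i, α i ≠ 0)
    (hm : ∀ i j, minpoly ℚ (α i) = minpoly ℚ (α j)) (hrel : ∏ i, α i ^ b i = 1) (i : Fin n)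
    (hA : ∑ j ∈ univ.erase i, |b j| < |b i|) : ∃ N : ℤ, N ≠ 0 ∧ (α i) ^ N = 1 := by
  classical
  obtain ⟨t, u, ht, hu, hrel'⟩ := mult_data b α h0 hm hrel i
  let T := (minpoly ℚ (α i)).rootSet Ω
  let B : Matrix T T ℤ := fun z w => ∑ j, if t z j = w then b j else 0
  have hB : ∀ z, ∑ w, B z w • u w = 0 := by
    intro z
    rw [← hrel' z]
    exact sum_ite_smul b (t z) u
  have hdet : B.det ≠ 0 := by
    have h1 : (B.map (Int.cast : ℤ → ℝ)).det ≠ 0 := by
      apply det_ne_zero_of_sum_row_lt_diag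
      intro z
      simp only [Matrix.map_apply, Real.norm_eq_abs, ← Int.cast_abs]
      have h2 : ∑ w ∈ univ.erase z, |B z w| < |B z z| := by
        let C : T → ℤ := fun w => ∑ j ∈ univ.erase i, if t z j = w then |b j| else 0
        have hC : ∀ w, w ≠ z → |B z w| ≤ C w := by
          intro w hw
          have h3 : B z w = ∑ j ∈ univ.erase i, if t z j = w then b j else 0 := by
            simp only [B]
            rw [← Finset.add_sum_erase _ _ (mem_univ i), ht z, if_neg hw.symm, zero_add]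
          rw [h3]
          refine (Finset.abs_sum_le_sum_abs _ _).trans (le_of_eq ?_)
          apply Finset.sum_congr rfl
          intro j _
          split_ifs <;> simp
        have hCz : |b i| - C z ≤ |B z z| := by
          have h3 : B z z = b i + ∑ j ∈ univ.erase i, if t z j = z then b j else 0 := by
            simp only [B]
            rw [← Finset.add_sum_erase _ _ (mem_univ i), ht z, if_pos rfl]
          have h4 : |∑ j ∈ univ.erase i, if t z j = z then b j else 0| ≤ C z := by
            refine (Finset.abs_sum_le_sum_abs _ _).trans (le_of_eq ?_)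
            apply Finset.sum_congr rfl
            intro j _
            split_ifs <;> simp
          rw [h3]
          have h5 := abs_sub_abs_le_abs_sub (b i)
            (-(∑ j ∈ univ.erase i, if t z j = z then b j else 0))
          rw [abs_neg, sub_neg_eq_add] at h5
          linarith
        have hCsum : ∑ w, C w = ∑ j ∈ univ.erase i, |b j| := by
          simp only [C]
          rw [Finset.sum_comm]
          apply Finset.sum_congr rfl
          intro j _
          rw [Finset.sum_ite_eq univ (t z j) (fun _ => |b j|), if_pos (mem_univ _)]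
        have h6 : ∑ w ∈ univ.erase z, |B z w| ≤ ∑ w ∈ univ.erase z, C w :=
          Finset.sum_le_sum (fun w hw => hC w (Finset.ne_of_mem_erase hw))
        have h7 : C z + ∑ w ∈ univ.erase z, C w = ∑ w, C w :=
          Finset.add_sum_erase _ _ (mem_univ z)
        linarith
      exact_mod_cast h2
    intro h
    apply h1
    have h3 : (B.map (Int.cast : ℤ → ℝ)).det = ((B.det : ℤ) : ℝ) :=
      ((Int.castRingHom ℝ).map_det B).symm
    rw [h3, h, Int.cast_zero]
  have hmem : α i ∈ (minpoly ℚ (α i)).rootSet Ω := by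
    rw [mem_rootSet]
    exact ⟨minpoly.ne_zero (Algebra.IsIntegral.isIntegral _), minpoly.aeval ℚ _⟩
  have hfin := det_smul_eq_zero B u hB ⟨α i, hmem⟩
  refine ⟨B.det, hdet, ?_⟩
  have h8 := congrArg (fun x : Additive Ωˣ => ((Additive.toMul x : Ωˣ) : Ω)) hfin
  simp only [toMul_zsmul, toMul_zero, Units.val_zpow_eq_zpow_val, Units.val_one, hu] at h8
  exact h8

/-- Necessity of the nonarchimedean condition. -/
theorem mult_necB {n : ℕ} (b : Fin n → ℤ) (α : Fin n → Ω) (h0 : ∀ i, α i ≠ 0)
    (hm : ∀ i j, minpoly ℚ (α i) = minpoly ℚ (α j)) (hrel : ∏ i, α i ^ b i = 1) (i : Fin n)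
    (p k : ℕ) (hp : p.Prime) (hpi : ¬ ((p : ℤ) ^ k ∣ b i))
    (hpj : ∀ j, j ≠ i → (p : ℤ) ^ k ∣ b j) : ∃ N : ℤ, N ≠ 0 ∧ (α i) ^ N = 1 := by
  classical
  obtain ⟨t, u, ht, hu, hrel'⟩ := mult_data b α h0 hm hrel i
  let T := (minpoly ℚ (α i)).rootSet Ω
  -- the largest power dividing b i
  obtain ⟨e, he, hek, hei⟩ : ∃ e : ℕ, e < k ∧ (p : ℤ) ^ e ∣ b i ∧ ¬ ((p : ℤ) ^ (e + 1) ∣ b i) := by
    have hex : ∃ m : ℕ, ¬ ((p : ℤ) ^ m ∣ b i) := ⟨k, hpi⟩
    have h1 := Nat.find_spec hex
    have h2 : Nat.find hex ≤ k := Nat.find_min' hex hpi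
    have h3 : Nat.find hex ≠ 0 := by
      intro h
      rw [h] at h1
      simp at h1
    obtain ⟨m, hm'⟩ := Nat.exists_eq_succ_of_ne_zero h3
    refine ⟨m, by omega, ?_, ?_⟩
    · by_contra hcon
      have := Nat.find_min' hex hcon
      omega
    · rw [hm'] at h1
      exact h1
  have hpZ : Prime (p : ℤ) := Nat.prime_iff_prime_int.mp hp
  have hpe : (p : ℤ) ^ e ≠ 0 := pow_ne_zero _ hpZ.ne_zero
  have hdiv : ∀ j, ∃ c : ℤ, b j = (p : ℤ) ^ e * c ∧ (j ≠ i → (p : ℤ) ∣ c) := by
    intro j
    by_cases hj : j = i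
    · subst hj
      obtain ⟨c, hc⟩ := hek
      exact ⟨c, hc, fun h => absurd rfl h⟩
    · obtain ⟨c, hc⟩ := hpj j hj
      refine ⟨(p : ℤ) ^ (k - e) * c, ?_, fun _ => ?_⟩
      · rw [hc, ← mul_assoc, ← pow_add]
        congr 2
        omega
      · exact Dvd.dvd.mul_right (dvd_pow_self _ (by omega)) _
  choose c hc1 hc2 using hdiv
  have hci : ¬ ((p : ℤ) ∣ c i) := by
    intro ⟨q, hq⟩
    apply hei
    rw [hc1 i, hq, pow_succ]
    exact ⟨q, by ring⟩
  let C : Matrix T T ℤ := fun z w => ∑ j, if t z j = w then c j else 0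
  let u' : T → Additive Ωˣ := fun w => ((p : ℤ) ^ e) • u w
  have hC : ∀ z, ∑ w, C z w • u' w = 0 := by
    intro z
    rw [← hrel' z]
    refine (sum_ite_smul c (t z) u').trans ?_
    apply Finset.sum_congr rfl
    intro j _
    simp only [u']
    rw [smul_smul, hc1 j, mul_comm]
  have hdet : C.det ≠ 0 := by
    intro h
    have h1 : ((C.det : ℤ) : ZMod p) = (c i : ZMod p) ^ Fintype.card T := by
      have h2 : ((C.det : ℤ) : ZMod p) = (C.map (Int.cast : ℤ → ZMod p)).det :=
        (Int.castRingHom (ZMod p)).map_det C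
      have h3 : C.map (Int.cast : ℤ → ZMod p) = (c i : ZMod p) • (1 : Matrix T T (ZMod p)) := by
        ext z w
        rw [Matrix.smul_apply, Matrix.one_apply, smul_eq_mul, Matrix.map_apply]
        show ((∑ j, if t z j = w then c j else 0 : ℤ) : ZMod p) = _
        rw [← Finset.add_sum_erase _ _ (mem_univ i), ht z]
        push_cast
        have h4 : ∑ j ∈ univ.erase i, (if t z j = w then ((c j : ℤ) : ZMod p) else 0) = 0 := by
          apply Finset.sum_eq_zero
          intro j hj
          have h5 : ((c j : ℤ) : ZMod p) = 0 :=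
            (ZMod.intCast_zmod_eq_zero_iff_dvd _ _).mpr (hc2 j (Finset.ne_of_mem_erase hj))
          rw [h5, ite_self]
        rw [h4, add_zero]
        split_ifs <;> simp
      rw [h2, h3, Matrix.det_smul, Matrix.det_one, mul_one]
    rw [h, Int.cast_zero] at h1
    have : Fact p.Prime := ⟨hp⟩
    have h2 : ((c i : ℤ) : ZMod p) = 0 := by
      by_contra hne
      exact pow_ne_zero _ hne h1.symm
    exact hci ((ZMod.intCast_zmod_eq_zero_iff_dvd _ _).mp h2)
  have hmem : α i ∈ (minpoly ℚ (α i)).rootSet Ω := by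
    rw [mem_rootSet]
    exact ⟨minpoly.ne_zero (Algebra.IsIntegral.isIntegral _), minpoly.aeval ℚ _⟩
  have hfin := det_smul_eq_zero C u' hC ⟨α i, hmem⟩
  refine ⟨C.det * (p : ℤ) ^ e, mul_ne_zero hdet hpe, ?_⟩
  simp only [u', smul_smul] at hfin
  have h8 := congrArg (fun x : Additive Ωˣ => ((Additive.toMul x : Ωˣ) : Ω)) hfin
  simp only [toMul_zsmul, toMul_zero, Units.val_zpow_eq_zpow_val, Units.val_one, hu] at h8
  exact h8

end

end Pool.Agent.U578.Smyth
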