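import Mathlib
import Pool.Agent.U578.Mult
import Pool.Agent.U578.MultNec

set_option autoImplicit false

namespace Pool.Agent.U578.Smyth

noncomputable section

open Polynomial Finset

/-- The number `(3+4i)/5` is not a root of unity. -/
theorem pyth_not_root (m : ℕ) (hm : 0 < m) : ((3 + 4 * Complex.I) / 5) ^ m ≠ 1 := by
  obtain ⟨k, rfl⟩ := Nat.exists_eq_succ_of_ne_zero hm.ne'
  have h : ∀ k : ℕ, ∃ a b : ℤ, (3 + 4 * Complex.I) ^ (k + 1) =
      ((5 * a + 3 : ℤ) : ℂ) + ((5 * b + 4 : ℤ) : ℂ) * Complex.I := by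
    intro k
    induction k with
    | zero => exact ⟨0, 0, by simp⟩
    | succ k ih =>
      obtain ⟨a, b, hab⟩ := ih
      refine ⟨3 * a - 4 * b - 2, 4 * a + 3 * b + 4, ?_⟩
      rw [pow_succ, hab]
      push_cast
      linear_combination (((5 * (b : ℂ)) + 4) * 4) * Complex.I_sq
  intro h1
  rw [div_pow, div_eq_one_iff_eq (pow_ne_zero _ (by norm_num))] at h1
  obtain ⟨a, b, hab⟩ := h k
  rw [Nat.succ_eq_add_one, hab] at h1
  have h2 := congrArg Complex.im h1
  have h3 : ((5 : ℂ) ^ (k + 1)).im = 0 := by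
    have : ((5 : ℂ) ^ (k + 1)) = (((5 : ℝ) ^ (k + 1) : ℝ) : ℂ) := by push_cast; rfl
    rw [this, Complex.ofReal_im]
  rw [h3] at h2
  simp only [Complex.add_im, Complex.mul_im, Complex.intCast_re, Complex.intCast_im, Complex.I_re,
    Complex.I_im, mul_zero, mul_one, zero_add, add_zero] at h2
  have h4 : (5 * b + 4 : ℤ) = 0 := by exact_mod_cast h2
  omega

/-- The equality case. -/
theorem mult_eq_case {n : ℕ} (b : Fin n → ℤ) (i : Fin n)
    (hi : |b i| = ∑ j ∈ univ.erase i, |b j|) :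
    ∃ c : Fin n → ℂ, (∀ i, c i ≠ 0) ∧ (∀ i, IsAlgebraic ℚ (c i)) ∧
      (∀ i j, minpoly ℚ (c i) = minpoly ℚ (c j)) ∧ (∏ i, c i ^ b i = 1) ∧
      ∀ i, ∀ m : ℕ, 0 < m → c i ^ m ≠ 1 := by
  classical
  let a : ℂ := (3 + 4 * Complex.I) / 5
  have ha0 : a ≠ 0 := by
    intro h0
    have := pyth_not_root 1 one_pos
    have h1 := congrArg Complex.im h0
    simp [a] at h1
  have hinv : (starRingEnd ℂ) a = a⁻¹ := by
    apply eq_inv_of_mul_eq_one_left
    simp only [a, map_div₀, map_add, map_mul, Complex.conj_I, map_ofNat]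
    linear_combination (-(16 : ℂ) / 25) * Complex.I_sq
  have halg : IsAlgebraic ℚ a := by
    have hI : IsAlgebraic ℚ Complex.I := Complex.isIntegral_rat_I.isAlgebraic
    have h3 : IsAlgebraic ℚ (3 : ℂ) := by exact_mod_cast isAlgebraic_natCast (R := ℚ) (A := ℂ) 3
    have h4 : IsAlgebraic ℚ (4 : ℂ) := by exact_mod_cast isAlgebraic_natCast (R := ℚ) (A := ℂ) 4
    have h5 : IsAlgebraic ℚ (5 : ℂ) := by exact_mod_cast isAlgebraic_natCast (R := ℚ) (A := ℂ) 5
    exact (h3.add (h4.mul hI)).mul h5.inv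
  let f : ℂ ≃ₐ[ℚ] ℂ := Complex.conjAe.restrictScalars ℚ
  have hf : ∀ x, f x = (starRingEnd ℂ) x := fun x => rfl
  let ε : Fin n → ℤ := fun j => if j = i then (if 0 ≤ b j then 1 else -1)
    else (if 0 ≤ b j then -1 else 1)
  have hε : ∀ j, ε j = 1 ∨ ε j = -1 := by
    intro j
    simp only [ε]
    split_ifs <;> simp
  have hεb : ∑ j, ε j * b j = 0 := by
    rw [← Finset.add_sum_erase _ _ (mem_univ i)]
    have h1 : ε i * b i = |b i| := by
      simp only [ε, if_true]
      split_ifs with h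
      · rw [one_mul, abs_of_nonneg h]
      · rw [abs_of_neg (not_le.mp h)]; ring
    have h2 : ∑ j ∈ univ.erase i, ε j * b j = -∑ j ∈ univ.erase i, |b j| := by
      rw [← Finset.sum_neg_distrib]
      apply Finset.sum_congr rfl
      intro j hj
      simp only [ε, if_neg (Finset.ne_of_mem_erase hj)]
      split_ifs with h
      · rw [abs_of_nonneg h]; ring
      · rw [abs_of_neg (not_le.mp h)]; ring
    rw [h1, h2, hi]
    ring
  have hmin : ∀ j, minpoly ℚ (a ^ ε j) = minpoly ℚ a := by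
    intro j
    rcases hε j with h | h
    · rw [h, zpow_one]
    · rw [h, zpow_neg_one, ← hinv, ← hf]
      exact minpoly.algEquiv_eq f a
  refine ⟨fun j => a ^ ε j, fun j => zpow_ne_zero _ ha0, ?_, ?_, ?_, ?_⟩
  · intro j
    rcases hε j with h | h
    · simp only [h, zpow_one]; exact halg
    · simp only [h, zpow_neg_one]; exact halg.inv
  · intro j k
    show minpoly ℚ (a ^ ε j) = minpoly ℚ (a ^ ε k)
    rw [hmin, hmin]
  · show ∏ j, (a ^ ε j) ^ b j = 1
    simp_rw [← zpow_mul]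
    rw [prod_zpow_sum ha0, hεb, zpow_zero]
  · intro j m hm h1
    rcases hε j with h | h
    · simp only [h, zpow_one] at h1
      exact pyth_not_root m hm h1
    · simp only [h, zpow_neg_one, inv_pow, inv_eq_one] at h1
      exact pyth_not_root m hm h1

/-- Sufficiency for primitive vectors. -/
theorem mult_suff {n : ℕ} (hn : 0 < n) (b : Fin n → ℤ) (hg : univ.gcd b = 1)
    (hA : ∀ i, |b i| ≤ ∑ j ∈ univ.erase i, |b j|)
    (hB : ∀ i, ∀ p : ℕ, p.Prime → (∀ j, j ≠ i → (p : ℤ) ∣ b j) → (p : ℤ) ∣ b i) :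
    ∃ c : Fin n → ℂ, (∀ i, c i ≠ 0) ∧ (∀ i, IsAlgebraic ℚ (c i)) ∧
      (∀ i j, minpoly ℚ (c i) = minpoly ℚ (c j)) ∧ (∏ i, c i ^ b i = 1) ∧
      ∀ i, ∀ m : ℕ, 0 < m → c i ^ m ≠ 1 := by
  classical
  by_cases heq : ∃ i, |b i| = ∑ j ∈ univ.erase i, |b j|
  · obtain ⟨i, hi⟩ := heq
    exact mult_eq_case b i hi
  push Not at heq
  refine mult_strict hn b (fun i => lt_of_le_of_ne (hA i) (heq i)) ?_
  intro i
  let g : Fin n → ℤ := fun j => if j = i then 0 else b j
  let I : Ideal ℤ := Ideal.span (Set.range g)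
  let e : ℤ := Submodule.IsPrincipal.generator I
  have he : ∀ j, j ≠ i → e ∣ b j := by
    intro j hj
    rw [← Submodule.IsPrincipal.mem_iff_generator_dvd I]
    exact Ideal.subset_span ⟨j, by simp [g, hj]⟩
  have heu : e.natAbs = 1 := by
    by_contra hne
    obtain ⟨p, hp, hpe⟩ := Nat.exists_prime_and_dvd hne
    have hpe' : (p : ℤ) ∣ e := Int.natCast_dvd.mpr hpe
    have h1 : ∀ j, j ≠ i → (p : ℤ) ∣ b j := fun j hj => hpe'.trans (he j hj)
    have h2 := hB i p hp h1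
    have h3 : (p : ℤ) ∣ univ.gcd b := by
      apply Finset.dvd_gcd
      intro j _
      by_cases hj : j = i
      · rw [hj]; exact h2
      · exact h1 j hj
    rw [hg] at h3
    have h4 : p ∣ 1 := by exact_mod_cast h3
    exact hp.one_lt.ne' (Nat.dvd_one.mp h4)
  have hmem : b i ∈ I := by
    rw [Submodule.IsPrincipal.mem_iff_generator_dvd I]
    exact (Int.isUnit_iff_natAbs_eq.mpr heu).dvd
  obtain ⟨c, hc⟩ := Ideal.mem_span_range_iff_exists_fun.mp hmem
  refine ⟨fun j => if j = i then 1 else -c j, by simp, ?_⟩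
  have h1 : ∀ j, b j * (if j = i then 1 else -c j) = (if j = i then b i else 0) - c j * g j := by
    intro j
    by_cases hj : j = i
    · subst hj; simp [g]
    · simp only [hj, if_false, g]; ring
  simp only [h1]
  rw [Finset.sum_sub_distrib, hc, Finset.sum_ite_eq' univ i (fun _ => b i)]
  simp

/-- Transfer of a solution to an algebraic closure. -/
theorem mult_transfer (Ω : Type) [Field Ω] [CharZero Ω] [IsAlgClosed Ω]
    [Algebra.IsAlgebraic ℚ Ω] {n : ℕ} (b : Fin n → ℤ) (α : ℂ)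
    (c : Fin n → ℂ) (h0 : α ≠ 0) (halg : IsAlgebraic ℚ α)
    (hc : ∀ i, aeval (c i) (minpoly ℚ α) = 0) (hrel : ∏ i, c i ^ b i = 1) :
    ∃ c' : Fin n → Ω, (∀ i, c' i ≠ 0) ∧ (∀ i j, minpoly ℚ (c' i) = minpoly ℚ (c' j)) ∧
      (∏ i, c' i ^ b i = 1) ∧ ∀ i, ∀ N : ℤ, N ≠ 0 → (c' i) ^ N = 1 →
        ∃ m : ℕ, 0 < m ∧ α ^ m = 1 := by
  classical
  let ψ : Ω →ₐ[ℚ] ℂ := IsAlgClosed.lift
  have hint : IsIntegral ℚ α := halg.isIntegral
  have hmin : ∀ i, minpoly ℚ (c i) = minpoly ℚ α := fun i =>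
    (minpoly.eq_of_irreducible_of_monic (minpoly.irreducible hint) (hc i)
      (minpoly.monic hint)).symm
  have hcint : ∀ i, IsIntegral ℚ (c i) := fun i => ⟨minpoly ℚ α, minpoly.monic hint, hc i⟩
  have hr : ∀ i, ∃ x : Ω, ψ x = c i := by
    intro i
    have := (hcint i).mem_range_algHom_of_minpoly_splits (K := Ω) (IsAlgClosed.splits _) ψ
    exact this
  choose c' hc' using hr
  have hmin' : ∀ i, minpoly ℚ (c' i) = minpoly ℚ α := by
    intro i
    rw [← hmin i, ← hc' i, minpoly.algHom_eq ψ ψ.injective]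
  have hcne : ∀ i, c i ≠ 0 := by
    intro i hi
    have h1 := hc i
    rw [hi] at h1
    have h2 : (minpoly ℚ α).coeff 0 = 0 := by
      have h3 : aeval (0 : ℂ) (minpoly ℚ α) = algebraMap ℚ ℂ ((minpoly ℚ α).coeff 0) := by
        rw [aeval_def, eval₂_at_zero]
      rw [h3] at h1
      exact (map_eq_zero (algebraMap ℚ ℂ)).mp h1
    exact (minpoly.coeff_zero_ne_zero hint h0) h2
  refine ⟨c', ?_, ?_, ?_, ?_⟩
  · intro i h
    apply hcne i
    rw [← hc' i, h, map_zero]
  · intro i j; rw [hmin', hmin']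
  · apply ψ.injective
    show ψ (∏ i, c' i ^ b i) = ψ 1
    rw [map_prod, map_one]
    simp only [map_zpow₀, hc']
    exact hrel
  · intro i N hN hpow
    refine ⟨N.natAbs, Int.natAbs_pos.mpr hN, ?_⟩
    have h1 : (c i) ^ N = 1 := by rw [← hc' i, ← map_zpow₀, hpow, map_one]
    have h2 : (c i) ^ N.natAbs = 1 := by
      rcases Int.natAbs_eq N with h | h
      · rw [h] at h1
        exact_mod_cast h1
      · rw [h, zpow_neg, inv_eq_one] at h1
        exact_mod_cast h1
    have h3 : minpoly ℚ (c i) ∣ X ^ N.natAbs - 1 := by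
      apply minpoly.dvd
      simp [h2]
    rw [hmin i] at h3
    obtain ⟨q, hq⟩ := h3
    have h4 : aeval α (X ^ N.natAbs - 1 : ℚ[X]) = 0 := by
      rw [hq, map_mul, minpoly.aeval, zero_mul]
    rw [map_sub, map_pow, aeval_X, map_one] at h4
    exact sub_eq_zero.mp h4

end

end Pool.Agent.U578.Smyth
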