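import Mathlib

set_option autoImplicit false

namespace Pool.Agent.U578.Smyth

noncomputable section

open Polynomial Finset NumberField IsDedekindDomain

/-- Equality case of the triangle inequality. -/
theorem eq_case {ι : Type*} (s : Finset ι) (c : ι → ℂ) (S : ℂ) (hS : ∑ j ∈ s, c j = S)
    (h : ∑ j ∈ s, ‖c j‖ ≤ ‖S‖) : ∀ j ∈ s, c j * ‖S‖ = ‖c j‖ * S := by
  intro j hj
  by_cases hS0 : S = 0
  · rw [hS0, norm_zero] at h
    have h1 : ‖c j‖ ≤ ∑ j ∈ s, ‖c j‖ :=
      Finset.single_le_sum (f := fun j => ‖c j‖) (fun i _ => norm_nonneg _) hj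
    have h2 : ‖c j‖ = 0 := le_antisymm (h1.trans h) (norm_nonneg _)
    simp [norm_eq_zero.mp h2]
  · have hSn : (0 : ℝ) < ‖S‖ := norm_pos_iff.mpr hS0
    have hle : ∀ k ∈ s, (c k * (starRingEnd ℂ) S).re ≤ ‖c k‖ * ‖S‖ := by
      intro k _
      refine (Complex.re_le_norm _).trans ?_
      rw [norm_mul, RCLike.norm_conj]
    have hsum : ∑ k ∈ s, (c k * (starRingEnd ℂ) S).re = ‖S‖ * ‖S‖ := by
      rw [← Complex.re_sum, ← Finset.sum_mul, hS, Complex.mul_conj, Complex.normSq_eq_norm_sq,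
        Complex.ofReal_re, sq]
    have hge : ∑ k ∈ s, ‖c k‖ * ‖S‖ ≤ ∑ k ∈ s, (c k * (starRingEnd ℂ) S).re := by
      rw [hsum, ← Finset.sum_mul]
      exact mul_le_mul_of_nonneg_right h hSn.le
    have heq : (c j * (starRingEnd ℂ) S).re = ‖c j‖ * ‖S‖ := by
      have h1 := (Finset.sum_eq_sum_iff_of_le hle).mp (le_antisymm (Finset.sum_le_sum hle) hge)
      exact h1 j hj
    have h2 : c j * (starRingEnd ℂ) S = ((‖c j‖ * ‖S‖ : ℝ) : ℂ) := by
      have h3 : ‖c j * (starRingEnd ℂ) S‖ = ‖c j‖ * ‖S‖ := by rw [norm_mul, RCLike.norm_conj]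
      have h4 : (c j * (starRingEnd ℂ) S).re = ‖c j * (starRingEnd ℂ) S‖ := by rw [h3, heq]
      rw [← h3]
      have h5 := Complex.re_eq_norm.mp h4
      apply Complex.ext
      · rw [Complex.ofReal_re]; exact h4
      · rw [Complex.ofReal_im]; exact (Complex.nonneg_iff.mp h5).2.symm
    have h5 : (c j * ‖S‖ - ‖c j‖ * S) * ‖S‖ = 0 := by
      have h6 : (starRingEnd ℂ) S * S = (‖S‖ : ℂ) * ‖S‖ := by
        rw [mul_comm, Complex.mul_conj, Complex.normSq_eq_norm_sq]; push_cast; ring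
      have h7 : c j * ((‖S‖ : ℂ) * ‖S‖) = ‖c j‖ * ‖S‖ * S := by
        rw [← h6, ← mul_assoc, h2]; push_cast; ring
      linear_combination h7
    have h8 : ((‖S‖ : ℝ) : ℂ) ≠ 0 := by exact_mod_cast hSn.ne'
    exact sub_eq_zero.mp ((mul_eq_zero.mp h5).resolve_right h8)

/-- Powers staying in a finite set of nonzero numbers force a root of unity. -/
theorem root_of_unity_of_finite {A : Type*} [Field A] (u x : A) (s : Set A) (hs : s.Finite)
    (hx : x ≠ 0) (hu : u ≠ 0) (h : ∀ k : ℕ, u ^ k * x ∈ s) : ∃ m : ℕ, 0 < m ∧ u ^ m = 1 := by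
  have : ∃ k l : ℕ, k < l ∧ u ^ k * x = u ^ l * x := by
    by_contra hcon
    push Not at hcon
    have hinj : Function.Injective (fun k : ℕ => u ^ k * x) := by
      intro k l hkl
      rcases lt_trichotomy k l with h1 | h1 | h1
      · exact absurd hkl (hcon k l h1)
      · exact h1
      · exact absurd hkl.symm (hcon l k h1)
    exact (Set.infinite_range_of_injective hinj).mono (by rintro _ ⟨k, rfl⟩; exact h k) hs
  obtain ⟨k, l, hkl, heq⟩ := this
  refine ⟨l - k, by omega, ?_⟩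
  have h1 : u ^ k = u ^ l := mul_right_cancel₀ hx heq
  have h2 : u ^ l = u ^ k * u ^ (l - k) := by rw [← pow_add]; congr 1; omega
  rw [h2] at h1
  have h3 : u ^ k ≠ 0 := pow_ne_zero _ hu
  exact (mul_left_cancel₀ h3 (by rw [mul_one]; exact h1)).symm

/-- If a non-strict archimedean inequality fails to be strict, the tuple is of type (b). -/
theorem arch_case (K : Type) [Field K] [NumberField K] {n : ℕ} (a : Fin n → 𝓞 K)
    (α : Fin n → AlgebraicClosure K) (h0 : ∀ i, α i ≠ 0)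
    (hm : ∀ i j, minpoly K (α i) = minpoly K (α j))
    (hsum : ∑ i, algebraMap K (AlgebraicClosure K) (a i : K) * α i = 0)
    (v : InfinitePlace K) (i : Fin n) (hv : ∑ j ∈ univ.erase i, v (a j : K) ≤ v (a i : K)) :
    ∃ ω : Fin n → AlgebraicClosure K, (∀ i, ∃ m : ℕ, 0 < m ∧ ω i ^ m = 1) ∧
      ∑ i, algebraMap K (AlgebraicClosure K) (a i : K) * ω i = 0 := by
  classical
  let Ω := AlgebraicClosure K
  by_cases hai : (a i : K) = 0
  · have hall : ∀ j, (a j : K) = 0 := by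
      intro j
      by_cases hj : j = i
      · rw [hj]; exact hai
      · rw [hai, map_zero] at hv
        have h1 : v (a j : K) ≤ ∑ j ∈ univ.erase i, v (a j : K) :=
          Finset.single_le_sum (f := fun j => v (a j : K)) (fun i _ => apply_nonneg v _)
            (Finset.mem_erase.mpr ⟨hj, mem_univ j⟩)
        have h2 : v (a j : K) = 0 := le_antisymm (h1.trans hv) (apply_nonneg v _)
        exact (map_eq_zero v).mp h2
    exact ⟨fun _ => 1, fun _ => ⟨1, one_pos, one_pow 1⟩, by simp [hall]⟩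
  -- the embedding
  let φ : K →+* ℂ := v.embedding
  have hφ : ∀ x, ‖φ x‖ = v x := fun x => InfinitePlace.norm_embedding_eq v x
  letI : Algebra K ℂ := φ.toAlgebra
  let ψ : Ω →ₐ[K] ℂ := IsAlgClosed.lift
  have hψ : ∀ x : K, ψ (algebraMap K Ω x) = φ x := fun x => ψ.commutes x
  have hvpos : 0 < v (a i : K) := by
    rw [InfinitePlace.pos_iff]; exact hai
  -- conjugates
  let Z : Set Ω := {z | minpoly K z = minpoly K (α i)}
  have hint : IsIntegral K (α i) := Algebra.IsIntegral.isIntegral _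
  have hZfin : Z.Finite := by
    refine ((minpoly K (α i)).rootSet_finite Ω).subset ?_
    intro z hz
    rw [mem_rootSet]
    refine ⟨minpoly.ne_zero hint, ?_⟩
    have : minpoly K z = minpoly K (α i) := hz
    rw [← this]
    exact minpoly.aeval K z
  have hex : ∀ z ∈ Z, ∃ σ : Ω ≃ₐ[K] Ω, σ (α i) = z := by
    intro z hz
    exact isConjRoot_iff_exists_algEquiv.mp hz
  have hZσ : ∀ (σ : Ω ≃ₐ[K] Ω) (j), σ (α j) ∈ Z := by
    intro σ j
    show minpoly K (σ (α j)) = minpoly K (α i)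
    rw [minpoly.algEquiv_eq σ (α j), hm j i]
  obtain ⟨z0, hz0, hmax⟩ := Set.exists_max_image Z (fun z => ‖ψ z‖) hZfin ⟨α i, rfl⟩
  set M : ℝ := ‖ψ z0‖ with hM
  have hZne : ∀ z ∈ Z, z ≠ 0 := by
    intro z hz
    obtain ⟨σ, hσ⟩ := hex z hz
    rw [← hσ]
    exact (map_ne_zero_iff _ σ.injective).mpr (h0 i)
  have hMpos : 0 < M := by
    rw [hM, norm_pos_iff]
    exact (map_ne_zero_iff _ ψ.injective).mpr (hZne z0 hz0)
  -- key relation
  let u : Fin n → ℂ := fun j => -((v (a j : K) : ℂ) / (v (a i : K) : ℂ)) * φ (a i) / φ (a j)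
  have hkey : ∀ z ∈ Z, ‖ψ z‖ = M → ∀ σ : Ω ≃ₐ[K] Ω, σ (α i) = z → ∀ j, j ≠ i →
      (a j : K) ≠ 0 → ‖ψ (σ (α j))‖ = M ∧ ψ (σ (α j)) = u j * ψ z := by
    intro z hz hzM σ hσ j hji haj
    let c : Fin n → ℂ := fun k => φ (a k) * ψ (σ (α k))
    have hc : ∑ k, c k = 0 := by
      have h1 := congrArg (fun x => ψ (σ x)) hsum
      simp only [map_sum, map_mul, map_zero] at h1
      rw [← h1]
      apply Finset.sum_congr rfl
      intro k _
      have h2 : σ (algebraMap K Ω (a k : K)) = algebraMap K Ω (a k : K) := σ.commutes _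
      have h3 : ψ (σ (algebraMap K Ω (a k : K))) = φ (a k) := by rw [h2, hψ]
      rw [h3]
    have hci : ∑ k ∈ univ.erase i, c k = -c i := by
      rw [← Finset.add_sum_erase _ _ (mem_univ i)] at hc
      linear_combination hc
    have hnorm : ∀ k, ‖c k‖ = v (a k : K) * ‖ψ (σ (α k))‖ := by
      intro k
      rw [norm_mul, hφ]
    have hle : ∀ k, ‖c k‖ ≤ v (a k : K) * M := by
      intro k
      rw [hnorm]
      exact mul_le_mul_of_nonneg_left (hmax _ (hZσ σ k)) (apply_nonneg v _)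
    have hnci : ‖-c i‖ = v (a i : K) * M := by
      rw [norm_neg, hnorm, hσ, hzM]
    have hsumle : ∑ k ∈ univ.erase i, ‖c k‖ ≤ ‖-c i‖ := by
      rw [hnci]
      calc ∑ k ∈ univ.erase i, ‖c k‖ ≤ ∑ k ∈ univ.erase i, v (a k : K) * M :=
            Finset.sum_le_sum (fun k _ => hle k)
        _ = (∑ k ∈ univ.erase i, v (a k : K)) * M := by rw [Finset.sum_mul]
        _ ≤ v (a i : K) * M := mul_le_mul_of_nonneg_right hv hMpos.le
    have hge : ‖-c i‖ ≤ ∑ k ∈ univ.erase i, ‖c k‖ := by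
      rw [← hci]; exact norm_sum_le _ _
    have heqs : ∑ k ∈ univ.erase i, ‖c k‖ = ∑ k ∈ univ.erase i, v (a k : K) * M := by
      apply le_antisymm (Finset.sum_le_sum (fun k _ => hle k))
      calc ∑ k ∈ univ.erase i, v (a k : K) * M = (∑ k ∈ univ.erase i, v (a k : K)) * M := by
            rw [Finset.sum_mul]
        _ ≤ v (a i : K) * M := mul_le_mul_of_nonneg_right hv hMpos.le
        _ = ‖-c i‖ := hnci.symm
        _ ≤ _ := hge
    have hjmem : j ∈ univ.erase i := Finset.mem_erase.mpr ⟨hji, mem_univ j⟩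
    have hcj : ‖c j‖ = v (a j : K) * M :=
      (Finset.sum_eq_sum_iff_of_le (fun k _ => hle k)).mp heqs j hjmem
    have hvj : 0 < v (a j : K) := by rw [InfinitePlace.pos_iff]; exact haj
    have hψj : ‖ψ (σ (α j))‖ = M := by
      rw [hnorm] at hcj
      exact mul_left_cancel₀ hvj.ne' hcj
    refine ⟨hψj, ?_⟩
    have h1 := eq_case (univ.erase i) c (-c i) hci hsumle j hjmem
    rw [hnci, hcj] at h1
    simp only [c, hσ] at h1
    have hφj : φ (a j) ≠ 0 := (map_ne_zero φ).mpr haj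
    have hMne : (M : ℂ) ≠ 0 := by exact_mod_cast hMpos.ne'
    have hvine : ((v (a i : K) : ℝ) : ℂ) ≠ 0 := by exact_mod_cast hvpos.ne'
    push_cast at h1
    have h2 : φ (a j) * ψ (σ (α j)) * v (a i : K) = -(v (a j : K) * (φ (a i) * ψ z)) := by
      apply mul_right_cancel₀ hMne
      linear_combination h1
    simp only [u]
    field_simp
    linear_combination h2
  -- the stable finite set
  have hune : ∀ j, (a j : K) ≠ 0 → u j ≠ 0 := by
    intro j haj
    have hvj : 0 < v (a j : K) := by rw [InfinitePlace.pos_iff]; exact haj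
    have hφj : φ (a j) ≠ 0 := (map_ne_zero φ).mpr haj
    have hφi : φ (a i) ≠ 0 := (map_ne_zero φ).mpr hai
    have h1 : ((v (a i : K) : ℝ) : ℂ) ≠ 0 := by exact_mod_cast hvpos.ne'
    have h2 : ((v (a j : K) : ℝ) : ℂ) ≠ 0 := by exact_mod_cast hvj.ne'
    simp only [u]
    exact div_ne_zero (mul_ne_zero (neg_ne_zero.mpr (div_ne_zero h2 h1)) hφi) hφj
  have hstab : ∀ j, j ≠ i → (a j : K) ≠ 0 → ∀ k : ℕ,
      ∃ z ∈ Z, ‖ψ z‖ = M ∧ ψ z = (u j) ^ k * ψ z0 := by
    intro j hji haj k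
    induction k with
    | zero => exact ⟨z0, hz0, rfl, by simp⟩
    | succ k ih =>
      obtain ⟨z, hz, hzM, hzk⟩ := ih
      obtain ⟨σ, hσ⟩ := hex z hz
      obtain ⟨h1, h2⟩ := hkey z hz hzM σ hσ j hji haj
      refine ⟨σ (α j), hZσ σ j, h1, ?_⟩
      rw [h2, hzk, pow_succ]
      ring
  have hroot : ∀ j, j ≠ i → (a j : K) ≠ 0 → ∃ m : ℕ, 0 < m ∧ u j ^ m = 1 := by
    intro j hji haj
    refine root_of_unity_of_finite (u j) (ψ z0) (ψ '' Z) (hZfin.image _) ?_ (hune j haj) ?_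
    · exact (map_ne_zero_iff _ ψ.injective).mpr (hZne z0 hz0)
    · intro k
      obtain ⟨z, hz, _, hzk⟩ := hstab j hji haj k
      exact ⟨z, hz, hzk⟩
  obtain ⟨σ, hσ⟩ := hex z0 hz0
  refine ⟨fun j => if (a j : K) = 0 then 1 else σ (α j) / z0, ?_, ?_⟩
  · intro j
    by_cases haj : (a j : K) = 0
    · simp only [haj, if_true]
      exact ⟨1, one_pos, one_pow 1⟩
    · simp only [haj, if_false]
      by_cases hji : j = i
      · refine ⟨1, one_pos, ?_⟩
        rw [hji, hσ, div_self (hZne z0 hz0), one_pow]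
      · obtain ⟨m, hm0, hm1⟩ := hroot j hji haj
        refine ⟨m, hm0, ?_⟩
        have h1 := (hkey z0 hz0 rfl σ hσ j hji haj).2
        have hne : ψ z0 ≠ 0 := (map_ne_zero_iff _ ψ.injective).mpr (hZne z0 hz0)
        have h9 : ψ ((σ (α j) / z0) ^ m) = ψ 1 := by
          rw [map_pow, map_div₀, h1, mul_div_cancel_right₀ _ hne, hm1, map_one]
        exact ψ.injective h9
  · have h1 : ∀ j, algebraMap K Ω (a j : K) * (if (a j : K) = 0 then 1 else σ (α j) / z0) =
        (σ (algebraMap K Ω (a j : K) * α j)) / z0 := by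
      intro j
      by_cases haj : (a j : K) = 0
      · simp [haj]
      · simp only [haj, if_false, map_mul]
        have h2 : σ (algebraMap K Ω (a j : K)) = algebraMap K Ω (a j : K) := σ.commutes _
        rw [h2]
        ring
    show ∑ j, algebraMap K Ω (a j : K) * (if (a j : K) = 0 then 1 else σ (α j) / z0) = 0
    simp_rw [h1]
    rw [← Finset.sum_div, ← map_sum]
    have h3 : ∑ i, algebraMap K Ω (a i : K) * α i = 0 := hsum
    rw [h3, map_zero, zero_div]

end

end Pool.Agent.U578.Smyth
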