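import Mathlib

set_option autoImplicit false

namespace Pool.Agent.U578.Smyth

noncomputable section

open Polynomial Finset NumberField IsDedekindDomain

/-- The nonarchimedean necessary condition (Smyth 1986), by Nakayama's lemma over the
valuation ring. -/
theorem nonarch_nec (K : Type) [Field K] [NumberField K] {n : ℕ} (a : Fin n → 𝓞 K)
    (α : Fin n → AlgebraicClosure K) (h0 : ∀ i, α i ≠ 0)
    (hm : ∀ i j, minpoly K (α i) = minpoly K (α j))
    (hsum : ∑ i, algebraMap K (AlgebraicClosure K) (a i : K) * α i = 0)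
    (v : HeightOneSpectrum (𝓞 K)) (i : Fin n) (hi : ∃ j : Fin n, j ≠ i) :
    ∃ j : Fin n, j ≠ i ∧ v.valuation K (a i : K) ≤ v.valuation K (a j : K) := by
  classical
  let Ω := AlgebraicClosure K
  by_cases hai : (a i : K) = 0
  · obtain ⟨j, hj⟩ := hi
    exact ⟨j, hj, by rw [hai, map_zero]; exact zero_le⟩
  by_contra hcon
  push Not at hcon
  let w := v.valuation K
  let O := w.valuationSubring
  have hsmul : ∀ (c : O) (x : Ω), c • x = algebraMap K Ω (c : K) * x := fun c x => by
    show (c : K) • x = _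
    rw [Algebra.smul_def]
  let Z : Set Ω := {z | minpoly K z = minpoly K (α i)}
  have hint : IsIntegral K (α i) := Algebra.IsIntegral.isIntegral _
  have hZfin : Z.Finite := by
    refine ((minpoly K (α i)).rootSet_finite Ω).subset ?_
    intro z hz
    rw [mem_rootSet]
    refine ⟨minpoly.ne_zero hint, ?_⟩
    have : minpoly K z = minpoly K (α i) := hz
    rw [← this]
    exact minpoly.aeval K z
  have hex : ∀ z ∈ Z, ∃ σ : Ω ≃ₐ[K] Ω, σ (α i) = z := by
    intro z hz
    exact isConjRoot_iff_exists_algEquiv.mp hz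
  have hZσ : ∀ (σ : Ω ≃ₐ[K] Ω) (j), σ (α j) ∈ Z := by
    intro σ j
    show minpoly K (σ (α j)) = minpoly K (α i)
    rw [minpoly.algEquiv_eq σ (α j), hm j i]
  let N : Submodule O Ω := Submodule.span O Z
  have hNfg : N.FG := Submodule.fg_span hZfin
  have hwi : w (a i : K) ≠ 0 := (Valuation.ne_zero_iff _).mpr hai
  have hlt : ∀ j, j ≠ i → w (-((a j : K) / (a i : K))) < 1 := by
    intro j hj
    rw [Valuation.map_neg, map_div₀]
    exact (div_lt_one₀ (zero_lt_iff.mpr hwi)).mpr (hcon j hj)
  have hmax : ∀ x : O, w (x : K) < 1 → x ∈ IsLocalRing.maximalIdeal O := by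
    intro x hx
    rw [IsLocalRing.mem_maximalIdeal, mem_nonunits_iff]
    intro hu
    obtain ⟨y, hy⟩ := hu.exists_right_inv
    have h1 : w ((x : K) * (y : K)) = 1 := by
      have : (x : K) * (y : K) = 1 := by
        have := congrArg (fun z : O => (z : K)) hy
        simpa using this
      rw [this, map_one]
    rw [map_mul] at h1
    have hy1 : w (y : K) ≤ 1 := y.2
    have h2 : w (x : K) * w (y : K) < 1 := by
      calc w (x : K) * w (y : K) ≤ w (x : K) * 1 := mul_le_mul_right hy1 _
        _ < 1 := by rw [mul_one]; exact hx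
    exact absurd h1 h2.ne
  have hle : N ≤ IsLocalRing.maximalIdeal O • N := by
    refine Submodule.span_le.mpr ?_
    intro z hz
    obtain ⟨σ, hσ⟩ := hex z hz
    have h1 := congrArg σ hsum
    simp only [map_sum, map_mul, map_zero] at h1
    have hcomm : ∀ k, σ (algebraMap K Ω (a k : K)) = algebraMap K Ω (a k : K) :=
      fun k => σ.commutes _
    have h1' : ∑ k, algebraMap K Ω (a k : K) * σ (α k) = 0 := by
      rw [← h1]
      exact Finset.sum_congr rfl (fun k _ => by rw [hcomm])
    rw [← Finset.add_sum_erase _ _ (mem_univ i), hσ] at h1'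
    have hane : algebraMap K Ω (a i : K) ≠ 0 := (_root_.map_ne_zero _).mpr hai
    have h2 : z = ∑ k ∈ univ.erase i, algebraMap K Ω (-((a k : K) / (a i : K))) * σ (α k) := by
      have h3 : z = -(∑ k ∈ univ.erase i, algebraMap K Ω (a k : K) * σ (α k)) /
          algebraMap K Ω (a i : K) := by
        rw [eq_div_iff hane]
        linear_combination h1'
      rw [h3, neg_div, Finset.sum_div, ← Finset.sum_neg_distrib]
      apply Finset.sum_congr rfl
      intro k _
      rw [map_neg, map_div₀]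
      ring
    rw [h2]
    show _ ∈ IsLocalRing.maximalIdeal O • N
    apply Submodule.sum_mem
    intro k hk
    have hki : k ≠ i := (Finset.mem_erase.mp hk).1
    let c : O := ⟨-((a k : K) / (a i : K)), (hlt k hki).le⟩
    have h4 : algebraMap K Ω (-((a k : K) / (a i : K))) * σ (α k) = c • σ (α k) :=
      (hsmul c _).symm
    rw [h4]
    exact Submodule.smul_mem_smul (hmax c (hlt k hki)) (Submodule.subset_span (hZσ σ k))
  have hbot := Submodule.eq_bot_of_le_smul_of_le_jacobson_bot _ N hNfg hle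
    (IsLocalRing.maximalIdeal_le_jacobson ⊥)
  have hαN : α i ∈ N := Submodule.subset_span (by show minpoly K (α i) = minpoly K (α i); rfl)
  rw [hbot, Submodule.mem_bot] at hαN
  exact h0 i hαN

/-- The local conditions give the ideal membership. -/
theorem local_to_global (K : Type) [Field K] [NumberField K] {n : ℕ} (a : Fin n → 𝓞 K)
    (i : Fin n) (hne : ∃ j, j ≠ i ∧ a j ≠ 0)
    (h : ∀ v : HeightOneSpectrum (𝓞 K), ∃ j : Fin n, j ≠ i ∧
      v.valuation K (a i : K) ≤ v.valuation K (a j : K)) :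
    ∃ x : Fin n → 𝓞 K, x i = 1 ∧ ∑ j, a j * x j = 0 := by
  classical
  let g : Fin n → 𝓞 K := fun j => if j = i then 0 else a j
  let I : Ideal (𝓞 K) := Ideal.span (Set.range g)
  have hg : ∀ j, j ≠ i → a j ∈ I := by
    intro j hj
    have : g j = a j := by simp [g, hj]
    rw [← this]
    exact Ideal.subset_span ⟨j, rfl⟩
  have hmem : a i ∈ I := by
    by_contra hnot
    let J : Ideal (𝓞 K) := Submodule.comap (LinearMap.mulRight (𝓞 K) (a i)) I
    have hJ : ∀ r, r ∈ J ↔ r * a i ∈ I := fun r => Iff.rfl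
    have hJtop : J ≠ ⊤ := by
      intro htop
      have h1 : (1 : 𝓞 K) ∈ J := by rw [htop]; trivial
      rw [hJ, one_mul] at h1
      exact hnot h1
    obtain ⟨P, hP, hJP⟩ := Ideal.exists_le_maximal J hJtop
    obtain ⟨j0, hj0, haj0⟩ := hne
    have hPne : P ≠ ⊥ := by
      intro hbot
      have h1 : a j0 ∈ J := by
        rw [hJ]; exact I.mul_mem_right _ (hg j0 hj0)
      have h2 := hJP h1
      rw [hbot, Ideal.mem_bot] at h2
      exact haj0 h2
    let v : HeightOneSpectrum (𝓞 K) := ⟨P, hP.isPrime, hPne⟩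
    obtain ⟨j, hj, hvj⟩ := h v
    have hai : (a i : K) ≠ 0 := by
      intro h0
      have : a i = 0 := by exact_mod_cast h0
      rw [this] at hnot
      exact hnot I.zero_mem
    have hvi : v.valuation K (a i : K) ≠ 0 := (Valuation.ne_zero_iff _).mpr hai
    have haj : (a j : K) ≠ 0 := by
      intro h0
      rw [h0, map_zero] at hvj
      exact hvi (le_antisymm hvj zero_le)
    have hvj' : v.valuation K (a j : K) ≠ 0 := (Valuation.ne_zero_iff _).mpr haj
    have hx : v.valuation K ((a i : K) / (a j : K)) ≤ 1 := by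
      rw [map_div₀]
      exact (div_le_one₀ (zero_lt_iff.mpr hvj')).mpr hvj
    obtain ⟨b, s, hbs⟩ := HeightOneSpectrum.exists_primeCompl_mul_eq_of_integer v _ hx
    have h3 : (s : 𝓞 K) * a i = b * a j := by
      have h4 : ((a i : K) / (a j : K)) * ((s : 𝓞 K) : K) = (b : K) := hbs
      have h5 : (((s : 𝓞 K) * a i : 𝓞 K) : K) = ((b * a j : 𝓞 K) : K) := by
        have h6 : (((s : 𝓞 K) * a i : 𝓞 K) : K) = ((s : 𝓞 K) : K) * (a i : K) := map_mul _ _ _
        have h7 : ((b * a j : 𝓞 K) : K) = (b : K) * (a j : K) := map_mul _ _ _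
        rw [h6, h7, ← h4]
        field_simp
      exact RingOfIntegers.coe_injective h5
    have h6 : (s : 𝓞 K) ∈ J := by
      rw [hJ, h3]
      exact I.mul_mem_left _ (hg j hj)
    exact s.2 (hJP h6)
  obtain ⟨c, hc⟩ := Ideal.mem_span_range_iff_exists_fun.mp hmem
  refine ⟨fun j => if j = i then 1 else -c j, by simp, ?_⟩
  have h1 : ∀ j, a j * (if j = i then 1 else -c j) = (if j = i then a i else 0) - c j * g j := by
    intro j
    by_cases hj : j = i
    · subst hj; simp [g]
    · simp only [hj, if_false, g]; ring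
  simp only [h1]
  rw [Finset.sum_sub_distrib, hc, Finset.sum_ite_eq' univ i (fun _ => a i)]
  simp

/-- Relations between roots of unity give relations between conjugates. -/
theorem of_roots_of_unity (K : Type) [Field K] [NumberField K] {n : ℕ} (a : Fin n → 𝓞 K)
    (ω : Fin n → AlgebraicClosure K) (hω : ∀ i, ∃ m : ℕ, 0 < m ∧ ω i ^ m = 1)
    (hsum : ∑ i, algebraMap K (AlgebraicClosure K) (a i : K) * ω i = 0) :
    ∃ α : Fin n → AlgebraicClosure K,
        (∀ i, α i ≠ 0) ∧ (∀ i j, minpoly K (α i) = minpoly K (α j)) ∧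
        ∑ i, algebraMap K (AlgebraicClosure K) (a i : K) * α i = 0 := by
  classical
  choose m hm0 hm1 using hω
  let M : ℕ := ∏ i, m i
  have hM : 0 < M := Finset.prod_pos (fun i _ => hm0 i)
  have hωM : ∀ i, ω i ^ M = 1 := by
    intro i
    obtain ⟨c, hc⟩ := Finset.dvd_prod_of_mem m (mem_univ i)
    show ω i ^ (∏ i, m i) = 1
    rw [hc, pow_mul, hm1, one_pow]
  -- a prime and a uniformizer
  have h2 : Ideal.span {(2 : 𝓞 K)} ≠ ⊤ := by
    rw [Ne, Ideal.span_singleton_eq_top]
    intro hu
    have h3 := hu.map (Algebra.norm ℤ)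
    have h4 : Algebra.norm ℤ (2 : 𝓞 K) = 2 ^ Module.finrank ℤ (𝓞 K) := by
      have := Algebra.norm_algebraMap (R := ℤ) (S := 𝓞 K) (2 : ℤ)
      simpa using this
    rw [h4] at h3
    have h5 : Module.finrank ℤ (𝓞 K) ≠ 0 := by
      rw [RingOfIntegers.rank]
      exact Module.finrank_pos.ne'
    have h6 := (isUnit_pow_iff h5).mp h3
    rw [Int.isUnit_iff] at h6
    omega
  obtain ⟨P, hP, h2P⟩ := Ideal.exists_le_maximal _ h2
  have hPne : P ≠ ⊥ := by
    intro hbot
    have h3 : (2 : 𝓞 K) ∈ P := h2P (Ideal.mem_span_singleton_self 2)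
    rw [hbot, Ideal.mem_bot] at h3
    exact two_ne_zero h3
  obtain ⟨t, ht1, ht2⟩ := Ideal.exists_mem_pow_notMem_pow_succ P hPne hP.ne_top 1
  rw [pow_one] at ht1
  let f : (𝓞 K)[X] := X ^ M - C t
  have hmonic : f.Monic := monic_X_pow_sub_C t hM.ne'
  have hdeg : f.natDegree = M := natDegree_X_pow_sub_C
  have hE : f.IsEisensteinAt P := by
    refine ⟨?_, ?_, ?_⟩
    · rw [hmonic.leadingCoeff]
      exact fun h1 => hP.ne_top ((Ideal.eq_top_iff_one _).mpr h1)
    · intro k hk
      rw [hdeg] at hk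
      show (X ^ M - C t).coeff k ∈ P
      rw [coeff_sub, coeff_X_pow, if_neg hk.ne, zero_sub, coeff_C]
      split_ifs
      · exact P.neg_mem ht1
      · simp
    · show (X ^ M - C t).coeff 0 ∉ P ^ 2
      rw [coeff_sub, coeff_X_pow, if_neg hM.ne, zero_sub, coeff_C_zero]
      intro h
      exact ht2 (by simpa using (P ^ 2).neg_mem h)
  have hirr : Irreducible f := hE.irreducible hP.isPrime hmonic.isPrimitive (by rw [hdeg]; exact hM)
  have hirrK : Irreducible (f.map (algebraMap (𝓞 K) K)) :=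
    (Monic.irreducible_iff_irreducible_map_fraction_map hmonic).mp hirr
  let Ω := AlgebraicClosure K
  obtain ⟨θ, hθ⟩ := IsAlgClosed.exists_pow_nat_eq (algebraMap K Ω (t : K)) hM
  have htne : (t : K) ≠ 0 := by
    intro h0
    have : t = 0 := by exact_mod_cast h0
    rw [this] at ht2
    exact ht2 (Ideal.zero_mem _)
  have hθne : θ ≠ 0 := by
    intro h0
    rw [h0, zero_pow hM.ne'] at hθ
    exact ((map_ne_zero (algebraMap K Ω)).mpr htne) hθ.symm
  have hωne : ∀ i, ω i ≠ 0 := by
    intro i h0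
    have := hm1 i
    rw [h0, zero_pow (hm0 i).ne'] at this
    exact zero_ne_one this
  have hmin : ∀ i, f.map (algebraMap (𝓞 K) K) = minpoly K (ω i * θ) := by
    intro i
    refine minpoly.eq_of_irreducible_of_monic hirrK ?_ (hmonic.map _)
    show aeval (ω i * θ) (map (algebraMap (𝓞 K) K) (X ^ M - C t)) = 0
    rw [Polynomial.map_sub, Polynomial.map_pow, map_X, map_C, map_sub, map_pow, aeval_X, aeval_C,
      mul_pow, hωM, one_mul, hθ]
    exact sub_self _
  refine ⟨fun i => ω i * θ, fun i => mul_ne_zero (hωne i) hθne,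
    fun i j => by rw [← hmin i, ← hmin j], ?_⟩
  have h7 : ∀ i, algebraMap K Ω (a i : K) * (ω i * θ) = (algebraMap K Ω (a i : K) * ω i) * θ :=
    fun i => by ring
  show ∑ i, algebraMap K Ω (a i : K) * (ω i * θ) = 0
  simp only [h7]
  rw [← Finset.sum_mul, hsum, zero_mul]

end

end Pool.Agent.U578.Smyth
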