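import Mathlib

set_option autoImplicit false

namespace Pool.Agent.U578.SAv

/-- avoiding 321, for a function on `ℕ` -/
def A3 (f : ℕ → ℕ) : Prop := ∀ i j k, i < j → j < k → ¬ (f k < f j ∧ f j < f i)

/-- avoiding 1342, for a function on `ℕ` -/
def A4 (f : ℕ → ℕ) : Prop :=
  ∀ i j k l, i < j → j < k → k < l → ¬ (f i < f l ∧ f l < f j ∧ f j < f k)

/-- the permutations of `ℕ` supported on `[0, n)` which strongly avoid 321 and 1342 -/
def W (n : ℕ) : Set (Equiv.Perm ℕ) :=
  {π | (∀ i, n ≤ i → π i = i) ∧ (A3 π ∧ A4 π) ∧
    (A3 (fun i => π (π i)) ∧ A4 (fun i => π (π i)))}

/-- rotation by `j` on `[0, n)` -/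
def rot (n j : ℕ) (i : ℕ) : ℕ :=
  if i + j < n then i + j else if i < n then i + j - n else i

theorem key {N : ℕ} (hN : 2 ≤ N) (π : Equiv.Perm ℕ) (hfix : ∀ i, N + 1 ≤ i → π i = i)
    (h3 : A3 π) (h4 : A4 π) (g3 : A3 (fun i => π (π i))) (g4 : A4 (fun i => π (π i)))
    (h1 : π N ≠ N) (h2 : ¬ (π N = N - 1 ∧ π (N - 1) = N)) :
    ∃ v, v < N ∧ ∀ i, π i = rot (N + 1) (v + 1) i := by
  have hinj : ∀ a b, π a = π b → a = b := fun a b h => π.injective h
  have hle : ∀ i, i ≤ N → π i ≤ N := by
    intro i hi
    by_contra hc
    have h5 : π (π i) = π i := hfix _ (by omega)
    have h6 := hinj _ _ h5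
    omega
  obtain ⟨P, hP⟩ : ∃ P, π P = N := ⟨π.symm N, by simp⟩
  have hpos : ∀ u, u ≤ N → ∃ p, p ≤ N ∧ π p = u := by
    intro u hu
    refine ⟨π.symm u, ?_, by simp⟩
    by_contra hc
    have h5 : π (π.symm u) = π.symm u := hfix _ (by omega)
    have h6 : π (π.symm u) = u := by simp
    omega
  have hPN : P < N := by
    have hP1 : P ≤ N := by
      by_contra hc
      have := hfix P (by omega)
      omega
    have hP2 : P ≠ N := by
      rintro rfl
      exact h1 hP
    omega
  obtain ⟨v, hv⟩ : ∃ v, π N = v := ⟨_, rfl⟩
  have hvN : v < N := by
    have := hle N le_rfl
    omega
  -- increasing after P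
  have hinc : ∀ i j, P < i → i < j → j ≤ N → π i < π j := by
    intro i j hi hij hj
    by_contra hc
    have hne : π i ≠ π j := fun h => by have := hinj _ _ h; omega
    have hiN : π i ≠ N := fun h => by
      have := hinj i P (by rw [h, hP])
      omega
    have := hle i (by omega)
    exact h3 P i j hi hij ⟨by omega, by omega⟩
  -- step 1
  have hstep : ∀ i, i + v + 1 < N → π i = i + v + 1 := by
    intro i
    induction i using Nat.strong_induction_on with
    | _ i ih =>
      intro hi
      obtain ⟨p, hpN, hp⟩ := hpos (i + v + 1) (by omega)
      have hpN' : p ≠ N := fun h => by rw [h] at hp; omega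
      have hpP : p ≠ P := fun h => by rw [h] at hp; omega
      have hpP' : p < P := by
        by_contra hc
        have := hinc p N (by omega) (by omega) le_rfl
        omega
      have hpi : i ≤ p := by
        by_contra hc
        have := ih p (by omega) (by omega)
        omega
      by_cases hpi' : p = i
      · rw [← hpi', hp]
        omega
      · exfalso
        have hiv : v < π i := by
          have h5 : π i ≠ v := fun h => by
            have := hinj i N (by rw [h, hv])
            omega
          by_contra hc
          exact h4 i p P N (by omega) hpP' hPN ⟨by omega, by omega, by omega⟩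
        have hiN : π i ≠ N := fun h => by
          have := hinj i P (by rw [h, hP])
          omega
        have hiu : π i ≠ i + v + 1 := fun h => by
          have := hinj i p (by rw [h, hp])
          omega
        have hiu' : ¬ (π i < i + v + 1) := by
          intro hc
          have h5 := ih (π i - v - 1) (by omega) (by omega)
          have h6 : π (π i - v - 1) = π i := by omega
          have := hinj _ _ h6
          omega
        exact h3 i p N (by omega) (by omega) ⟨by omega, by omega⟩
  have hPt : N - v - 1 ≤ P := by
    by_contra hc
    have := hstep P (by omega)
    omega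
  rcases Nat.eq_or_lt_of_le hPt with hPt' | hPt'
  · -- rotation
    refine ⟨v, hvN, ?_⟩
    have hrest : ∀ i, P < i → i ≤ N → π i = i - P - 1 := by
      intro i
      induction i using Nat.strong_induction_on with
      | _ i ih =>
        intro hi hiN
        obtain ⟨p, hpN, hp⟩ := hpos (i - P - 1) (by omega)
        have hpP : p ≠ P := fun h => by rw [h] at hp; omega
        have hpP' : P < p := by
          by_contra hc
          have := hstep p (by omega)
          omega
        have hpi : i ≤ p := by
          by_contra hc
          have := ih p (by omega) (by omega) (by omega)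
          omega
        by_cases hpi' : p = i
        · rw [← hpi', hp]
          omega
        · exfalso
          have h5 := hinc i p hi (by omega) hpN
          have h6 := ih (π i + P + 1) (by omega) (by omega) (by omega)
          have h7 : π (π i + P + 1) = π i := by omega
          have := hinj _ _ h7
          omega
    intro i
    unfold rot
    split_ifs with ha hb
    · by_cases hiP : i = P
      · rw [hiP, hP]
        omega
      · rw [hstep i (by omega)]
        omega
    · rw [hrest i (by omega) (by omega)]
      omega
    · exact hfix i (by omega)
  · exfalso
    by_cases ht : v + 1 < N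
    · have hπ0 : π 0 = v + 1 := by
        rw [hstep 0 (by omega)]
        omega
      have hmid : ∀ i, N - v - 1 ≤ i → i ≠ P → i ≤ N → π i ≤ v := by
        intro i hi hiP hiN
        by_contra hc
        have h5 : π i ≠ N := fun h => by
          have := hinj i P (by rw [h, hP])
          omega
        have h6 := hle i hiN
        have h7 := hstep (π i - v - 1) (by omega)
        have h8 : π (π i - v - 1) = π i := by omega
        have := hinj _ _ h8
        omega
      have hπt : π (N - v - 1) = 0 := by
        obtain ⟨q, hqN, hq⟩ := hpos 0 (by omega)
        have hqt : N - v - 1 ≤ q := by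
          by_contra hc
          have := hstep q (by omega)
          omega
        by_cases hqt' : q = N - v - 1
        · rw [← hqt', hq]
        · exfalso
          have h5 : π (N - v - 1) ≠ 0 := fun h => by
            have := hinj (N - v - 1) q (by rw [h, hq])
            omega
          have h6 := hmid (N - v - 1) le_rfl (by omega) (by omega)
          exact h3 0 (N - v - 1) q (by omega) (by omega) ⟨by omega, by omega⟩
      by_cases hPv : v + 1 ≤ P
      · have hx := hstep (P - v - 1) (by omega)
        have hx' : π (P - v - 1) = P := by omega
        refine g3 (P - v - 1) (N - v - 1) P (by omega) hPt' ⟨?_, ?_⟩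
        · show π (π P) < π (π (N - v - 1))
          rw [hP, hv, hπt, hπ0]
          omega
        · show π (π (N - v - 1)) < π (π (P - v - 1))
          rw [hπt, hπ0, hx', hP]
          omega
      · by_cases hPv' : P < v
        · refine g3 (N - v - 1) P N hPt' hPN ⟨?_, ?_⟩
          · show π (π N) < π (π P)
            rw [hP, hv]
            have := hinc v N hPv' hvN le_rfl
            omega
          · show π (π P) < π (π (N - v - 1))
            rw [hP, hv, hπt, hπ0]
            omega
        · have hPv2 : P = v := by omega
          have hz := hinc (N - 1) N (by omega) (by omega) le_rfl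
          obtain ⟨q, hqN, hq⟩ := hpos (v - 1) (by omega)
          have hq1 : q ≠ N := fun h => by rw [h] at hq; omega
          have hq0 : q ≠ 0 := fun h => by rw [h] at hq; omega
          have hqz : q = N - 1 := by
            by_contra hc
            have h5 : π (N - 1) ≠ v - 1 := fun h => by
              have := hinj (N - 1) q (by rw [h, hq])
              omega
            exact h3 0 q (N - 1) (by omega) (by omega) ⟨by omega, by omega⟩
          rw [hqz] at hq
          have h6 := hmid (v - 1) (by omega) (by omega) (by omega)
          have h7 : π (v - 1) ≠ v := fun h => by
            have := hinj (v - 1) N (by rw [h, hv])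
            omega
          refine g3 (N - v - 1) P (N - 1) hPt' (by omega) ⟨?_, ?_⟩
          · show π (π (N - 1)) < π (π P)
            rw [hP, hv, hq]
            omega
          · show π (π P) < π (π (N - v - 1))
            rw [hP, hv, hπt, hπ0]
            omega
    · have hv1 : v = N - 1 := by omega
      have hPN1 : P ≠ N - 1 := by
        intro h
        exact h2 ⟨by omega, by rw [← h]; exact hP⟩
      obtain ⟨w, hw⟩ : ∃ w, π (N - 1) = w := ⟨_, rfl⟩
      have hwv := hinc (N - 1) N (by omega) (by omega) le_rfl
      obtain ⟨x, hxN, hx⟩ := hpos P (by omega)
      have hx1 : x ≠ N := fun h => by rw [h] at hx; omega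
      have hx2 : x ≠ P := fun h => by rw [h] at hx; omega
      have hNN : π (π N) = w := by rw [hv, hv1, hw]
      have hPP : π (π P) = N - 1 := by rw [hP, hv, hv1]
      have hxx : π (π x) = N := by rw [hx, hP]
      rcases Nat.lt_or_gt_of_ne hx2 with hxP | hxP
      · exact g3 x P N hxP hPN ⟨by
          show π (π N) < π (π P)
          omega, by
          show π (π P) < π (π x)
          omega⟩
      · have hwP : P ≤ w := by
          by_cases h5 : x = N - 1
          · rw [h5] at hx
            omega
          · have := hinc x (N - 1) hxP (by omega) (by omega)
            omega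
        have h00 : π (π 0) < w := by
          by_cases hw2 : w = N - 2
          · have h5 : π (π 0) ≤ N := hle _ (hle _ (by omega))
            have h6 : π (π 0) ≠ N := fun h => by
              have := hinj _ _ (hinj _ _ (h.trans hxx.symm))
              omega
            have h7 : π (π 0) ≠ N - 1 := fun h => by
              have := hinj _ _ (hinj _ _ (h.trans hPP.symm))
              omega
            have h8 : π (π 0) ≠ w := fun h => by
              have := hinj _ _ (hinj _ _ (h.trans hNN.symm))
              omega
            omega
          · obtain ⟨q, hqN, hq⟩ := hpos (w + 1) (by omega)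
            have hq1 : q ≠ N := fun h => by rw [h] at hq; omega
            have hq2 : q ≠ N - 1 := fun h => by rw [h] at hq; omega
            have hq3 : q ≠ P := fun h => by rw [h] at hq; omega
            have hq4 : q < P := by
              by_contra hc
              have := hinc q (N - 1) (by omega) (by omega) (by omega)
              omega
            have hq0 : q = 0 := by
              by_contra hc
              have h5 : π 0 ≠ w := fun h => by
                have := hinj 0 (N - 1) (by rw [h, hw])
                omega
              have h6 : π 0 ≠ w + 1 := fun h => by
                have := hinj 0 q (by rw [h, hq])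
                omega
              have h7 : ¬ (π 0 < w) := fun h =>
                h4 0 q P (N - 1) (by omega) hq4 (by omega) ⟨by omega, by omega, by omega⟩
              exact h3 0 q (N - 1) (by omega) (by omega) ⟨by omega, by omega⟩
            rw [hq0] at hq
            rw [hq]
            have := hinc (w + 1) (N - 1) (by omega) (by omega) (by omega)
            omega
        refine g4 0 P x N (by omega) hxP (by omega) ⟨?_, ?_, ?_⟩
        · show π (π 0) < π (π N)
          omega
        · show π (π N) < π (π P)
          omega
        · show π (π P) < π (π x)
          omega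

end Pool.Agent.U578.SAv
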